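import Pool.Agent.MP_dfda4f_nt.wl.WeilG

open Polynomial Finset

namespace Pool.Agent.MP_dfda4f_nt.Wl

theorem weight_comp (a b : ℕ) : ∀ h : (ZMod 2)[X], h.natDegree < 2 ^ b →
    (h.comp (X ^ a + X)).support.card ≤ 3 ^ b := by
  induction b with
  | zero =>
    intro h hh
    rw [eq_C_of_natDegree_eq_zero (by omega : h.natDegree = 0), C_comp]
    exact (card_le_card (support_C_subset _)).trans (by simp)
  | succ b ih =>
    intro h hh
    have hm : (X ^ 2 ^ b : (ZMod 2)[X]).Monic := monic_X_pow _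
    have h1 := ih (h %ₘ X ^ 2 ^ b) (by
      have := natDegree_modByMonic_lt h hm (fun e => by
        have := congrArg natDegree e
        simp at this)
      rwa [natDegree_X_pow] at this)
    have h2 := ih (h /ₘ X ^ 2 ^ b) (by
      rw [natDegree_divByMonic h hm, natDegree_X_pow]; omega)
    have h3 : (((X : (ZMod 2)[X]) ^ a + X) ^ 2 ^ b).support.card ≤ 2 := by
      rw [add_pow_char_pow, ← pow_mul]
      refine (card_le_card support_add).trans ((card_union_le _ _).trans ?_)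
      rw [support_X_pow, support_X_pow]; simp
    conv_lhs => rw [← modByMonic_add_div h (X ^ 2 ^ b)]
    rw [add_comp, mul_comp, X_pow_comp]
    refine (card_le_card support_add).trans ((card_union_le _ _).trans ?_)
    have h4 := card_support_mul_le.trans (Nat.mul_le_mul h3 h2)
    omega

theorem bluher {L : Type} [Field L] [CharP L 2] (j : ℕ) {u : L} (h1 : u + 1 ≠ 0)
    (h2 : (u ^ 2 ^ j) ^ 2 ^ j + u ≠ 0) :
    ((u * u ^ 2 ^ j + 1) * ((u ^ 2 ^ j) ^ 2 ^ j + 1) /
        ((u ^ 2 ^ j + 1) * ((u ^ 2 ^ j) ^ 2 ^ j + u))) ^ (2 ^ j + 1) +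
      (u * u ^ 2 ^ j + 1) * ((u ^ 2 ^ j) ^ 2 ^ j + 1) /
        ((u ^ 2 ^ j + 1) * ((u ^ 2 ^ j) ^ 2 ^ j + u)) =
      (u * u ^ 2 ^ j + 1) * ((u ^ 2 ^ j) ^ 2 ^ j * ((u ^ 2 ^ j) ^ 2 ^ j) ^ 2 ^ j + 1) /
        (((u ^ 2 ^ j) ^ 2 ^ j + u) * (((u ^ 2 ^ j) ^ 2 ^ j) ^ 2 ^ j + u ^ 2 ^ j)) := by
  have h20 : (2 : L) = 0 := CharTwo.two_eq_zero
  have h3 := pow_ne_zero (2 ^ j) h1
  have h4 := pow_ne_zero (2 ^ j) h3
  have h5 := pow_ne_zero (2 ^ j) h2
  simp only [add_pow_char_pow, one_pow] at h3 h4 h5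
  rw [pow_succ, div_pow]
  simp only [mul_pow, add_pow_char_pow, one_pow]
  generalize u ^ 2 ^ j = b at *
  generalize b ^ 2 ^ j = e at *
  generalize e ^ 2 ^ j = f at *
  field_simp
  linear_combination ((u * b + 1) * (b * e + f)) * h20

theorem exists8 (K L : Type) [Field K] [Fintype K] [Field L] [Algebra K L]
    [IsAlgClosed L] [Algebra.IsAlgebraic K L] [CharP L 2] (j : ℕ) (hj : 1 ≤ j)
    (hK : Fintype.card K = 2 ^ (8 * j))
    (hsum : ∑ l ∈ Nat.primeFactors (2 ^ (8 * j * (2 ^ j + 1)) - 1),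
      ((2 : ℝ) ^ (8 * j) / ((l : ℕ) : ℝ) + (2 : ℝ) ^ (2 * j) * √(2 ^ (8 * j))) <
        2 ^ (8 * j) - 1) :
    ∃ x : L, orderOf x = 2 ^ (8 * j * (2 ^ j + 1)) - 1 ∧
      (x ^ (2 ^ j + 1) + x) ^ 2 ^ (8 * j) = x ^ (2 ^ j + 1) + x := by
  classical
  have h20 : (2 : L) = 0 := CharTwo.two_eq_zero
  have h4 : 2 ^ 1 ≤ 2 ^ j := Nat.pow_le_pow_right (by norm_num) hj
  have heven : Even (2 ^ j) := (Nat.even_pow' (by omega)).2 even_two
  obtain ⟨r, hr⟩ : ∃ r, r = 2 ^ j + 1 := ⟨_, rfl⟩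
  obtain ⟨s, hs⟩ : ∃ s, 2 ^ j = s + 2 := ⟨2 ^ j - 2, by omega⟩
  have hodd : ∀ n : ℕ, Odd n → (n : L) ≠ 0 := fun n hn h =>
    (Nat.not_even_iff_odd.2 hn) (even_iff_two_dvd.2 ((CharP.cast_eq_zero_iff L 2 n).1 h))
  have hq : 1 < 2 ^ (8 * j) := Nat.one_lt_two_pow (by omega)
  have hN : 1 < 2 ^ (8 * j * r) := Nat.one_lt_two_pow (Nat.mul_pos (by omega) (by omega)).ne'
  have : NeZero (r : L) := ⟨hodd r (hr ▸ heven.add_one)⟩
  obtain ⟨ζ, hζ⟩ := HasEnoughRootsOfUnity.exists_primitiveRoot L r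
  have hζ0 : ζ ≠ 0 := hζ.ne_zero (by omega)
  have hζj : ζ ^ 2 ^ j = ζ⁻¹ :=
    eq_inv_of_mul_eq_one_left (by rw [← pow_succ, ← hr, hζ.pow_eq_one])
  have hQ : 2 ^ (8 * j) = (2 ^ j * 2 ^ j) ^ 4 := by rw [← pow_add, ← pow_mul]; congr 1; ring
  have hζq : ζ ^ 2 ^ (8 * j) = ζ := by
    rw [hQ]; exact pow_pow_fix (by rw [pow_mul, hζj, inv_pow, hζj, inv_inv]) 4
  obtain ⟨η, hη⟩ := IsAlgClosed.exists_pow_nat_eq ζ⁻¹ (n := 2 ^ (8 * j) - 1) (by omega)
  have hη0 : η ≠ 0 := by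
    rintro rfl
    rw [zero_pow (by omega)] at hη
    exact inv_ne_zero hζ0 hη.symm
  have hηq : η ^ 2 ^ (8 * j) * ζ = η := by
    have h2 : 2 ^ (8 * j) = 2 ^ (8 * j) - 1 + 1 := by omega
    rw [h2, pow_succ, hη]
    field_simp
  have hdeg : (minpoly K η).natDegree = r :=
    eta_deg hζ (by rw [hK]; exact hζq) hη0 (by rw [hK]; exact hηq)
  have hηr : η ^ Fintype.card K ^ r = η := (nw_fix_iff η r).2 (hdeg ▸ dvd_rfl)
  obtain ⟨μ, hμ⟩ : η ^ r ∈ (algebraMap K L).range := by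
    rw [← minpoly.natDegree_eq_one_iff, ← Nat.dvd_one, ← nw_fix_iff, pow_one, hK]
    conv_rhs => rw [← hηq]
    rw [mul_pow, hζ.pow_eq_one, mul_one, ← pow_mul, ← pow_mul, mul_comm]
  set H : K[X] := ∑ i ∈ range (s + 1), (X ^ r) ^ i * C μ ^ (s + 1 - 1 - i) with hH
  have hHe : H * (X ^ r - C μ) = (X ^ r) ^ (s + 1) - C μ ^ (s + 1) := geom_sum₂_mul _ _ _
  have hm1 : (X ^ r - C μ : K[X]).Monic := monic_X_pow_sub_C _ (by omega)
  have hm2 : ((X ^ r) ^ (s + 1) - C μ ^ (s + 1) : K[X]).Monic := by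
    rw [← pow_mul, ← C_pow]; exact monic_X_pow_sub_C _ (Nat.mul_ne_zero (by omega) (by omega))
  have hHm : H.Monic := hm1.of_mul_monic_right (hHe ▸ hm2)
  have hHd : H.natDegree = r * s := by
    have := congrArg natDegree hHe
    rw [hHm.natDegree_mul hm1, ← pow_mul, ← C_pow, natDegree_X_pow_sub_C,
      natDegree_X_pow_sub_C, mul_add] at this
    omega
  have hHa : ∀ y : L, aeval y H * (y ^ r - η ^ r) = (y ^ r) ^ (s + 1) - (η ^ r) ^ (s + 1) := by
    intro y
    have := congrArg (aeval y) hHe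
    simpa [hμ] using this
  have hH0 : aeval (0 : L) H ≠ 0 := by
    intro h
    have := hHa 0
    rw [h, zero_mul, zero_pow (by omega), zero_pow (by omega), zero_sub] at this
    exact pow_ne_zero _ (pow_ne_zero _ hη0) (neg_eq_zero.1 this.symm)
  have hHη : aeval η (X * H) ≠ 0 := by
    have h1 : aeval η H = ((s + 1 : ℕ) : L) * (η ^ r) ^ s := by
      simp only [hH, map_sum, map_mul, map_pow, aeval_X, aeval_C, hμ]
      exact geom_sum₂_self _ _
    rw [map_mul, aeval_X, h1]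
    refine mul_ne_zero hη0 (mul_ne_zero (hodd _ ?_) (pow_ne_zero _ (pow_ne_zero _ hη0)))
    rw [hs, Nat.even_add] at heven
    exact (heven.2 even_two).add_one
  have hτ : ∀ t : K, algebraMap K L t ^ 2 ^ (8 * j) = algebraMap K L t := by
    intro t
    rw [← map_pow, ← hK, FiniteField.pow_card]
  let u : K → L := fun t => algebraMap K L t / η
  have hu : ∀ t : K, u t ^ 2 ^ (8 * j) = ζ * u t := by
    intro t
    have h1 : η ^ 2 ^ (8 * j) = η * ζ⁻¹ := by
      rw [eq_mul_inv_iff_mul_eq₀ hζ0, hηq]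
    simp only [u]
    rw [div_pow, hτ, h1]
    field_simp
  have hu2 : ∀ t : K, t ≠ 0 → (u t ^ 2 ^ j) ^ 2 ^ j + u t ≠ 0 := by
    intro t ht h
    have h1 : u t ^ (2 ^ j * 2 ^ j) = u t := by
      rw [pow_mul]; linear_combination h - u t * h20
    have h2 := pow_pow_fix h1 4
    rw [← hQ, hu] at h2
    exact hζ.ne_one (by omega) (mul_right_cancel₀
      (div_ne_zero ((_root_.map_ne_zero _).2 ht) hη0) (by rw [h2, one_mul]))
  have hu1 : ∀ t : K, t ≠ 0 → u t + 1 ≠ 0 := by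
    intro t ht h
    have h1 : u t = 1 := by linear_combination h - h20
    exact hu2 t ht (by rw [h1, one_pow, one_pow]; linear_combination h20)
  let x : K → L := fun t => (u t * u t ^ 2 ^ j + 1) * ((u t ^ 2 ^ j) ^ 2 ^ j + 1) /
    ((u t ^ 2 ^ j + 1) * ((u t ^ 2 ^ j) ^ 2 ^ j + u t))
  have hy0 : ∀ t : K, t ≠ 0 → η - algebraMap K L t ≠ 0 := by
    intro t ht h
    refine hu1 t ht ?_
    simp only [u]
    rw [← sub_eq_zero.1 h, div_self hη0]
    linear_combination h20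
  have hkey : ∀ t : K, t ≠ 0 → x t * aeval (algebraMap K L t) (X * H) * η =
      (η - algebraMap K L t) ^ (2 ^ j * (s + 1)) := by
    intro t ht
    apply mul_right_cancel₀ (pow_ne_zero (2 ^ j) (hy0 t ht))
    have h1 := hHa (algebraMap K L t)
    have h2 := hu2 t ht
    have h3 := pow_ne_zero (2 ^ j) (hu1 t ht)
    have e1 : 2 ^ j * (s + 1) + 2 ^ j = 2 ^ j * 2 ^ j := by rw [hs]; ring
    have e2 : ∀ y : L, (y ^ r) ^ (s + 1) * y = (y ^ 2 ^ j) ^ 2 ^ j := fun y => by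
      rw [← pow_mul, ← pow_mul, ← pow_succ, hr, hs]; congr 1; ring
    have h5 := e2 η
    have h6 := e2 (algebraMap K L t)
    rw [← pow_add, e1, pow_mul, sub_pow_char_pow, sub_pow_char_pow, map_mul, aeval_X]
    simp only [x, u, add_pow_char_pow, one_pow, div_pow] at h2 h3 ⊢
    generalize (η ^ r) ^ (s + 1) = A at *
    generalize (algebraMap K L t ^ r) ^ (s + 1) = B at *
    rw [hr, pow_succ, pow_succ] at h1
    have h7 := pow_ne_zero (2 ^ j) hη0
    have h8 := pow_ne_zero (2 ^ j) h7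
    generalize aeval (algebraMap K L t) H = w at *
    generalize algebraMap K L t = τ at *
    generalize (τ ^ 2 ^ j) ^ 2 ^ j = τ2 at *
    generalize τ ^ 2 ^ j = τ1 at *
    generalize (η ^ 2 ^ j) ^ 2 ^ j = η2 at *
    generalize η ^ 2 ^ j = η1 at *
    simp only [CharTwo.sub_eq_add] at h1 ⊢
    have h9 : τ1 + η1 ≠ 0 := fun h => h3 (by field_simp; linear_combination h)
    have h10 : τ2 * η + τ * η2 ≠ 0 := fun h => h2 (by field_simp; linear_combination h)
    have h11 : τ2 * η + η2 * τ = τ * w * (τ * τ1 + η * η1) * η := by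
      linear_combination (-(τ * η)) * h1 - τ * h5 - η * h6
    have h12 : τ * w * (τ * τ1 + η * η1) * η ≠ 0 := fun h => h10 (by linear_combination h + h11)
    rw [div_add_one h7, div_add_one h8, div_add_div _ _ h8 hη0, div_mul_div_comm,
      div_add_one (mul_ne_zero hη0 h7), h11]
    simp only [ne_eq, mul_eq_zero, not_or] at h12
    obtain ⟨⟨⟨h13, h14⟩, h15⟩, _⟩ := h12
    generalize τ * τ1 + η * η1 = P at *
    field_simp
    ring
  have hxE : ∀ t : K, x t ^ Fintype.card K ^ r = x t := by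
    intro t
    have h1 : u t ^ Fintype.card K ^ r = u t := by
      simp only [u]
      rw [div_pow, hηr, ← map_pow, FiniteField.pow_card_pow]
    rw [← nw_frob (K := K)] at h1 ⊢
    simp only [x, map_div₀, map_mul, map_add, map_pow, map_one, h1]
  have hx0 : ∀ t : K, t ≠ 0 → x t ≠ 0 ∧ aeval (algebraMap K L t) (X * H) ≠ 0 := by
    intro t ht
    have := pow_ne_zero (2 ^ j * (s + 1)) (hy0 t ht)
    rw [← hkey t ht] at this
    exact mul_ne_zero_iff.1 (left_ne_zero_of_mul this)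
  let Z : ℕ → Finset K := fun l =>
    univ.filter (fun t => t ≠ 0 ∧ x t ^ ((2 ^ (8 * j * r) - 1) / l) = 1)
  have hZ : ∀ l ∈ Nat.primeFactors (2 ^ (8 * j * r) - 1),
      ((Z l).card : ℝ) ≤ (2 : ℝ) ^ (8 * j) / ((l : ℕ) : ℝ) + 2 ^ (2 * j) * √(2 ^ (8 * j)) := by
    intro l hl
    have hlp := Nat.prime_of_mem_primeFactors hl
    have hld := Nat.dvd_of_mem_primeFactors hl
    have hl2 : ¬ l ∣ 2 := by
      intro h
      have h1 : l ∣ 2 ^ (8 * j * r) := h.trans (dvd_pow_self 2 (Nat.mul_pos (by omega) (by omega)).ne')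
      have h2 := (Nat.dvd_sub_iff_right hN.le h1).1 hld
      exact hlp.one_lt.ne' (Nat.dvd_one.1 h2)
    set M := (2 ^ (8 * j * r) - 1) / l with hMd
    have hM : Fintype.card K ^ r = l * M + 1 := by
      rw [hMd, Nat.mul_div_cancel' hld, hK, ← pow_mul]
      omega
    have hE : ∀ z : L, z ≠ 0 → z ^ Fintype.card K ^ r = z → z ^ (l * M) = 1 := by
      intro z hz0 hz
      apply mul_right_cancel₀ hz0
      rw [← pow_succ, ← hM, hz, one_mul]
    have hs2 : (2 : ℝ) ^ (2 * j) = ((s + 2) * (s + 2) : ℕ) := by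
      rw [← hs, two_mul, pow_add]; push_cast; rfl
    have hfin : ∀ n : ℕ, n ≤ (s + 2) * (s + 2) →
        ((Z l).card : ℝ) ≤ Fintype.card K / l + n * √(Fintype.card K) →
        ((Z l).card : ℝ) ≤ (2 : ℝ) ^ (8 * j) / ((l : ℕ) : ℝ) + 2 ^ (2 * j) * √(2 ^ (8 * j)) := by
      intro n hn h
      rw [hK] at h
      push_cast at h
      rw [hs2]
      exact h.trans (add_le_add le_rfl (mul_le_mul_of_nonneg_right (by exact_mod_cast hn)
        (Real.sqrt_nonneg _)))
    have hτr : ∀ t : K, algebraMap K L t ^ Fintype.card K ^ r = algebraMap K L t := fun t => by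
      rw [← map_pow, FiniteField.pow_card_pow]
    by_cases hls : l ∣ s + 1
    · have := Fact.mk hlp
      have hs1 : (2 : ZMod l) ^ j = 1 := by
        have h1 := (ZMod.natCast_eq_zero_iff _ _).2 hls
        have h2 := congrArg (Nat.cast : ℕ → ZMod l) hs
        push_cast at h1 h2
        linear_combination h2 + h1
      have hq1 : ((Fintype.card K : ℕ) : ZMod l) = 1 := by
        rw [hK]; push_cast; rw [mul_comm, pow_mul, hs1, one_pow]
      obtain ⟨M1, hM1⟩ : l ∣ Fintype.card K - 1 := by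
        rw [← ZMod.natCast_eq_zero_iff, Nat.cast_sub Fintype.card_pos, hq1]; simp
      have hM1' : Fintype.card K ^ 1 = l * M1 + 1 := by
        have := Fintype.card_pos (α := K)
        rw [pow_one]; omega
      set S := ∑ i ∈ range r, Fintype.card K ^ i with hS
      have hMS : M = S * M1 := by
        have h1 := geom_sum_mul_add (l * M1) r
        rw [← hM1', pow_one, ← hS, hM] at h1
        exact Nat.eq_of_mul_eq_mul_left hlp.pos (by linear_combination -h1)
      have hlS : ¬ l ∣ S := by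
        rw [← ZMod.natCast_eq_zero_iff, hS]
        push_cast
        simp only [hq1, one_pow, sum_const, card_range, nsmul_eq_mul, mul_one, hr]
        push_cast
        rw [hs1]
        intro h
        exact hl2 ((ZMod.natCast_eq_zero_iff _ _).1 (by push_cast; linear_combination h))
      refine hfin _ ?_ (weilG K L 1 l M1 S S 0 ((η ^ M)⁻¹) H (Z l) (by simp) hlp hlS hM1' hHm hH0
        fun t ht => ?_)
      · rw [hHd, hr, hs]; nlinarith
      obtain ⟨ht0, ht1⟩ := (mem_filter.1 ht).2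
      change x t ^ M = 1 at ht1
      have h1 := (hx0 t ht0).2
      rw [map_mul, aeval_X] at h1
      refine ⟨(left_ne_zero_of_mul h1).symm, right_ne_zero_of_mul h1, ?_⟩
      obtain ⟨a, ha⟩ := hls
      have h2 := congrArg (· ^ M) (hkey t ht0)
      have h3 := hE _ (hy0 t ht0) (by rw [frob_sub K, hηr, hτr])
      simp only [mul_pow, map_mul, aeval_X, ht1, one_mul] at h2
      rw [← pow_mul, ha, show 2 ^ j * (l * a) * M = l * M * (2 ^ j * a) by ring, pow_mul, h3,
        one_pow] at h2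
      rw [zero_sub, CharTwo.neg_eq, ← mul_pow, ← pow_mul, ← hMS, mul_pow]
      exact eq_inv_of_mul_eq_one_left h2
    · refine hfin _ ?_ (weilG K L r l M (2 ^ j * (s + 1)) (l - 1) η (η ^ M) (X * H) (Z l) hdeg hlp
        (fun h => ?_) hM (monic_X.mul hHm) hHη fun t ht => ?_)
      · rw [monic_X.natDegree_mul hHm, natDegree_X, hHd, hr, hs]; nlinarith
      · rcases (Nat.Prime.dvd_mul hlp).1 h with h | h
        · exact hl2 (hlp.dvd_of_dvd_pow h)
        · exact hls h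
      obtain ⟨ht0, ht1⟩ := (mem_filter.1 ht).2
      refine ⟨sub_ne_zero.1 (hy0 t ht0), (hx0 t ht0).2, ?_⟩
      have h3 := hE _ (hx0 t ht0).2 (by rw [frob_aeval, hτr])
      rw [← hkey t ht0]
      obtain ⟨l', rfl⟩ : ∃ l', l = l' + 1 := ⟨l - 1, by have := hlp.pos; omega⟩
      rw [Nat.add_sub_cancel]
      calc _ = x t ^ M * aeval (algebraMap K L t) (X * H) ^ ((l' + 1) * M) * η ^ M := by ring
        _ = _ := by rw [ht1, h3]; simp
  rw [← hr] at hsum
  have hex : ∃ t : K, t ≠ 0 ∧ ∀ l ∈ Nat.primeFactors (2 ^ (8 * j * r) - 1), t ∉ Z l := by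
    by_contra hc
    push Not at hc
    have hsub : univ.erase (0 : K) ⊆ (Nat.primeFactors (2 ^ (8 * j * r) - 1)).biUnion Z := by
      intro t ht
      exact mem_biUnion.2 (hc t (ne_of_mem_erase ht))
    have h1 := (card_le_card hsub).trans card_biUnion_le
    rw [card_erase_of_mem (mem_univ _), card_univ, hK] at h1
    have h2 : ((2 ^ (8 * j) - 1 : ℕ) : ℝ) ≤ ∑ l ∈ Nat.primeFactors (2 ^ (8 * j * r) - 1),
        ((Z l).card : ℝ) := by exact_mod_cast h1
    rw [Nat.cast_sub hq.le] at h2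
    have h3 := h2.trans (sum_le_sum hZ)
    push_cast at h3
    linarith
  obtain ⟨t, ht0, ht⟩ := hex
  refine ⟨x t, ?_, ?_⟩
  · rw [← hr]
    refine orderOf_eq_of_pow_and_pow_div_prime (by omega) ?_ ?_
    · have h1 := hxE t
      rw [hK, ← pow_mul] at h1
      apply mul_right_cancel₀ (hx0 t ht0).1
      have h2 : 2 ^ (8 * j * r) - 1 + 1 = 2 ^ (8 * j * r) := by omega
      rw [← pow_succ, h2, one_mul]
      exact h1
    · intro l hl hld h
      exact ht l (Nat.mem_primeFactors.2 ⟨hl, hld, by omega⟩) (mem_filter.2 ⟨mem_univ _, ht0, h⟩)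
  · simp only [x]
    rw [bluher j (hu1 t ht0) (hu2 t ht0)]
    have h1 := hu t
    have h2 := hu2 t ht0
    have h3 := pow_ne_zero (2 ^ j) h2
    rw [add_pow_char_pow] at h3
    have h5 := nw_frob (K := K) (L := L) 1
    rw [pow_one (Fintype.card K), hK] at h5
    rw [← h5] at h1 ⊢
    simp only [map_div₀, map_mul, map_add, map_pow, map_one, h1, mul_pow, inv_pow, hζj, inv_inv]
    generalize u t = a at *
    generalize a ^ 2 ^ j = b at *
    generalize b ^ 2 ^ j = e at *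
    generalize e ^ 2 ^ j = f at *
    field_simp

theorem poly8 {L : Type} [Field L] [CharP L 2] [Algebra (ZMod 2) L] (d : ℕ) (hd : 0 < d)
    (x : L) (hx : orderOf x = 2 ^ d - 1) :
    (minpoly (ZMod 2) x).natDegree = d ∧ minpoly (ZMod 2) x ∣ X ^ (2 ^ d - 1) + 1 ∧
      (∀ t : ℕ, 0 < t → t < 2 ^ d - 1 → ¬ minpoly (ZMod 2) x ∣ X ^ t + 1) := by
  have hN : 1 < 2 ^ d := Nat.one_lt_two_pow hd.ne'
  have h1 : x ^ (2 ^ d - 1) = 1 := by rw [← hx, pow_orderOf_eq_one]
  have hx0 : x ≠ 0 := by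
    rintro rfl
    rw [zero_pow (by omega)] at h1
    exact zero_ne_one h1
  have hi : IsIntegral (ZMod 2) x := IsIntegral.of_pow (n := 2 ^ d - 1) (by omega)
    (by rw [h1]; exact isIntegral_one)
  have hfix : ∀ n, (minpoly (ZMod 2) x).natDegree ∣ n ↔ x ^ 2 ^ n = x := by
    intro n
    rw [(minpoly.irreducible hi).natDegree_dvd_iff_dvd_X_pow_card_pow_sub_X, minpoly.dvd_iff,
      Nat.card_zmod]
    simp [sub_eq_zero]
  have hdv : ∀ t : ℕ, minpoly (ZMod 2) x ∣ X ^ t + 1 ↔ x ^ t = 1 := by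
    intro t
    rw [minpoly.dvd_iff, ← sub_eq_zero (a := x ^ t), CharTwo.sub_eq_add]
    simp
  refine ⟨?_, (hdv _).2 h1, ?_⟩
  · have hp := minpoly.natDegree_pos hi
    have hP : 1 < 2 ^ (minpoly (ZMod 2) x).natDegree := Nat.one_lt_two_pow hp.ne'
    apply le_antisymm
    · refine Nat.le_of_dvd hd ((hfix d).2 ?_)
      have h2 : 2 ^ d = 2 ^ d - 1 + 1 := by omega
      rw [h2, pow_succ, h1, one_mul]
    · have h3 := (hfix _).1 dvd_rfl
      have h4 : x ^ (2 ^ (minpoly (ZMod 2) x).natDegree - 1) = 1 := by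
        apply mul_right_cancel₀ hx0
        have h2 : 2 ^ (minpoly (ZMod 2) x).natDegree - 1 + 1 =
          2 ^ (minpoly (ZMod 2) x).natDegree := by omega
        rw [← pow_succ, h2, one_mul, h3]
      have h5 := Nat.le_of_dvd (by omega) (orderOf_dvd_of_pow_eq_one h4)
      rw [hx] at h5
      exact (Nat.pow_le_pow_iff_right (by norm_num : 1 < 2)).1 (by omega)
  · intro t h0 hlt h
    have h5 := Nat.le_of_dvd h0 (orderOf_dvd_of_pow_eq_one ((hdv t).1 h))
    omega

theorem comp8 {L : Type} [Field L] [CharP L 2] [Algebra (ZMod 2) L] (k a : ℕ) (hk : 0 < k)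
    (ha : 1 < a) (x : L) (hx : orderOf x = 2 ^ (k * a) - 1)
    (hc : (x ^ a + x) ^ 2 ^ k = x ^ a + x) :
    ∃ h : (ZMod 2)[X], h.natDegree = k ∧ h.comp (X ^ a + X) = minpoly (ZMod 2) x := by
  have hd := (poly8 (k * a) (Nat.mul_pos hk (by omega)) x hx).1
  have hi : IsIntegral (ZMod 2) x := by
    by_contra h
    rw [minpoly.eq_zero h, natDegree_zero] at hd
    exact (Nat.mul_pos hk (by omega)).ne hd
  have hi' : IsIntegral (ZMod 2) (x ^ a + x) := (hi.pow a).add hi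
  have h1 : (minpoly (ZMod 2) (x ^ a + x)).natDegree ∣ k := by
    rw [(minpoly.irreducible hi').natDegree_dvd_iff_dvd_X_pow_card_pow_sub_X, minpoly.dvd_iff,
      Nat.card_zmod]
    simp [hc]
  have hlt : (X : (ZMod 2)[X]).degree < (X ^ a : (ZMod 2)[X]).degree := by
    rw [degree_X, degree_X_pow]; exact_mod_cast ha
  have hY : (X ^ a + X : (ZMod 2)[X]).natDegree = a := by
    rw [natDegree_add_eq_left_of_degree_lt hlt, natDegree_X_pow]
  have hm : ((minpoly (ZMod 2) (x ^ a + x)).comp (X ^ a + X)).Monic :=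
    (minpoly.monic hi').comp ((monic_X_pow a).add_of_left hlt) (by omega)
  have hdv : minpoly (ZMod 2) x ∣ (minpoly (ZMod 2) (x ^ a + x)).comp (X ^ a + X) :=
    minpoly.dvd _ _ (by simp [aeval_comp])
  have h2 := natDegree_le_of_dvd hdv hm.ne_zero
  rw [natDegree_comp, hY, hd] at h2
  have h3 : (minpoly (ZMod 2) (x ^ a + x)).natDegree = k :=
    le_antisymm (Nat.le_of_dvd hk h1) (Nat.le_of_mul_le_mul_right h2 (by omega))
  exact ⟨_, h3, eq_of_monic_of_dvd_of_natDegree_le (minpoly.monic hi) hm hdv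
    (by rw [natDegree_comp, hY, hd, h3])⟩

end Pool.Agent.MP_dfda4f_nt.Wl
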