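import Mathlib.Topology.Sheaves.Presheaf
import Mathlib.Data.Int.Star
import Mathlib.Algebra.Order.Ring.Star
import Mathlib.RingTheory.PicardGroup
import Mathlib.Algebra.Order.Star.Real
import Mathlib.RingTheory.PowerSeries.NoZeroDivisors
import Mathlib.Analysis.CStarAlgebra.Classes
import Mathlib.Combinatorics.SimpleGraph.Basic
import Mathlib.Analysis.SpecialFunctions.Complex.CircleAddChar
import Mathlib.FieldTheory.Finite.Extension
import Mathlib.RingTheory.PiTensorProduct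
import Mathlib.RingTheory.PowerSeries.Derivative
import Mathlib.NumberTheory.Bertrand
import Mathlib.NumberTheory.Harmonic.Bounds
import Mathlib.RingTheory.SimpleRing.Principal
import Mathlib.RingTheory.Henselian
import Mathlib.RingTheory.RegularLocalRing.Defs
import Mathlib.Tactic.Polynomial.Basic

-- ======== part 0: formerly Pool.Agent.MP_dfda4f_nt.wl.Spec
section MrgPart0

open Polynomial Finset

namespace Pool.Agent.MP_dfda4f_nt.Wl

/-- the monic polynomials of degree `m` over a finite field -/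
noncomputable def Mon (K : Type) [Field K] [Fintype K] (m : ℕ) : Finset K[X] := by
  classical
  exact (Finset.univ : Finset (Fin m → K)).image
    (fun c => X ^ m + ∑ i : Fin m, C (c i) * X ^ (i : ℕ))

/-- the solutions of `t ^ Q = t` -/
noncomputable def Fx (L : Type) [Field L] (Q : ℕ) : Finset L := by
  classical
  exact (X ^ Q - X : L[X]).roots.toFinset

/-- the characteristic polynomial of `t` in the extension of degree `n` -/
noncomputable def cp (K : Type) {L : Type} [Field K] [Field L] [Algebra K L] (n : ℕ) (t : L) :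
    K[X] :=
  minpoly K t ^ (n / (minpoly K t).natDegree)

theorem mem_Mon {K : Type} [Field K] [Fintype K] {m : ℕ} {g : K[X]} :
    g ∈ Mon K m ↔ g.Monic ∧ g.natDegree = m := by
  classical
  unfold Mon
  simp only [mem_image, mem_univ, true_and]
  constructor
  · rintro ⟨c, rfl⟩
    have h : (∑ i : Fin m, C (c i) * X ^ (i : ℕ) : K[X]).degree < (X ^ m : K[X]).degree := by
      rw [degree_X_pow]; exact degree_sum_fin_lt c
    exact ⟨(monic_X_pow m).add_of_left h, by
      rw [natDegree_add_eq_left_of_degree_lt h, natDegree_X_pow]⟩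
  · rintro ⟨hm, rfl⟩
    refine ⟨fun i => g.coeff i, ?_⟩
    conv_rhs => rw [hm.as_sum]
    rw [Finset.sum_range (fun i => C (g.coeff i) * X ^ i)]

theorem mem_Fx {L : Type} [Field L] {Q : ℕ} (hQ : 1 < Q) {t : L} : t ∈ Fx L Q ↔ t ^ Q = t := by
  classical
  unfold Fx
  rw [Multiset.mem_toFinset, mem_roots (FiniteField.X_pow_card_sub_X_ne_zero L hQ)]
  simp [sub_eq_zero]

theorem card_Fx {L : Type} [Field L] [IsAlgClosed L] (p : ℕ) [Fact p.Prime] [CharP L p] {n : ℕ}
    (hn : n ≠ 0) : (Fx L (p ^ n)).card = p ^ n := by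
  classical
  have hp : 1 < p := (Fact.out : p.Prime).one_lt
  have hs : (X ^ p ^ n - X : L[X]).Separable :=
    galois_poly_separable p (p ^ n) (dvd_pow_self p hn)
  unfold Fx
  rw [Multiset.toFinset_card_of_nodup (nodup_roots hs), IsAlgClosed.card_roots_eq_natDegree,
    FiniteField.X_pow_card_pow_sub_X_natDegree_eq L hn hp]

/-- Stepanov-Bombieri upper bound for `y ^ l = c f(x)` over the field with `(p ^ e) ^ 2` elements -/
def StepS : Prop :=
  ∀ (L : Type) [Field L] [IsAlgClosed L] (p : ℕ) [Fact p.Prime] [CharP L p] (l ν : ℕ) (η : L)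
    (f1 : L[X]), 0 < l → Nat.Coprime ν l → f1.eval η ≠ 0 →
    ∃ C0 : ℕ, ∀ (e w : ℕ) (c : L), C0 ≤ p ^ e → p ^ e = l * w + 1 → η ^ (p ^ e * p ^ e) = η →
      ∀ Z : Finset L, (∀ x ∈ Z, x ^ (p ^ e * p ^ e) = x ∧ (x - η) ^ ν * f1.eval x ≠ 0 ∧
        ((x - η) ^ ν * f1.eval x) ^ (w * (p ^ e + 1)) = c) →
      l * Z.card ≤ p ^ e * p ^ e + C0 * p ^ e

/-- logarithmic derivative of the Euler product -/
def NewtonS : Prop :=
  ∀ (K L : Type) [Field K] [Fintype K] [Field L] [Algebra K L] [IsAlgClosed L]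
    [Algebra.IsAlgebraic K L] (Λ : K[X] →* ℂ) (m : ℕ),
    (m : ℂ) * ∑ g ∈ Mon K m, Λ g =
      ∑ n ∈ Icc 1 m, (∑ t ∈ Fx L (Fintype.card K ^ n), Λ (cp K n t)) * ∑ g ∈ Mon K (m - n), Λ g

/-- bounded power sums bound the inverse roots -/
def PowS : Prop :=
  ∀ (A S : ℕ → ℂ) (r n0 m0 : ℕ) (B C0 : ℝ), 0 < n0 → 0 ≤ B → A 0 = 1 → (∀ m, r < m → A m = 0) →
    (∀ m : ℕ, (m : ℂ) * A m = ∑ n ∈ Icc 1 m, S n * A (m - n)) →
    (∀ m, m0 ≤ m → ‖S (n0 * m)‖ ≤ C0 * B ^ (n0 * m)) → ‖A 1‖ ≤ r * B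

/-- the characteristic polynomial splits along the Frobenius orbit -/
def ConjS : Prop :=
  ∀ (K L : Type) [Field K] [Fintype K] [Field L] [Algebra K L] [Algebra.IsAlgebraic K L]
    (n : ℕ) (t : L), 0 < n → t ^ (Fintype.card K ^ n) = t →
    (cp K n t).map (algebraMap K L) = ∏ j ∈ range n, (X - C (t ^ (Fintype.card K ^ j)))

/-- the Weil bound on the conic -/
def WeilS : Prop :=
  ∀ (K L : Type) [Field K] [Fintype K] [Field L] [Algebra K L] [IsAlgClosed L]
    [Algebra.IsAlgebraic K L] (r l M : ℕ) (ζ η c : L) (Z : Finset K), 2 ≤ r → l.Prime → l ≠ 2 →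
    Fintype.card K ^ r = l * M + 1 → IsPrimitiveRoot ζ r → ζ ^ Fintype.card K = ζ → η ≠ 0 →
    η ^ Fintype.card K * ζ = η →
    (∀ t ∈ Z, t ≠ 0 ∧ ((η - algebraMap K L t) ^ 2 * (-algebraMap K L t) ^ (l - 1)) ^ M = c) →
    (Z.card : ℝ) ≤ Fintype.card K / l + r * √(Fintype.card K)

/-- the parameters -/
def SieveS : Prop :=
  ∀ D0 : ℕ, ∃ k r : ℕ, D0 ≤ k * r ∧ 0 < k ∧ 3 ≤ r ∧ r ∣ 2 ^ k - 1 ∧ 4 ^ k + 1 ≤ (k * r) ^ 8 ∧
    ∑ l ∈ Nat.primeFactors (2 ^ (k * r) - 1), ((2 : ℝ) ^ k / ((l : ℕ) : ℝ) + r * √(2 ^ k))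
      < 2 ^ k - 1

end Pool.Agent.MP_dfda4f_nt.Wl

end MrgPart0

-- ======== part 1: formerly Pool.Agent.MP_dfda4f_nt.wl.Newton
section MrgPart1

open Polynomial Finset

namespace Pool.Agent.MP_dfda4f_nt.Wl

section
variable {K L : Type} [Field K] [Fintype K] [Field L] [Algebra K L] [Algebra.IsAlgebraic K L]

omit [Fintype K] in
theorem nw_int (t : L) : IsIntegral K t := (Algebra.IsAlgebraic.isAlgebraic t).isIntegral

theorem nw_fix_iff (t : L) (n : ℕ) :
    t ^ (Fintype.card K ^ n) = t ↔ (minpoly K t).natDegree ∣ n := by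
  rw [(minpoly.irreducible (nw_int (K := K) t)).natDegree_dvd_iff_dvd_X_pow_card_pow_sub_X,
    minpoly.dvd_iff, Nat.card_eq_fintype_card]
  simp [sub_eq_zero]

theorem nw_rm_minpoly (t : L) :
    rootMultiplicity t ((minpoly K t).map (algebraMap K L)) = 1 := by
  have hs : (minpoly K t).Separable :=
    PerfectField.separable_of_irreducible (minpoly.irreducible (nw_int (K := K) t))
  have h1 := rootMultiplicity_le_one_of_separable (hs.map (f := algebraMap K L)) t
  have h0 : 0 < rootMultiplicity t ((minpoly K t).map (algebraMap K L)) := by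
    rw [rootMultiplicity_pos ((minpoly.monic (nw_int (K := K) t)).map _).ne_zero]
    rw [IsRoot.def, eval_map_algebraMap]
    exact minpoly.aeval K t
  omega

theorem nw_pow_dvd_iff (t : L) (j : ℕ) : ∀ g : K[X], g ≠ 0 →
    (minpoly K t ^ j ∣ g ↔ j ≤ rootMultiplicity t (g.map (algebraMap K L))) := by
  have hμ := minpoly.monic (nw_int (K := K) t)
  induction j with
  | zero => intro g _; simp
  | succ j ih =>
    intro g hg
    by_cases hd : minpoly K t ∣ g
    · obtain ⟨h, rfl⟩ := hd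
      have hh : h ≠ 0 := right_ne_zero_of_mul hg
      have hne : (minpoly K t).map (algebraMap K L) * h.map (algebraMap K L) ≠ 0 :=
        mul_ne_zero (hμ.map _).ne_zero (map_ne_zero hh)
      rw [pow_succ', mul_dvd_mul_iff_left hμ.ne_zero, ih h hh, Polynomial.map_mul,
        rootMultiplicity_mul hne, nw_rm_minpoly]
      omega
    · constructor
      · intro h
        exact absurd ((dvd_pow_self _ (Nat.succ_ne_zero j)).trans h) hd
      · intro h
        have h0 : 0 < rootMultiplicity t (g.map (algebraMap K L)) := by omega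
        rw [rootMultiplicity_pos (map_ne_zero hg), IsRoot.def, eval_map_algebraMap] at h0
        exact absurd (minpoly.dvd K t h0) hd

omit [Fintype K] in
theorem nw_cp_monic (n : ℕ) (t : L) : (cp K n t).Monic :=
  (minpoly.monic (nw_int (K := K) t)).pow _

theorem nw_cp_deg {n : ℕ} {t : L} (h : t ^ (Fintype.card K ^ n) = t) :
    (cp K n t).natDegree = n := by
  unfold cp
  rw [natDegree_pow, Nat.div_mul_cancel ((nw_fix_iff t n).1 h)]

open Classical in
theorem nw_count_one (t : L) {g : K[X]} (hg : g ≠ 0) :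
    ((Icc 1 g.natDegree).filter
      (fun n => t ^ (Fintype.card K ^ n) = t ∧ cp K n t ∣ g)).card =
      rootMultiplicity t (g.map (algebraMap K L)) := by
  have hd : 0 < (minpoly K t).natDegree := minpoly.natDegree_pos (nw_int (K := K) t)
  have hle : rootMultiplicity t (g.map (algebraMap K L)) * (minpoly K t).natDegree
      ≤ g.natDegree := by
    rw [← natDegree_pow]
    exact natDegree_le_of_dvd ((nw_pow_dvd_iff t _ g hg).2 le_rfl) hg
  conv_rhs => rw [← Nat.add_sub_cancel (n := rootMultiplicity t (g.map (algebraMap K L))) (m := 1),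
    ← Nat.card_Icc]
  symm
  refine card_bij (fun j _ => j * (minpoly K t).natDegree) ?_ ?_ ?_
  · intro j hj
    rw [mem_Icc] at hj
    rw [mem_filter, mem_Icc, nw_fix_iff]
    refine ⟨⟨Nat.mul_pos hj.1 hd, (Nat.mul_le_mul_right _ hj.2).trans hle⟩, dvd_mul_left _ _, ?_⟩
    unfold cp
    rw [Nat.mul_div_cancel _ hd, nw_pow_dvd_iff t _ g hg]
    exact hj.2
  · intro i _ j _ h
    exact Nat.eq_of_mul_eq_mul_right hd h
  · intro n hn
    rw [mem_filter, mem_Icc, nw_fix_iff] at hn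
    obtain ⟨⟨h1, _⟩, hdv, h3⟩ := hn
    unfold cp at h3
    rw [nw_pow_dvd_iff t _ g hg] at h3
    refine ⟨n / (minpoly K t).natDegree, mem_Icc.2 ⟨?_, h3⟩, Nat.div_mul_cancel hdv⟩
    exact Nat.div_pos (Nat.le_of_dvd h1 hdv) hd

open Classical in
theorem nw_count [IsAlgClosed L] {g : K[X]} (hg : g ≠ 0) :
    ∑ n ∈ Icc 1 g.natDegree, ((Fx L (Fintype.card K ^ n)).filter (fun t => cp K n t ∣ g)).card
      = g.natDegree := by
  have hq : 1 < Fintype.card K := Fintype.one_lt_card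
  have hg' : g.map (algebraMap K L) ≠ 0 := map_ne_zero hg
  have h1 : ∀ n ∈ Icc 1 g.natDegree,
      ((Fx L (Fintype.card K ^ n)).filter (fun t => cp K n t ∣ g)).card =
      ∑ t ∈ (g.map (algebraMap K L)).roots.toFinset,
        if t ^ (Fintype.card K ^ n) = t ∧ cp K n t ∣ g then 1 else 0 := by
    intro n hn
    rw [mem_Icc] at hn
    rw [← card_filter]
    congr 1
    ext t
    rw [mem_filter, mem_filter, mem_Fx (Nat.one_lt_pow (by omega) hq)]
    refine ⟨fun h => ⟨?_, h⟩, fun h => h.2⟩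
    obtain ⟨h2, h3⟩ := h
    have hd : 0 < (minpoly K t).natDegree := minpoly.natDegree_pos (nw_int (K := K) t)
    unfold cp at h3
    rw [nw_pow_dvd_iff t _ g hg] at h3
    have h4 := Nat.div_pos (Nat.le_of_dvd hn.1 ((nw_fix_iff t n).1 h2)) hd
    rw [Multiset.mem_toFinset, mem_roots hg', ← rootMultiplicity_pos hg']
    omega
  rw [sum_congr rfl h1, sum_comm]
  have h2 : ∀ t ∈ (g.map (algebraMap K L)).roots.toFinset,
      (∑ n ∈ Icc 1 g.natDegree, if t ^ (Fintype.card K ^ n) = t ∧ cp K n t ∣ g then 1 else 0) =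
      (g.map (algebraMap K L)).roots.count t := by
    intro t _
    rw [← card_filter, nw_count_one t hg, count_roots]
  rw [sum_congr rfl h2, Multiset.toFinset_sum_count_eq, IsAlgClosed.card_roots_eq_natDegree,
    natDegree_map]

open Classical in
theorem nw_shift (Λ : K[X] →* ℂ) {c : K[X]} (hc : c.Monic) {m : ℕ} (hm : c.natDegree ≤ m) :
    ∑ g ∈ (Mon K m).filter (fun g => c ∣ g), Λ g =
      Λ c * ∑ h ∈ Mon K (m - c.natDegree), Λ h := by
  rw [mul_sum]
  symm
  refine sum_bij (fun h _ => c * h) ?_ ?_ ?_ ?_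
  · intro h hh
    rw [mem_Mon] at hh
    rw [mem_filter, mem_Mon]
    refine ⟨⟨hc.mul hh.1, ?_⟩, dvd_mul_right _ _⟩
    rw [hc.natDegree_mul hh.1, hh.2]
    omega
  · intro a _ b _ h
    exact mul_left_cancel₀ hc.ne_zero h
  · intro g hg
    rw [mem_filter, mem_Mon] at hg
    obtain ⟨⟨h1, h2⟩, h, rfl⟩ := hg
    have hh : h.Monic := hc.of_mul_monic_left h1
    refine ⟨h, mem_Mon.2 ⟨hh, ?_⟩, rfl⟩
    rw [hc.natDegree_mul hh] at h2
    omega
  · intro h _
    rw [map_mul]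

omit [Algebra.IsAlgebraic K L] in
theorem nw_frob (j : ℕ) (x : L) :
    ((FiniteField.frobeniusAlgHom K L) ^ j) x = x ^ (Fintype.card K ^ j) := by
  induction j generalizing x with
  | zero => simp
  | succ j ih =>
    rw [pow_succ, AlgHom.mul_apply, ih, FiniteField.coe_frobeniusAlgHom]
    simp only
    rw [← pow_mul, pow_succ']

theorem nw_minpoly_split (t : L) :
    (minpoly K t).map (algebraMap K L) =
      ∏ j ∈ range (minpoly K t).natDegree, (X - C (t ^ (Fintype.card K ^ j))) := by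
  have hμ := minpoly.monic (nw_int (K := K) t)
  have hlt : ∀ i j, i < j → j < (minpoly K t).natDegree →
      t ^ (Fintype.card K ^ i) ≠ t ^ (Fintype.card K ^ j) := by
    intro i j hij hj h
    obtain ⟨k, rfl⟩ := Nat.exists_eq_add_of_lt hij
    have h2 : t ^ (Fintype.card K ^ (k + 1)) = t := by
      apply ((FiniteField.frobeniusAlgHom K L) ^ i).toRingHom.injective
      change ((FiniteField.frobeniusAlgHom K L) ^ i) _ = ((FiniteField.frobeniusAlgHom K L) ^ i) _
      rw [nw_frob, nw_frob, h, ← pow_mul, ← pow_add]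
      congr 2
      omega
    have h3 := Nat.le_of_dvd (Nat.succ_pos k) ((nw_fix_iff t _).1 h2)
    omega
  have hmon : (∏ j ∈ range (minpoly K t).natDegree,
      (X - C (t ^ (Fintype.card K ^ j))) : L[X]).Monic :=
    monic_prod_of_monic _ _ (fun j _ => monic_X_sub_C _)
  refine eq_of_monic_of_dvd_of_natDegree_le hmon (hμ.map _) ?_ ?_
  · refine Finset.prod_dvd_of_coprime ?_ ?_
    · intro i hi j hj hij
      rw [mem_coe, mem_range] at hi hj
      refine isCoprime_X_sub_C_of_isUnit_sub (IsUnit.mk0 _ (sub_ne_zero.2 ?_))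
      rcases lt_or_gt_of_ne hij with h | h
      · exact hlt i j h hj
      · exact (hlt j i h hi).symm
    · intro j _
      rw [dvd_iff_isRoot, IsRoot.def, eval_map_algebraMap, ← nw_frob, aeval_algHom_apply,
        minpoly.aeval, map_zero]
  · rw [natDegree_map, natDegree_prod_of_monic _ _ (fun j _ => monic_X_sub_C _)]
    simp only [natDegree_X_sub_C, sum_const, card_range, smul_eq_mul, mul_one, le_refl]

end

theorem newtonS : NewtonS := by
  classical
  intro K L _ _ _ _ _ _ Λ m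
  have hq : 1 < Fintype.card K := Fintype.one_lt_card
  have h1 : ∀ g ∈ Mon K m, (m : ℂ) * Λ g = ∑ n ∈ Icc 1 m, ∑ t ∈ Fx L (Fintype.card K ^ n),
      if cp K n t ∣ g then Λ g else 0 := by
    intro g hg
    rw [mem_Mon] at hg
    have h2 := nw_count (L := L) hg.1.ne_zero
    rw [hg.2] at h2
    conv_lhs => rw [← h2]
    rw [Nat.cast_sum, sum_mul]
    refine sum_congr rfl fun n _ => ?_
    rw [← sum_filter, sum_const, nsmul_eq_mul]
  rw [mul_sum, sum_congr rfl h1, sum_comm]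
  refine sum_congr rfl fun n hn => ?_
  rw [mem_Icc] at hn
  rw [sum_comm, sum_mul]
  refine sum_congr rfl fun t ht => ?_
  rw [mem_Fx (Nat.one_lt_pow (by omega) hq)] at ht
  have h3 := nw_shift Λ (nw_cp_monic (K := K) n t) (m := m) (by rw [nw_cp_deg ht]; exact hn.2)
  rw [nw_cp_deg ht] at h3
  rw [← h3, sum_filter]

theorem conjS : ConjS := by
  intro K L _ _ _ _ _ n t hn ht
  have hd : 0 < (minpoly K t).natDegree := minpoly.natDegree_pos (nw_int (K := K) t)
  obtain ⟨k, rfl⟩ := (nw_fix_iff t n).1 ht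
  unfold cp
  rw [Nat.mul_div_cancel_left _ hd, Polynomial.map_pow, nw_minpoly_split]
  clear ht hn
  induction k with
  | zero => simp
  | succ k ih =>
    rw [Nat.mul_succ, prod_range_add, pow_succ, ih]
    congr 1
    refine prod_congr rfl fun j _ => ?_
    rw [pow_add, pow_mul, (nw_fix_iff t _).2 (dvd_mul_right _ _)]

end Pool.Agent.MP_dfda4f_nt.Wl

end MrgPart1

-- ======== part 2: formerly Pool.Agent.MP_dfda4f_nt.wl.Chr
section MrgPart2

open Polynomial Finset

namespace Pool.Agent.MP_dfda4f_nt.Wl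

theorem exists_idx {L : Type} [Field L] {l : ℕ} [NeZero l] {ω : L} (hω : IsPrimitiveRoot ω l) :
    ∃ idx : L → ZMod l, (∀ c, c ^ l = 1 → ω ^ (idx c).val = c) ∧
      (∀ c c', c ^ l = 1 → c' ^ l = 1 → idx (c * c') = idx c + idx c') ∧ idx 1 = 0 := by
  classical
  have h1 : ∀ c : L, ∃ i : ZMod l, c ^ l = 1 → ω ^ i.val = c := by
    intro c
    by_cases hc : c ^ l = 1
    · obtain ⟨i, hi, h⟩ := hω.eq_pow_of_pow_eq_one hc
      exact ⟨i, fun _ => by rw [ZMod.val_natCast, Nat.mod_eq_of_lt hi, h]⟩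
    · exact ⟨0, fun h => absurd h hc⟩
  choose idx hidx using h1
  have hinj : ∀ i j : ZMod l, ω ^ i.val = ω ^ j.val → i = j := fun i j h =>
    ZMod.val_injective l (hω.pow_inj (ZMod.val_lt i) (ZMod.val_lt j) h)
  refine ⟨idx, hidx, fun c c' hc hc' => hinj _ _ ?_, hinj _ _ ?_⟩
  · rw [hidx _ (by rw [mul_pow, hc, hc', mul_one]), ZMod.val_add,
      ← pow_eq_pow_mod _ hω.pow_eq_one, pow_add, hidx _ hc, hidx _ hc']
  · rw [hidx _ (one_pow _), ZMod.val_zero, pow_zero]

theorem sum_psi {l : ℕ} [NeZero l] (b : ZMod l) :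
    ∑ x : ZMod l, ZMod.stdAddChar (x * b) = if b = 0 then (l : ℂ) else 0 := by
  classical
  rw [AddChar.sum_mulShift b (ZMod.isPrimitive_stdAddChar l), ZMod.card]
  split_ifs <;> simp

open Classical in
theorem sum_le_of_fibres {α : Type} {l : ℕ} [NeZero l] (F : Finset α) (bad : α → Prop)
    (ι : α → ZMod l) (j : ZMod l) (hj : j ≠ 0) (X D : ℕ)
    (h1 : ∀ a, l * (F.filter fun t => ¬ bad t ∧ ι t = a).card ≤ F.card + X)
    (h2 : (F.filter bad).card ≤ D) :
    ‖∑ t ∈ F, (if bad t then 0 else ZMod.stdAddChar (j * ι t) : ℂ)‖ ≤ X + D := by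
  have hl : (0 : ℝ) < l := by exact_mod_cast Nat.pos_of_ne_zero (NeZero.ne l)
  set N : ZMod l → ℕ := fun a => (F.filter fun t => ¬ bad t ∧ ι t = a).card with hN
  set U : ℝ := (F.card + X) / l with hU
  have hNU : ∀ a, (N a : ℝ) ≤ U := fun a => by
    rw [hU, le_div_iff₀ hl, mul_comm]; exact_mod_cast h1 a
  have e1 : ∑ t ∈ F, (if bad t then 0 else ZMod.stdAddChar (j * ι t) : ℂ) =
      ∑ a : ZMod l, ZMod.stdAddChar (a * j) * (N a : ℂ) := by
    simp only [hN, card_filter, Nat.cast_sum, mul_sum]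
    rw [sum_comm]
    refine sum_congr rfl fun t _ => ?_
    by_cases hb : bad t
    · simp [hb]
    · simp [hb, mul_comm]
  have e2 : ∑ a : ZMod l, N a = (F.filter fun t => ¬ bad t).card := by
    rw [card_eq_sum_card_fiberwise (f := ι) (t := univ) (fun _ _ => mem_univ _)]
    refine sum_congr rfl fun a _ => ?_
    rw [filter_filter]
  have e3 : (F.filter bad).card + (F.filter fun t => ¬ bad t).card = F.card :=
    card_filter_add_card_filter_not _
  have e4 : ∑ a : ZMod l, ZMod.stdAddChar (a * j) * (N a : ℂ) =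
      ∑ a : ZMod l, ZMod.stdAddChar (a * j) * (((N a : ℝ) - U : ℝ) : ℂ) := by
    push_cast
    simp only [mul_sub, sum_sub_distrib]
    rw [← sum_mul, sum_psi, if_neg hj]; simp
  rw [e1, e4]
  refine (norm_sum_le _ _).trans ?_
  have e5 : ∀ a : ZMod l, ‖ZMod.stdAddChar (a * j) * (((N a : ℝ) - U : ℝ) : ℂ)‖ = U - N a := by
    intro a
    rw [norm_mul, AddChar.norm_apply, one_mul, Complex.norm_real, Real.norm_eq_abs, abs_sub_comm,
      abs_of_nonneg (sub_nonneg.2 (hNU a))]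
  simp only [e5, sum_sub_distrib, sum_const, card_univ, ZMod.card, nsmul_eq_mul]
  have e6 : (l : ℝ) * U = F.card + X := by rw [hU]; field_simp
  have e7 : (∑ a : ZMod l, (N a : ℝ)) + D ≥ F.card := by
    have : ∑ a : ZMod l, N a + D ≥ F.card := by omega
    exact_mod_cast this
  linarith

open Classical in
theorem card_le_of_sums {T : Type} [Fintype T] {l : ℕ} [NeZero l] (bad : T → Prop)
    (ι : T → ZMod l) (a : ZMod l) (Z : Finset T) (hZ : ∀ t ∈ Z, ¬ bad t ∧ ι t = a) (R : ℝ)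
    (hR : 0 ≤ R) (h : ∀ j : ZMod l, j ≠ 0 →
      ‖∑ t, (if bad t then 0 else ZMod.stdAddChar (j * ι t) : ℂ)‖ ≤ R) :
    (Z.card : ℝ) ≤ Fintype.card T / l + R := by
  have hl : (0 : ℝ) < l := by exact_mod_cast Nat.pos_of_ne_zero (NeZero.ne l)
  have e1 : ∑ j : ZMod l, ZMod.stdAddChar (j * -a) *
      ∑ t, (if bad t then 0 else ZMod.stdAddChar (j * ι t) : ℂ) =
      (l : ℂ) * (univ.filter fun t => ¬ bad t ∧ ι t = a).card := by
    simp only [card_filter, Nat.cast_sum, mul_sum]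
    rw [sum_comm]
    refine sum_congr rfl fun t _ => ?_
    by_cases hb : bad t
    · simp [hb]
    · simp only [hb, if_false, ← AddChar.map_add_eq_mul, ← mul_add, sum_psi, not_false_eq_true,
        true_and, neg_add_eq_zero]
      by_cases h2 : ι t = a
      · simp [h2]
      · simp [h2, Ne.symm h2]
  have e2 : ∀ j : ZMod l, ‖ZMod.stdAddChar (j * -a) *
      ∑ t, (if bad t then 0 else ZMod.stdAddChar (j * ι t) : ℂ)‖ ≤
      (if j = 0 then (Fintype.card T : ℝ) else 0) + R := by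
    intro j
    rw [norm_mul, AddChar.norm_apply, one_mul]
    by_cases hj : j = 0
    · rw [if_pos hj]
      refine (norm_sum_le _ _).trans (le_trans ?_ (le_add_of_nonneg_right hR))
      refine (sum_le_card_nsmul _ _ 1 fun t _ => ?_).trans (by simp)
      split_ifs <;> simp
    · rw [if_neg hj, zero_add]; exact h j hj
  have e3 := (norm_sum_le _ _).trans (sum_le_sum fun j (_ : j ∈ univ) => e2 j)
  rw [e1, norm_mul, Complex.norm_natCast, Complex.norm_natCast, sum_add_distrib] at e3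
  simp only [sum_ite_eq', mem_univ, if_true, sum_const, card_univ, ZMod.card, nsmul_eq_mul] at e3
  have e4 : (Z.card : ℝ) ≤ (univ.filter fun t => ¬ bad t ∧ ι t = a).card := by
    exact_mod_cast card_le_card fun t ht => mem_filter.2 ⟨mem_univ _, hZ t ht⟩
  have e5 : (Fintype.card T : ℝ) / l + R = (Fintype.card T + l * R) / l := by field_simp
  rw [e5, le_div_iff₀ hl]
  nlinarith

theorem prod_periodic {L : Type} [CommMonoid L] (b : ℕ → L) (q r : ℕ)
    (hb : ∀ j, b (j + r) = b j) (m : ℕ) :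
    ∏ j ∈ range (r * m), b j ^ q ^ j =
      (∏ i ∈ range r, b i ^ q ^ i) ^ ∑ s ∈ range m, (q ^ r) ^ s := by
  have hp : ∀ s i, b (r * s + i) = b i := by
    intro s i
    induction s with
    | zero => simp
    | succ s ih => rw [← ih, ← hb (r * s + i)]; congr 1; ring
  induction m with
  | zero => simp
  | succ m ih =>
    rw [mul_add, mul_one, prod_range_add, ih, sum_range_succ, pow_add, ← prod_pow]
    congr 1
    rw [← prod_pow]
    refine prod_congr rfl fun i _ => ?_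
    rw [hp, ← pow_mul, ← pow_mul, ← pow_add, add_comm]

theorem sum_Mon_one {K : Type} [Field K] [Fintype K] (F : K[X] → ℂ) :
    ∑ g ∈ Mon K 1, F g = ∑ t : K, F (X - C t) := by
  symm
  refine sum_bij (fun t _ => X - C t) (fun t _ => mem_Mon.2 ⟨monic_X_sub_C t, natDegree_X_sub_C t⟩)
    (fun a _ b _ h => by simpa using h) (fun g hg => ?_) (fun _ _ => rfl)
  obtain ⟨h1, h2⟩ := mem_Mon.1 hg
  refine ⟨-g.coeff 0, mem_univ _, ?_⟩
  rw [h1.eq_X_add_C h2]
  simp

theorem Mon_zero {K : Type} [Field K] [Fintype K] : Mon K 0 = {1} := by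
  ext g
  rw [mem_Mon, mem_singleton]
  exact ⟨fun h => h.1.natDegree_eq_zero.1 h.2, fun h => by simp [h]⟩

theorem sum_Mon_shift {K : Type} [Field K] [Fintype K] (F : K[X] → ℂ) {m : ℕ} {ρ : K[X]}
    (hρ : ρ.natDegree < m) : ∑ g ∈ Mon K m, F (g + ρ) = ∑ g ∈ Mon K m, F g := by
  have key : ∀ ρ : K[X], ρ.natDegree < m → ∀ g ∈ Mon K m, g + ρ ∈ Mon K m := by
    intro ρ hρ g hg
    obtain ⟨h1, h2⟩ := mem_Mon.1 hg
    have h3 : ρ.natDegree < g.natDegree := by omega
    exact mem_Mon.2 ⟨h1.add_of_left (degree_lt_degree h3),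
      by rw [natDegree_add_eq_left_of_natDegree_lt h3, h2]⟩
  refine sum_nbij' (fun g => g + ρ) (fun g => g + -ρ) (key ρ hρ)
    (key _ (by rwa [natDegree_neg])) (fun _ _ => by ring) (fun _ _ => by ring) (fun _ _ => rfl)

end Pool.Agent.MP_dfda4f_nt.Wl

end MrgPart2

-- ======== part 3: formerly Pool.Agent.MP_dfda4f_nt.wl.Vanish
section MrgPart3

open Polynomial Finset

namespace Pool.Agent.MP_dfda4f_nt.Wl

variable {K L : Type} [Field K] [Fintype K] [Field L] [Algebra K L]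

theorem frob_sub (K : Type) [Field K] [Fintype K] [Algebra K L] (j : ℕ) (x y : L) :
    (x - y) ^ (Fintype.card K ^ j) = x ^ (Fintype.card K ^ j) - y ^ (Fintype.card K ^ j) := by
  rw [← nw_frob (K := K), map_sub, nw_frob, nw_frob]

theorem frob_add (K : Type) [Field K] [Fintype K] [Algebra K L] (j : ℕ) (x y : L) :
    (x + y) ^ (Fintype.card K ^ j) = x ^ (Fintype.card K ^ j) + y ^ (Fintype.card K ^ j) := by
  rw [← nw_frob (K := K), map_add, nw_frob, nw_frob]

theorem frob_neg (K : Type) [Field K] [Fintype K] [Algebra K L] (j : ℕ) (x : L) :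
    (-x) ^ (Fintype.card K ^ j) = -x ^ (Fintype.card K ^ j) := by
  rw [← nw_frob (K := K), map_neg, nw_frob]

theorem frob_aeval (j : ℕ) (x : L) (g : K[X]) :
    aeval x g ^ (Fintype.card K ^ j) = aeval (x ^ (Fintype.card K ^ j)) g := by
  rw [← nw_frob (K := K), ← nw_frob (K := K), aeval_algHom_apply]

theorem pow_pow_fix {M : Type} [Monoid M] {ζ : M} {q : ℕ} (h : ζ ^ q = ζ) (j : ℕ) :
    ζ ^ q ^ j = ζ := by
  induction j with
  | zero => simp
  | succ j ih => rw [pow_succ, pow_mul, ih, h]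

theorem eta_pow {M : Type} [CommMonoid M] {ζ η : M} {q : ℕ} (h : ζ ^ q = ζ) (hη : η ^ q * ζ = η)
    (j : ℕ) : η ^ q ^ j * ζ ^ j = η := by
  induction j with
  | zero => simp
  | succ j ih =>
    have h1 : (η ^ q * ζ) ^ q ^ j * ζ ^ j = η := by rw [hη, ih]
    rw [mul_pow, pow_pow_fix h, ← pow_mul, ← pow_succ', mul_assoc, ← pow_succ'] at h1
    exact h1

theorem eta_deg [Algebra.IsAlgebraic K L] {ζ η : L} {r : ℕ} (hζ : IsPrimitiveRoot ζ r)
    (h : ζ ^ Fintype.card K = ζ) (h0 : η ≠ 0) (hη : η ^ Fintype.card K * ζ = η) :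
    (minpoly K η).natDegree = r := by
  have key : ∀ n, (minpoly K η).natDegree ∣ n ↔ r ∣ n := by
    intro n
    rw [← nw_fix_iff, ← hζ.pow_eq_one_iff_dvd]
    have h1 := eta_pow h hη n
    constructor
    · intro h2
      rw [h2] at h1
      exact mul_left_cancel₀ h0 (by rw [h1, mul_one])
    · intro h2
      rwa [h2, mul_one] at h1
  exact Nat.dvd_antisymm ((key _).2 dvd_rfl) ((key _).1 dvd_rfl)

theorem card_Fx' [IsAlgClosed L] (K : Type) [Field K] [Fintype K] [Algebra K L] {n : ℕ}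
    (hn : n ≠ 0) : (Fx L (Fintype.card K ^ n)).card = Fintype.card K ^ n := by
  obtain ⟨p, hp, k, hp', hk⟩ := FiniteField.card' K
  have := Fact.mk hp'
  have : CharP L p := charP_of_injective_algebraMap (algebraMap K L).injective p
  rw [hk, ← pow_mul]
  exact card_Fx p (Nat.mul_ne_zero k.ne_zero hn)

theorem sum_param [IsAlgClosed L] {η : L} {r : ℕ} (hr : r ≠ 0) (h0 : η ≠ 0)
    (hd : (minpoly K η).natDegree = r) (hη : η ^ (Fintype.card K ^ r) = η) (F : L → ℂ) :
    ∑ c : Fin r → K, F (aeval η (X * ∑ i : Fin r, C (c i) * X ^ (i : ℕ) : K[X])) =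
      ∑ z ∈ Fx L (Fintype.card K ^ r), F z := by
  classical
  have hQ : 1 < Fintype.card K ^ r := Nat.one_lt_pow hr Fintype.one_lt_card
  set φ : (Fin r → K) → L := fun c => aeval η (X * ∑ i : Fin r, C (c i) * X ^ (i : ℕ) : K[X])
    with hφ
  have hinj : Function.Injective φ := by
    intro c c' h
    subst hd
    have h1 := Fintype.linearIndependent_iff.1 (linearIndependent_pow (K := K) η) (c - c') (by
      simp only [hφ, map_mul, aeval_X, map_sum, aeval_C, map_pow] at h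
      have h2 := mul_left_cancel₀ h0 h
      simp only [Pi.sub_apply, Algebra.smul_def, map_sub, sub_mul, sum_sub_distrib, h2, sub_self])
    funext i
    exact sub_eq_zero.1 (h1 i)
  have himg : univ.image φ = Fx L (Fintype.card K ^ r) := by
    refine eq_of_subset_of_card_le (fun z hz => ?_) ?_
    · obtain ⟨c, _, rfl⟩ := mem_image.1 hz
      rw [mem_Fx hQ, hφ]
      simp only
      rw [frob_aeval, hη]
    · rw [card_image_of_injective _ hinj, card_Fx' K hr]
      simp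
  rw [← himg, sum_image (fun a _ b _ h => hinj h)]

theorem sum_sq_zero (K : Type) [Field K] [Fintype K] [Algebra K L] {r : ℕ} (hr : r ≠ 0)
    (χ : L → ℂ)
    (hmul : ∀ z z' : L, z ^ (Fintype.card K ^ r) = z → z' ^ (Fintype.card K ^ r) = z' →
      χ (z * z') = χ z * χ z')
    {γ u v : L} (hγ : γ ^ (Fintype.card K ^ r) = γ) (hγ0 : γ ≠ 0) (hγ1 : χ (γ ^ 2) ≠ 1)
    (hu : u ^ (Fintype.card K ^ r) = u) (hv : v ^ (Fintype.card K ^ r) = v) :
    ∑ z ∈ Fx L (Fintype.card K ^ r), χ ((u + z) ^ 2 * v) = 0 := by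
  have hQ : 1 < Fintype.card K ^ r := Nat.one_lt_pow hr Fintype.one_lt_card
  set Q := Fintype.card K ^ r with hQd
  have hsq : ∀ z : L, z ^ Q = z → (z ^ 2) ^ Q = z ^ 2 := fun z hz => by
    rw [← pow_mul, mul_comm, pow_mul, hz]
  have h1 : ∑ z ∈ Fx L Q, χ ((u + z) ^ 2 * v) = ∑ z ∈ Fx L Q, χ (z ^ 2 * v) := by
    refine sum_nbij' (fun z => u + z) (fun z => z - u) (fun z hz => ?_) (fun z hz => ?_)
      (fun _ _ => by ring) (fun _ _ => by ring) (fun _ _ => rfl)
    · rw [mem_Fx hQ] at hz ⊢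
      rw [hQd, frob_add K, ← hQd, hu, hz]
    · rw [mem_Fx hQ] at hz ⊢
      rw [hQd, frob_sub K, ← hQd, hu, hz]
  have h2 : ∑ z ∈ Fx L Q, χ ((γ * z) ^ 2 * v) = ∑ z ∈ Fx L Q, χ (z ^ 2 * v) := by
    refine sum_nbij' (fun z => γ * z) (fun z => γ⁻¹ * z) (fun z hz => ?_) (fun z hz => ?_)
      (fun _ _ => by field_simp) (fun _ _ => by field_simp) (fun _ _ => rfl)
    · rw [mem_Fx hQ] at hz ⊢
      rw [mul_pow, hγ, hz]
    · rw [mem_Fx hQ] at hz ⊢
      rw [mul_pow, inv_pow, hγ, hz]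
  have h3 : ∑ z ∈ Fx L Q, χ ((γ * z) ^ 2 * v) = χ (γ ^ 2) * ∑ z ∈ Fx L Q, χ (z ^ 2 * v) := by
    rw [mul_sum]
    refine sum_congr rfl fun z hz => ?_
    rw [mem_Fx hQ] at hz
    rw [mul_pow, mul_assoc, hmul _ _ (hsq _ hγ) (by rw [mul_pow, hsq _ hz, hv])]
  rw [h1]
  rw [h2] at h3
  by_contra hne
  exact hγ1 (mul_right_cancel₀ hne (by rw [← h3, one_mul]))

theorem sum_Mon_vanish [IsAlgClosed L] {η : L} {r : ℕ} (hr : r ≠ 0) (h0 : η ≠ 0)
    (hd : (minpoly K η).natDegree = r) (hη : η ^ (Fintype.card K ^ r) = η) (χ : L → ℂ)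
    (hmul : ∀ z z' : L, z ^ (Fintype.card K ^ r) = z → z' ^ (Fintype.card K ^ r) = z' →
      χ (z * z') = χ z * χ z')
    {γ : L} (hγ : γ ^ (Fintype.card K ^ r) = γ) (hγ0 : γ ≠ 0) (hγ1 : χ (γ ^ 2) ≠ 1)
    (s m : ℕ) (hm : r < m) :
    ∑ g ∈ Mon K m, χ (aeval η g ^ 2 * aeval (0 : L) g ^ s) = 0 := by
  have hQ : 0 < Fintype.card K ^ r := pow_pos Fintype.card_pos r
  have h1 : ∀ c : Fin r → K, ∑ g ∈ Mon K m, χ (aeval η g ^ 2 * aeval (0 : L) g ^ s) =
      ∑ g ∈ Mon K m, χ ((aeval η g +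
        aeval η (X * ∑ i : Fin r, C (c i) * X ^ (i : ℕ) : K[X])) ^ 2 * aeval (0 : L) g ^ s) := by
    intro c
    have h2 : (X * ∑ i : Fin r, C (c i) * X ^ (i : ℕ) : K[X]).natDegree < m := by
      refine lt_of_le_of_lt natDegree_mul_le ?_
      have h3 : (∑ i : Fin r, C (c i) * X ^ (i : ℕ) : K[X]).natDegree ≤ r - 1 :=
        natDegree_sum_le_of_forall_le _ _ fun i _ =>
          (natDegree_C_mul_X_pow_le _ _).trans (by have := i.2; omega)
      rw [natDegree_X]; omega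
    rw [← sum_Mon_shift (fun g => χ (aeval η g ^ 2 * aeval (0 : L) g ^ s)) h2]
    refine sum_congr rfl fun g _ => ?_
    simp
  have h4 := sum_congr rfl fun c (_ : c ∈ (univ : Finset (Fin r → K))) => h1 c
  rw [sum_const, sum_comm (s := univ)] at h4
  rw [sum_eq_zero (s := Mon K m) (f := fun g => ∑ c : Fin r → K, χ ((aeval η g +
        aeval η (X * ∑ i : Fin r, C (c i) * X ^ (i : ℕ) : K[X])) ^ 2 * aeval (0 : L) g ^ s))] at h4
  · rw [nsmul_eq_mul] at h4
    exact (mul_eq_zero.1 h4).resolve_left (Nat.cast_ne_zero.2 (card_pos.2 univ_nonempty).ne')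
  · intro g _
    rw [sum_param hr h0 hd hη (fun z => χ ((aeval η g + z) ^ 2 * aeval (0 : L) g ^ s))]
    refine sum_sq_zero K hr χ hmul hγ hγ0 hγ1 (by rw [frob_aeval, hη]) ?_
    rw [← pow_mul, mul_comm, pow_mul, frob_aeval, zero_pow hQ.ne']

end Pool.Agent.MP_dfda4f_nt.Wl

end MrgPart3

-- ======== part 4: formerly Pool.Agent.MP_dfda4f_nt.wl.Step
section MrgPart4

open Polynomial Finset

namespace Pool.Agent.MP_dfda4f_nt.Wl

theorem exists_dep {L ι : Type} [Field L] [Fintype ι] (v : ι → L[X]) (N : ℕ)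
    (h : ∀ i, (v i).natDegree < N) (hc : N < Fintype.card ι) :
    ∃ d : ι → L, (∃ i, d i ≠ 0) ∧ ∑ i, C (d i) * v i = 0 := by
  let v' : ι → degreeLT L N := fun i =>
    ⟨v i, mem_degreeLT.2 (lt_of_le_of_lt degree_le_natDegree (by exact_mod_cast h i))⟩
  have : Module.Finite L (degreeLT L N) := Module.Finite.equiv (degreeLTEquiv L N).symm
  have hr : Module.finrank L (degreeLT L N) = N := by
    rw [(degreeLTEquiv L N).finrank_eq, Module.finrank_fin_fun]
  have hn : ¬ LinearIndependent L v' := fun hl => by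
    have := hl.fintype_card_le_finrank
    omega
  obtain ⟨d, hd, hi⟩ := Fintype.not_linearIndependent_iff.1 hn
  refine ⟨d, hi, ?_⟩
  have := congrArg Subtype.val hd
  simpa [v', smul_eq_C_mul] using this

theorem ne_zero_of_inj {L ι : Type} [Field L] [Fintype ι] (η : L) (E : ι → ℕ)
    (hE : Function.Injective E) (u : ι → L[X]) (hu : ∀ i, (u i).eval η ≠ 0) (d : ι → L)
    (hd : ∃ i, d i ≠ 0) : ∑ i, C (d i) * ((X - C η) ^ E i * u i) ≠ 0 := by
  classical
  obtain ⟨i1, hi1⟩ := hd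
  obtain ⟨i0, h0, hmin⟩ := Finset.exists_min_image (univ.filter fun i => d i ≠ 0) E
    ⟨i1, by simpa using hi1⟩
  have h0' : d i0 ≠ 0 := by simpa using h0
  intro hz
  have hf : ∑ i, C (d i) * ((X - C η) ^ E i * u i) =
      (X - C η) ^ E i0 * ∑ i, C (d i) * ((X - C η) ^ (E i - E i0) * u i) := by
    rw [mul_sum]
    refine sum_congr rfl fun i _ => ?_
    by_cases hi : d i = 0
    · simp [hi]
    · have := hmin i (by simpa using hi)
      obtain ⟨k, hk⟩ := Nat.exists_eq_add_of_le this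
      rw [hk, Nat.add_sub_cancel_left, pow_add]; ring
  rw [hf] at hz
  have h2 := (mul_eq_zero.1 hz).resolve_left (pow_ne_zero _ (X_sub_C_ne_zero η))
  have h3 := congrArg (eval η) h2
  rw [eval_finsetSum, sum_eq_single i0] at h3
  · simp [h0', hu i0] at h3
  · intro i _ hne
    by_cases hi : d i = 0
    · simp [hi]
    · have h4 := hmin i (by simpa using hi)
      have h5 : E i ≠ E i0 := fun h => hne (hE h)
      have h6 : E i - E i0 ≠ 0 := by omega
      simp [h6]
  · simp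

theorem exp_inj {l ν w A q0 j a b j' a' b' : ℕ} (hc : Nat.Coprime ν l) (hq : q0 = l * w + 1)
    (hA : A + ν ≤ w) (hj : j < l) (hj' : j' < l) (ha : a < A) (ha' : a' < A)
    (h : a + q0 * b + ν * w * j = a' + q0 * b' + ν * w * j') : j = j' ∧ a = a' ∧ b = b' := by
  have key : ∀ j a b : ℕ, j < l → a < A → l * a + (l - j) * ν < q0 ∧
      l * (a + q0 * b + ν * w * j) + l * ν = (l * a + (l - j) * ν) + q0 * (l * b + j * ν) := by
    intro j a b hj ha
    obtain ⟨i, rfl⟩ := Nat.exists_eq_add_of_lt hj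
    have e1 : j + i + 1 - j = i + 1 := by omega
    rw [e1]
    constructor
    · have : (j + i + 1) * (a + ν) ≤ (j + i + 1) * w := Nat.mul_le_mul_left _ (by omega)
      nlinarith [Nat.zero_le (j * ν)]
    · rw [hq]; ring
  obtain ⟨h1, h2⟩ := key j a b hj ha
  obtain ⟨h1', h2'⟩ := key j' a' b' hj' ha'
  have hq0 : 0 < q0 := by omega
  have h3 : (l * a + (l - j) * ν) + q0 * (l * b + j * ν) =
      (l * a' + (l - j') * ν) + q0 * (l * b' + j' * ν) := by rw [← h2, ← h2', h]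
  have h4 : l * b + j * ν = l * b' + j' * ν := by
    have := congrArg (· / q0) h3
    simpa [Nat.add_mul_div_left _ _ hq0, Nat.div_eq_of_lt h1, Nat.div_eq_of_lt h1'] using this
  have h5 : j * ν ≡ j' * ν [MOD l] := by
    have := congrArg (· % l) h4
    simpa [Nat.ModEq, Nat.mul_add_mod] using this
  have h6 : j = j' :=
    Nat.ModEq.eq_of_lt_of_lt (Nat.ModEq.cancel_right_of_coprime hc.symm h5) hj hj'
  subst h6
  have h7 : b = b' := Nat.eq_of_mul_eq_mul_left (by omega : 0 < l) (by omega)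
  subst h7
  exact ⟨rfl, by omega, rfl⟩

theorem stepS : StepS := by
  intro L _ _ p _ _ l ν η f1 hl hc hf1
  set D := ν + f1.natDegree with hD
  refine ⟨l * (3 * D + 5) + 1, fun e w c hC hq hη Z hZ => ?_⟩
  set q0 := p ^ e with hq0
  have hw : 3 * D + 5 ≤ w := Nat.le_of_mul_le_mul_left (by omega) hl
  obtain ⟨A, hA⟩ : ∃ A, w = D + A := ⟨w - D, by omega⟩
  set B := A + 3 * D + 3 with hB
  set y : L[X] := X - C η with hy
  set h : L[X] := (y ^ ν * f1) ^ w with hh
  have hyd : y.natDegree = 1 := natDegree_X_sub_C η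
  have hhd : h.natDegree ≤ w * D := by
    refine natDegree_pow_le.trans (Nat.mul_le_mul_left _ (natDegree_mul_le.trans ?_))
    have : (y ^ ν).natDegree ≤ ν := natDegree_pow_le.trans (by rw [hyd]; omega)
    omega
  have hmon : ∀ (z : L) (n j : ℕ), j < l → (C z * (y ^ n * h ^ j)).natDegree ≤ n + q0 * D := by
    intro z n j hj
    refine (natDegree_C_mul_le _ _).trans (natDegree_mul_le.trans (add_le_add ?_ ?_))
    · exact natDegree_pow_le.trans (by rw [hyd]; omega)
    · refine natDegree_pow_le.trans ((Nat.mul_le_mul hj.le hhd).trans ?_)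
      rw [hq, ← mul_assoc]; exact Nat.mul_le_mul_right _ (by omega)
  obtain ⟨d, hd, hT⟩ := exists_dep (ι := Fin l × Fin A × Fin B)
    (fun i => C (c ^ (i.1 : ℕ)) * (y ^ (q0 * i.2.1 + i.2.2) * h ^ (l - 1 - i.1))) (q0 * w + B)
    (fun i => by
      refine lt_of_le_of_lt (hmon _ _ _ (by omega)) ?_
      have h1 : q0 * (i.2.1 : ℕ) ≤ q0 * A := Nat.mul_le_mul_left _ i.2.1.2.le
      have h2 := i.2.2.2
      have h3 : q0 * w = q0 * D + q0 * A := by rw [hA, mul_add]
      omega)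
    (by
      simp only [Fintype.card_prod, Fintype.card_fin]
      obtain ⟨k, hk⟩ : ∃ k, A = D + 4 + k := ⟨A - (D + 4), by omega⟩
      obtain ⟨l', rfl⟩ : ∃ l', l = l' + 1 := ⟨l - 1, by omega⟩
      rw [hq, hB, hA, hk]
      nlinarith [Nat.zero_le (l' * D * k), Nat.zero_le (l' * D), Nat.zero_le (l' * k),
        Nat.zero_le (D * k), Nat.zero_le l', Nat.zero_le k])
  have hq0pos : 0 < q0 := by omega
  choose d' hd' using fun i => IsAlgClosed.exists_pow_nat_eq (d i) hq0pos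
  set S : L[X] := ∑ i : Fin l × Fin A × Fin B,
    C (d' i) * (y ^ ((i.2.1 : ℕ) + q0 * i.2.2) * h ^ (i.1 : ℕ)) with hS
  have hS0 : S ≠ 0 := by
    have := ne_zero_of_inj (ι := Fin l × Fin A × Fin B) η
      (fun i => (i.2.1 : ℕ) + q0 * i.2.2 + ν * w * i.1)
      (fun i i' hii => by
        obtain ⟨h1, h2, h3⟩ := exp_inj hc hq (A := A) (by omega) i.1.2 i'.1.2 i.2.1.2 i'.2.1.2 hii
        exact Prod.ext (Fin.ext h1) (Prod.ext (Fin.ext h2) (Fin.ext h3)))
      (fun i => f1 ^ (w * i.1)) (fun i => by simp [hf1]) d'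
      (by
        obtain ⟨i, hi⟩ := hd
        exact ⟨i, fun h0 => hi (by rw [← hd' i, h0, zero_pow hq0pos.ne'])⟩)
    convert this using 2 with i
    rw [hh, ← hy]; ring
  have hSd : S.natDegree ≤ q0 * (B + D) := by
    refine natDegree_sum_le_of_forall_le _ _ fun i _ => (hmon _ _ _ i.1.2).trans ?_
    have h1 : q0 * ((i.2.2 : ℕ) + 1) ≤ q0 * B := Nat.mul_le_mul_left _ i.2.2.2
    have h2 := i.2.1.2
    have h3 : w ≤ l * w := Nat.le_mul_of_pos_left _ hl
    have h4 : q0 * (B + D) = q0 * B + q0 * D := mul_add _ _ _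
    rw [mul_add] at h1; omega
  have hroot : ∀ x ∈ Z, S.eval x = 0 := by
    intro x hx
    obtain ⟨h1, h2, h3⟩ := hZ x hx
    have hyx : y.eval x = x - η := by simp [hy]
    have hhx : h.eval x = ((x - η) ^ ν * f1.eval x) ^ w := by simp [hh, hyx]
    have hh0 : h.eval x ≠ 0 := by rw [hhx]; exact pow_ne_zero _ h2
    have hhc : h.eval x ^ (q0 + 1) = c := by rw [hhx, ← pow_mul, h3]
    have hyQ : (x - η) ^ (q0 * q0) = x - η := by
      rw [hq0, ← pow_add, sub_pow_char_pow, pow_add, h1, hη]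
    have h4 : S.eval x ^ q0 * h.eval x ^ (l - 1) = 0 := by
      have h5 := congrArg (eval x) hT
      rw [eval_zero] at h5
      rw [← h5, hS, eval_finsetSum, eval_finsetSum, hq0, sum_pow_char_pow, sum_mul]
      refine sum_congr rfl fun i _ => ?_
      simp only [eval_mul, eval_C, eval_pow, hyx, ← hq0]
      obtain ⟨k, hk⟩ : ∃ k, l - 1 = i.1 + k := ⟨l - 1 - i.1, by have := i.1.2; omega⟩
      have h6 : ((x - η) ^ ((i.2.1 : ℕ) + q0 * i.2.2)) ^ q0 = (x - η) ^ (q0 * i.2.1 + i.2.2) := by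
        rw [pow_add, pow_add, mul_pow, ← pow_mul, ← pow_mul, mul_comm _ q0,
          mul_right_comm, pow_mul _ (q0 * q0), hyQ]
      rw [mul_pow, mul_pow, hd', h6, ← hhc, hk, Nat.add_sub_cancel_left]
      ring
    exact pow_eq_zero_iff hq0pos.ne' |>.1 ((mul_eq_zero.1 h4).resolve_right (pow_ne_zero _ hh0))
  have hcard : Z.card ≤ S.natDegree :=
    card_le_degree_of_subset_roots fun x hx => (mem_roots hS0).2 (hroot x hx)
  have h7 : l * Z.card ≤ l * (q0 * (B + D)) := Nat.mul_le_mul_left _ (hcard.trans hSd)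
  have h8 : l * (q0 * (B + D)) = l * w * q0 + l * (3 * D + 3) * q0 := by rw [hB, hA]; ring
  have h9 : l * w * q0 ≤ q0 * q0 := Nat.mul_le_mul_right _ (by omega)
  have h10 : l * (3 * D + 3) * q0 ≤ (l * (3 * D + 5) + 1) * q0 :=
    Nat.mul_le_mul_right _ (by nlinarith)
  omega

end Pool.Agent.MP_dfda4f_nt.Wl

end MrgPart4

-- ======== part 5: formerly Pool.Agent.MP_dfda4f_nt.wl.Pow
section MrgPart5

open Polynomial Finset

namespace Pool.Agent.MP_dfda4f_nt.Wl

theorem weighted_bound (t : Multiset ℂ) (m0 : ℕ) (B C0 : ℝ)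
    (h : ∀ m, m0 ≤ m → ‖(t.map (· ^ m)).sum‖ ≤ C0 * B ^ m) (Q : ℂ[X]) :
    ∃ C1 : ℝ, ∀ m, m0 ≤ m → ‖(t.map fun γ => γ ^ m * Q.eval γ).sum‖ ≤ C1 * B ^ m := by
  induction Q using Polynomial.induction_on' with
  | add p q hp hq =>
    obtain ⟨c1, h1⟩ := hp
    obtain ⟨c2, h2⟩ := hq
    refine ⟨c1 + c2, fun m hm => ?_⟩
    simp only [eval_add, mul_add, Multiset.sum_map_add, add_mul]
    exact (norm_add_le _ _).trans (add_le_add (h1 m hm) (h2 m hm))
  | monomial k a =>
    refine ⟨‖a‖ * C0 * B ^ k, fun m hm => ?_⟩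
    have e : (t.map fun γ => γ ^ m * (monomial k a).eval γ).sum =
        a * (t.map (· ^ (m + k))).sum := by
      rw [← Multiset.sum_map_mul_left]
      congr 1
      refine Multiset.map_congr rfl fun γ _ => ?_
      rw [eval_monomial]; ring
    rw [e, norm_mul]
    calc ‖a‖ * ‖(t.map (· ^ (m + k))).sum‖ ≤ ‖a‖ * (C0 * B ^ (m + k)) :=
          mul_le_mul_of_nonneg_left (h _ (by omega)) (norm_nonneg _)
      _ = _ := by ring

theorem norm_le_of_pow_sum (t : Multiset ℂ) (m0 : ℕ) (B C0 : ℝ) (hB : 0 ≤ B)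
    (h : ∀ m, m0 ≤ m → ‖(t.map (· ^ m)).sum‖ ≤ C0 * B ^ m) {β : ℂ} (hβ : β ∈ t) : ‖β‖ ≤ B := by
  classical
  by_contra hlt
  push Not at hlt
  have hβ0 : 0 < ‖β‖ := lt_of_le_of_lt hB hlt
  set Q : ℂ[X] := ∏ γ ∈ t.toFinset.erase β, (X - C γ) with hQ
  obtain ⟨C1, h1⟩ := weighted_bound t m0 B C0 h Q
  have hQβ : Q.eval β ≠ 0 := by
    rw [hQ, eval_prod]
    refine prod_ne_zero_iff.2 fun γ hγ => ?_
    simpa [sub_eq_zero] using (mem_erase.1 hγ).1.symm
  have hs : ∀ m, (t.map fun γ => γ ^ m * Q.eval γ).sum = t.count β * (β ^ m * Q.eval β) := by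
    intro m
    rw [Finset.sum_multiset_map_count, sum_eq_single β]
    · simp
    · intro γ hγ hne
      have : Q.eval γ = 0 := by
        rw [hQ, eval_prod]
        exact prod_eq_zero (mem_erase.2 ⟨hne, hγ⟩) (by simp)
      simp [this]
    · intro hn; exact absurd (Multiset.mem_toFinset.2 hβ) hn
  have hc : (0 : ℝ) < t.count β := by exact_mod_cast Multiset.count_pos.2 hβ
  have hκ : 0 < (t.count β : ℝ) * ‖Q.eval β‖ := mul_pos hc (norm_pos_iff.2 hQβ)
  have hlim : Filter.Tendsto (fun m : ℕ => C1 * (B / ‖β‖) ^ m) Filter.atTop (nhds (C1 * 0)) :=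
    (tendsto_pow_atTop_nhds_zero_of_lt_one (div_nonneg hB hβ0.le)
      ((div_lt_one hβ0).2 hlt)).const_mul C1
  rw [mul_zero] at hlim
  obtain ⟨m, hm1, hm2⟩ := ((hlim.eventually (gt_mem_nhds hκ)).and
    (Filter.eventually_ge_atTop m0)).exists
  have h2 := h1 m hm2
  rw [hs, norm_mul, norm_mul, norm_pow, Complex.norm_natCast] at h2
  rw [div_pow, ← mul_div_assoc, div_lt_iff₀ (pow_pos hβ0 m)] at hm1
  nlinarith

theorem log_deriv (s : Multiset ℂ) :
    PowerSeries.X * PowerSeries.derivative ℂ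
        (s.map fun α => (1 - PowerSeries.C α * PowerSeries.X : PowerSeries ℂ)).prod =
      -(PowerSeries.mk fun n => if n = 0 then 0 else (s.map (· ^ n)).sum) *
        (s.map fun α => (1 - PowerSeries.C α * PowerSeries.X : PowerSeries ℂ)).prod := by
  induction s using Multiset.induction_on with
  | empty =>
    have : (PowerSeries.mk fun n : ℕ =>
        if n = 0 then (0 : ℂ) else ((0 : Multiset ℂ).map (· ^ n)).sum) = 0 := by
      ext n; simp
    rw [this]; simp
  | cons α s ih =>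
    have h1 : (PowerSeries.mk fun n : ℕ => if n = 0 then (0 : ℂ) else ((α ::ₘ s).map (· ^ n)).sum) =
        (PowerSeries.mk fun n : ℕ => if n = 0 then (0 : ℂ) else α ^ n) +
        (PowerSeries.mk fun n : ℕ => if n = 0 then (0 : ℂ) else (s.map (· ^ n)).sum) := by
      ext n; by_cases hn : n = 0 <;> simp [hn]
    have h2 : (PowerSeries.mk fun n : ℕ => if n = 0 then (0 : ℂ) else α ^ n) *
        (1 - PowerSeries.C α * PowerSeries.X) = PowerSeries.C α * PowerSeries.X := by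
      rw [mul_sub, mul_one, ← mul_assoc]
      ext n
      rcases n with _ | _ | n <;>
        simp [PowerSeries.coeff_succ_mul_X, PowerSeries.coeff_X, pow_succ]
    have h3 : PowerSeries.derivative ℂ (1 - PowerSeries.C α * PowerSeries.X : PowerSeries ℂ) =
        -PowerSeries.C α := by
      simp [Derivation.leibniz]
    rw [Multiset.map_cons, Multiset.prod_cons, Derivation.leibniz, h1, h3]
    simp only [smul_eq_mul]
    linear_combination (1 - PowerSeries.C α * PowerSeries.X) * ih +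
      (s.map fun α => (1 - PowerSeries.C α * PowerSeries.X : PowerSeries ℂ)).prod * h2

theorem exists_factor (A : ℕ → ℂ) (r : ℕ) (h0 : A 0 = 1) (hr : ∀ m, r < m → A m = 0) :
    ∃ s : Multiset ℂ, s.card ≤ r ∧ PowerSeries.mk A =
      (s.map fun α => (1 - PowerSeries.C α * PowerSeries.X : PowerSeries ℂ)).prod := by
  set P : ℂ[X] := ∑ m ∈ range (r + 1), monomial m (A m) with hP
  have hc : ∀ m, P.coeff m = A m := by
    intro m
    rw [hP, finsetSum_coeff]
    simp only [coeff_monomial, sum_ite_eq', mem_range]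
    split_ifs with h
    · rfl
    · exact (hr m (by omega)).symm
  have hd : P.natDegree ≤ r := natDegree_le_iff_coeff_eq_zero.2 fun m hm => by rw [hc, hr m hm]
  have hP0 : P.eval 0 = 1 := by rw [← coeff_zero_eq_eval_zero, hc, h0]
  have hne : P ≠ 0 := fun h => by simp [h] at hP0
  have hf := C_leadingCoeff_mul_prod_multiset_X_sub_C
    (IsAlgClosed.card_roots_eq_natDegree (p := P))
  have h1 : (P.roots.map fun β => X - C β) =
      P.roots.map fun β => C (-β) * (1 - C β⁻¹ * X) := by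
    refine Multiset.map_congr rfl fun β hβ => ?_
    have hβ0 : β ≠ 0 := by
      rintro rfl
      have := (mem_roots hne).1 hβ
      rw [IsRoot, hP0] at this
      exact one_ne_zero this
    have : C β * C β⁻¹ = (1 : ℂ[X]) := by rw [← C_mul, mul_inv_cancel₀ hβ0, C_1]
    rw [C_neg]; linear_combination (-X) * this
  rw [h1, Multiset.prod_map_mul, ← mul_assoc] at hf
  have h2 : (P.roots.map fun β => C (-β)).prod = C (P.roots.map fun β => -β).prod := by
    rw [map_multiset_prod, Multiset.map_map]; rfl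
  rw [h2, ← C_mul] at hf
  have h3 : P.leadingCoeff * (P.roots.map fun β => -β).prod = 1 := by
    have := congrArg (eval 0) hf
    rw [hP0, eval_mul, eval_C, eval_multiset_prod, Multiset.map_map] at this
    simpa using this
  rw [h3, C_1, one_mul] at hf
  refine ⟨P.roots.map fun β => β⁻¹, by rw [Multiset.card_map]; exact (card_roots' P).trans hd, ?_⟩
  have h4 : PowerSeries.mk A = (P : PowerSeries ℂ) := by ext m; simp [hc]
  rw [h4]
  conv_lhs => rw [← hf]
  rw [← coeToPowerSeries.ringHom_apply, map_multiset_prod, Multiset.map_map, Multiset.map_map]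
  congr 1
  refine Multiset.map_congr rfl fun β _ => ?_
  simp

theorem powS : PowS := by
  intro A S r n0 m0 B C0 hn0 hB h0 hr hrec hS
  obtain ⟨s, hs, hA⟩ := exists_factor A r h0 hr
  have h1 := log_deriv s
  rw [← hA] at h1
  have h2 : PowerSeries.X * PowerSeries.derivative ℂ (PowerSeries.mk A) =
      (PowerSeries.mk fun n => if n = 0 then 0 else S n) * PowerSeries.mk A := by
    ext m
    rw [PowerSeries.coeff_mul, Finset.Nat.sum_antidiagonal_eq_sum_range_succ_mk,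
      PowerSeries.coeff_mul, Finset.Nat.sum_antidiagonal_eq_sum_range_succ_mk,
      ← Finset.Nat.sum_antidiagonal_eq_sum_range_succ_mk
        (fun x => PowerSeries.coeff x.1 (PowerSeries.X : PowerSeries ℂ) *
          PowerSeries.coeff x.2 (PowerSeries.derivative ℂ (PowerSeries.mk A))),
      ← PowerSeries.coeff_mul]
    have h3 : ∑ k ∈ range m.succ, PowerSeries.coeff k
        (PowerSeries.mk fun n => if n = 0 then 0 else S n) *
          PowerSeries.coeff (m - k) (PowerSeries.mk A) = ∑ n ∈ Icc 1 m, S n * A (m - n) := by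
      rw [range_eq_Ico, sum_eq_sum_Ico_succ_bot (Nat.succ_pos m)]
      simp only [PowerSeries.coeff_mk, if_true, zero_mul, zero_add]
      refine sum_congr rfl fun n hn => ?_
      rw [if_neg (by have := (mem_Icc.1 hn).1; omega)]
    rw [h3, ← hrec]
    rcases m with _ | m
    · simp
    · rw [PowerSeries.coeff_succ_X_mul, PowerSeries.coeff_derivative, PowerSeries.coeff_mk]
      push_cast; ring
  have hne : PowerSeries.mk A ≠ 0 := fun h => by
    have := congrArg (PowerSeries.coeff 0) h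
    simp [h0] at this
  have h4 := mul_right_cancel₀ hne (h1.symm.trans h2)
  have h5 : ∀ n, n ≠ 0 → S n = -(s.map (· ^ n)).sum := by
    intro n hn
    have := congrArg (PowerSeries.coeff n) h4
    simpa [hn] using this.symm
  have h6 : ∀ α ∈ s, ‖α‖ ≤ B := by
    intro α hα
    have h7 := norm_le_of_pow_sum (s.map (· ^ n0)) (m0 + 1) (B ^ n0) C0 (pow_nonneg hB _)
      (fun m hm => by
        have h8 := hS m (by omega)
        rw [h5 _ (Nat.mul_ne_zero hn0.ne' (by omega)), norm_neg, pow_mul] at h8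
        rw [Multiset.map_map]
        simpa [pow_mul] using h8) (Multiset.mem_map_of_mem _ hα)
    rw [norm_pow] at h7
    exact (pow_le_pow_iff_left₀ (norm_nonneg _) hB hn0.ne').1 h7
  have h9 : A 1 = S 1 := by simpa [h0] using hrec 1
  rw [h9, h5 1 one_ne_zero, norm_neg]
  refine (norm_multiset_sum_le _).trans ?_
  refine (Multiset.sum_le_card_nsmul _ B ?_).trans ?_
  · intro x hx
    simp only [Multiset.map_map, Multiset.mem_map, Function.comp, pow_one] at hx
    obtain ⟨α, hα, rfl⟩ := hx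
    exact h6 α hα
  · simp only [Multiset.card_map, nsmul_eq_mul]
    exact mul_le_mul_of_nonneg_right (by exact_mod_cast hs) hB

end Pool.Agent.MP_dfda4f_nt.Wl

end MrgPart5

-- ======== part 6: formerly Pool.Agent.MP_dfda4f_nt.wl.Weil6
section MrgPart6

open Polynomial Finset

namespace Pool.Agent.MP_dfda4f_nt.Wl

variable {K L : Type} [Field K] [Fintype K] [Field L] [Algebra K L]

theorem sum_pow_zero (K : Type) [Field K] [Fintype K] [Algebra K L] {r : ℕ} (hr : r ≠ 0)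
    (n : ℕ) (χ : L → ℂ)
    (hmul : ∀ z z' : L, z ^ (Fintype.card K ^ r) = z → z' ^ (Fintype.card K ^ r) = z' →
      χ (z * z') = χ z * χ z')
    {γ u v : L} (hγ : γ ^ (Fintype.card K ^ r) = γ) (hγ0 : γ ≠ 0) (hγ1 : χ (γ ^ n) ≠ 1)
    (hu : u ^ (Fintype.card K ^ r) = u) (hv : v ^ (Fintype.card K ^ r) = v) :
    ∑ z ∈ Fx L (Fintype.card K ^ r), χ ((u + z) ^ n * v) = 0 := by
  have hQ : 1 < Fintype.card K ^ r := Nat.one_lt_pow hr Fintype.one_lt_card
  set Q := Fintype.card K ^ r with hQd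
  have hsq : ∀ z : L, z ^ Q = z → (z ^ n) ^ Q = z ^ n := fun z hz => by
    rw [← pow_mul, mul_comm, pow_mul, hz]
  have h1 : ∑ z ∈ Fx L Q, χ ((u + z) ^ n * v) = ∑ z ∈ Fx L Q, χ (z ^ n * v) := by
    refine sum_nbij' (fun z => u + z) (fun z => z - u) (fun z hz => ?_) (fun z hz => ?_)
      (fun _ _ => by ring) (fun _ _ => by ring) (fun _ _ => rfl)
    · rw [mem_Fx hQ] at hz ⊢
      rw [hQd, frob_add K, ← hQd, hu, hz]
    · rw [mem_Fx hQ] at hz ⊢
      rw [hQd, frob_sub K, ← hQd, hu, hz]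
  have h2 : ∑ z ∈ Fx L Q, χ ((γ * z) ^ n * v) = ∑ z ∈ Fx L Q, χ (z ^ n * v) := by
    refine sum_nbij' (fun z => γ * z) (fun z => γ⁻¹ * z) (fun z hz => ?_) (fun z hz => ?_)
      (fun _ _ => by field_simp) (fun _ _ => by field_simp) (fun _ _ => rfl)
    · rw [mem_Fx hQ] at hz ⊢
      rw [mul_pow, hγ, hz]
    · rw [mem_Fx hQ] at hz ⊢
      rw [mul_pow, inv_pow, hγ, hz]
  have h3 : ∑ z ∈ Fx L Q, χ ((γ * z) ^ n * v) = χ (γ ^ n) * ∑ z ∈ Fx L Q, χ (z ^ n * v) := by
    rw [mul_sum]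
    refine sum_congr rfl fun z hz => ?_
    rw [mem_Fx hQ] at hz
    rw [mul_pow, mul_assoc, hmul _ _ (hsq _ hγ) (by rw [mul_pow, hsq _ hz, hv])]
  rw [h1]
  rw [h2] at h3
  by_contra hne
  exact hγ1 (mul_right_cancel₀ hne (by rw [← h3, one_mul]))

theorem sum_Mon_vanish' [IsAlgClosed L] {η : L} {r : ℕ} (hr : r ≠ 0) (h0 : η ≠ 0)
    (hd : (minpoly K η).natDegree = r) (hη : η ^ (Fintype.card K ^ r) = η) (n : ℕ) (χ : L → ℂ)
    (hmul : ∀ z z' : L, z ^ (Fintype.card K ^ r) = z → z' ^ (Fintype.card K ^ r) = z' →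
      χ (z * z') = χ z * χ z')
    {γ : L} (hγ : γ ^ (Fintype.card K ^ r) = γ) (hγ0 : γ ≠ 0) (hγ1 : χ (γ ^ n) ≠ 1)
    (s m : ℕ) (hm : r < m) :
    ∑ g ∈ Mon K m, χ (aeval η g ^ n * aeval (0 : L) g ^ s) = 0 := by
  have hQ : 0 < Fintype.card K ^ r := pow_pos Fintype.card_pos r
  have h1 : ∀ c : Fin r → K, ∑ g ∈ Mon K m, χ (aeval η g ^ n * aeval (0 : L) g ^ s) =
      ∑ g ∈ Mon K m, χ ((aeval η g +
        aeval η (X * ∑ i : Fin r, C (c i) * X ^ (i : ℕ) : K[X])) ^ n * aeval (0 : L) g ^ s) := by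
    intro c
    have h2 : (X * ∑ i : Fin r, C (c i) * X ^ (i : ℕ) : K[X]).natDegree < m := by
      refine lt_of_le_of_lt natDegree_mul_le ?_
      have h3 : (∑ i : Fin r, C (c i) * X ^ (i : ℕ) : K[X]).natDegree ≤ r - 1 :=
        natDegree_sum_le_of_forall_le _ _ fun i _ =>
          (natDegree_C_mul_X_pow_le _ _).trans (by have := i.2; omega)
      rw [natDegree_X]; omega
    rw [← sum_Mon_shift (fun g => χ (aeval η g ^ n * aeval (0 : L) g ^ s)) h2]
    refine sum_congr rfl fun g _ => ?_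
    simp
  have h4 := sum_congr rfl fun c (_ : c ∈ (univ : Finset (Fin r → K))) => h1 c
  rw [sum_const, sum_comm (s := univ)] at h4
  rw [sum_eq_zero (s := Mon K m) (f := fun g => ∑ c : Fin r → K, χ ((aeval η g +
        aeval η (X * ∑ i : Fin r, C (c i) * X ^ (i : ℕ) : K[X])) ^ n * aeval (0 : L) g ^ s))] at h4
  · rw [nsmul_eq_mul] at h4
    exact (mul_eq_zero.1 h4).resolve_left (Nat.cast_ne_zero.2 (card_pos.2 univ_nonempty).ne')
  · intro g _
    rw [sum_param hr h0 hd hη (fun z => χ ((aeval η g + z) ^ n * aeval (0 : L) g ^ s))]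
    refine sum_pow_zero K hr n χ hmul hγ hγ0 hγ1 (by rw [frob_aeval, hη]) ?_
    rw [← pow_mul, mul_comm, pow_mul, frob_aeval, zero_pow hQ.ne']

theorem val_cp' [Algebra.IsAlgebraic K L] {ζ η : L} {r : ℕ} (hζ : ζ ^ r = 1)
    (h : ζ ^ Fintype.card K = ζ) (hη : η ^ Fintype.card K * ζ = η) (n s m : ℕ) (hn : 0 < r * m)
    {t : L} (ht : t ^ (Fintype.card K ^ (r * m)) = t) :
    aeval η (cp K (r * m) t) ^ n * aeval (0 : L) (cp K (r * m) t) ^ s =
      (∏ i ∈ range r, ((η * ζ ^ i - t) ^ n * (-t) ^ s) ^ Fintype.card K ^ i) ^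
        ∑ a ∈ range m, (Fintype.card K ^ r) ^ a := by
  rw [← prod_periodic (fun i => (η * ζ ^ i - t) ^ n * (-t) ^ s) _ r
    (fun j => by rw [pow_add, hζ, mul_one]) m]
  rw [← eval_map_algebraMap, ← eval_map_algebraMap, conjS K L _ t hn ht, eval_prod, eval_prod,
    ← prod_pow, ← prod_pow, ← prod_mul_distrib]
  refine prod_congr rfl fun j _ => ?_
  have h1 : (η * ζ ^ j) ^ Fintype.card K ^ j = η := by
    rw [mul_pow, ← pow_mul ζ, mul_comm j, pow_mul ζ, pow_pow_fix h, eta_pow h hη]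
  rw [mul_pow, ← pow_mul, mul_comm n, pow_mul, frob_sub K, h1, ← pow_mul (-t), mul_comm s,
    pow_mul (-t), frob_neg K]
  simp

theorem exists_f1' {ζ η : L} {r : ℕ} (hr : 0 < r) (hζ : IsPrimitiveRoot ζ r) (h0 : η ≠ 0)
    (q n s : ℕ) : ∃ f1 : L[X], f1.eval η ≠ 0 ∧ ∀ t : L, (t - η) ^ n * f1.eval t =
      ∏ i ∈ range r, ((η * ζ ^ i - t) ^ n * (-t) ^ s) ^ q ^ i := by
  obtain ⟨r, rfl⟩ : ∃ r', r = r' + 1 := ⟨r - 1, by omega⟩
  refine ⟨(-1) ^ n * (-X) ^ s * ∏ i ∈ range r, ((C (η * ζ ^ (i + 1)) - X) ^ n * (-X) ^ s) ^ q ^ (i + 1),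
    ?_, fun t => ?_⟩
  · simp only [eval_mul, eval_pow, eval_neg, eval_X, eval_prod, eval_sub, eval_C, eval_one]
    refine mul_ne_zero (mul_ne_zero (pow_ne_zero _ (neg_ne_zero.2 one_ne_zero))
      (pow_ne_zero _ (neg_ne_zero.2 h0))) (prod_ne_zero_iff.2 fun i hi => ?_)
    refine pow_ne_zero _ (mul_ne_zero (pow_ne_zero _ (sub_ne_zero.2 fun h => ?_))
      (pow_ne_zero _ (neg_ne_zero.2 h0)))
    exact hζ.pow_ne_one_of_pos_of_lt (Nat.succ_ne_zero i) (by have := mem_range.1 hi; omega)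
      (mul_left_cancel₀ h0 (by rw [h, mul_one]))
  · simp only [eval_mul, eval_pow, eval_neg, eval_X, eval_prod, eval_sub, eval_C, eval_one]
    rw [prod_range_succ']
    simp only [pow_zero, mul_one, pow_one]
    rw [← neg_sub t η, neg_pow (t - η)]
    ring

theorem weil' (K L : Type) [Field K] [Fintype K] [Field L] [Algebra K L] [IsAlgClosed L]
    [Algebra.IsAlgebraic K L] (r l M n s : ℕ) (ζ η c : L) (Z : Finset K) (hr : 2 ≤ r)
    (hl : l.Prime) (hl2 : ¬ l ∣ n) (hM : Fintype.card K ^ r = l * M + 1)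
    (hζ : IsPrimitiveRoot ζ r) (hζq : ζ ^ Fintype.card K = ζ) (h0 : η ≠ 0)
    (hη : η ^ Fintype.card K * ζ = η)
    (hZ : ∀ t ∈ Z, t ≠ 0 ∧ ((η - algebraMap K L t) ^ n * (-algebraMap K L t) ^ s) ^ M = c) :
    (Z.card : ℝ) ≤ Fintype.card K / l + r * √(Fintype.card K) := by
  classical
  obtain ⟨p, hp, k, hp', hk⟩ := FiniteField.card' K
  have := Fact.mk hp'
  have : CharP L p := charP_of_injective_algebraMap (algebraMap K L).injective p
  have : NeZero l := ⟨hl.ne_zero⟩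
  have := Fact.mk hl
  have hq1 : 1 < Fintype.card K := Fintype.one_lt_card
  have hr0 : r ≠ 0 := by omega
  have hQ1 : 1 < Fintype.card K ^ r := Nat.one_lt_pow hr0 hq1
  have hM0 : 0 < M := Nat.pos_of_ne_zero (by rintro rfl; omega)
  have : NeZero (l : L) := ⟨fun hz => by
    have h1 : ((Fintype.card K ^ r : ℕ) : L) = 0 := by
      rw [hk, ← pow_mul, Nat.cast_pow, CharP.cast_eq_zero L p,
        zero_pow (Nat.mul_ne_zero k.ne_zero hr0)]
    rw [hM, Nat.cast_add, Nat.cast_mul, hz] at h1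
    simp at h1⟩
  obtain ⟨ω, hω⟩ := HasEnoughRootsOfUnity.exists_primitiveRoot L l
  obtain ⟨idx, hidx, hidxm, hidx1⟩ := exists_idx hω
  have hηr : η ^ (Fintype.card K ^ r) = η := by
    have := eta_pow hζq hη r
    rwa [hζ.pow_eq_one, mul_one] at this
  have hE : ∀ z : L, z ^ (Fintype.card K ^ r) = z → z ≠ 0 → (z ^ M) ^ l = 1 := by
    intro z hz hz0
    rw [hM, pow_succ] at hz
    rw [← pow_mul, mul_comm]
    exact mul_right_cancel₀ hz0 (by rw [hz, one_mul])
  set V : K[X] → L := fun g => aeval η g ^ n * aeval (0 : L) g ^ s with hV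
  have hVE : ∀ g, V g ^ (Fintype.card K ^ r) = V g := by
    intro g
    simp only [hV]
    rw [mul_pow, ← pow_mul, mul_comm n, pow_mul, frob_aeval, hηr, ← pow_mul, mul_comm s,
      pow_mul, frob_aeval, zero_pow (by omega)]
  have hVt : ∀ t : K, V (X - C t) =
      (η - algebraMap K L t) ^ n * (-algebraMap K L t) ^ s := by
    intro t; simp [hV]
  refine card_le_of_sums (fun t : K => V (X - C t) = 0) (fun t => idx (V (X - C t) ^ M)) (idx c) Z
    (fun t ht => ?_) _ (by positivity) fun j hj => ?_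
  · obtain ⟨h1, h2⟩ := hZ t ht
    rw [hVt, h2]
    refine ⟨mul_ne_zero (pow_ne_zero _ (sub_ne_zero.2 fun h3 => ?_))
      (pow_ne_zero _ (neg_ne_zero.2 ((_root_.map_ne_zero _).2 h1))), rfl⟩
    have h4 : η ^ Fintype.card K = η := by rw [h3, ← map_pow, FiniteField.pow_card]
    rw [h4] at hη
    exact hζ.ne_one (by omega) (mul_left_cancel₀ h0 (by rw [hη, mul_one]))
  set χ : L → ℂ := fun z => if z = 0 then 0 else ZMod.stdAddChar (j * idx (z ^ M)) with hχ
  have hmul : ∀ z z' : L, z ^ (Fintype.card K ^ r) = z → z' ^ (Fintype.card K ^ r) = z' →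
      χ (z * z') = χ z * χ z' := by
    intro z z' hz hz'
    by_cases h1 : z = 0
    · simp [hχ, h1]
    by_cases h2 : z' = 0
    · simp [hχ, h2]
    simp only [hχ, if_neg h1, if_neg h2, if_neg (mul_ne_zero h1 h2)]
    rw [mul_pow, hidxm _ _ (hE z hz h1) (hE z' hz' h2), mul_add, AddChar.map_add_eq_mul]
  let Λ : K[X] →* ℂ :=
    { toFun := fun g => χ (V g)
      map_one' := by simp [hχ, hV, hidx1]
      map_mul' := fun g g' => by
        rw [← hmul _ _ (hVE g) (hVE g')]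
        congr 1
        simp only [hV, map_mul]; ring }
  have hΛ : ∀ g, Λ g = χ (V g) := fun _ => rfl
  obtain ⟨γ, hγ⟩ := IsAlgClosed.exists_pow_nat_eq ω hM0
  have hω0 : ω ≠ 0 := hω.ne_zero hl.ne_zero
  have hγ0 : γ ≠ 0 := by rintro rfl; rw [zero_pow hM0.ne'] at hγ; exact hω0 hγ.symm
  have hγE : γ ^ (Fintype.card K ^ r) = γ := by
    rw [hM, pow_succ, mul_comm l, pow_mul, hγ, hω.pow_eq_one, one_mul]
  have hγ1 : χ (γ ^ n) ≠ 1 := by
    simp only [hχ, if_neg (pow_ne_zero n hγ0)]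
    rw [← pow_mul, mul_comm n, pow_mul, hγ, Ne,
      (ZMod.isPrimitive_stdAddChar l).zmod_char_eq_one_iff l]
    refine mul_ne_zero hj fun h1 => ?_
    have h2 := hidx (ω ^ n) (by rw [← pow_mul, mul_comm, pow_mul, hω.pow_eq_one, one_pow])
    rw [h1, ZMod.val_zero, pow_zero] at h2
    exact hl2 ((hω.pow_eq_one_iff_dvd n).1 h2.symm)
  obtain ⟨f1, hf1, hf⟩ := exists_f1' (by omega) hζ h0 (Fintype.card K) n s
  obtain ⟨C0, hC0⟩ := stepS L p l n η f1 hl.pos
    ((Nat.Prime.coprime_iff_not_dvd hl).2 hl2).symm hf1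
  set f : L[X] := (X - C η) ^ n * f1 with hfd
  have hf0 : f ≠ 0 := mul_ne_zero (pow_ne_zero _ (X_sub_C_ne_zero η))
    (by rintro rfl; simp at hf1)
  have key := powS (fun m => ∑ g ∈ Mon K m, Λ g)
    (fun n => ∑ t ∈ Fx L (Fintype.card K ^ n), Λ (cp K n t)) r (r * 2) (C0 + 1)
    (√(Fintype.card K)) (C0 + f.natDegree) (by omega) (Real.sqrt_nonneg _)
    (by simp [Mon_zero]) (fun m hm => sum_Mon_vanish' hr0 h0 (eta_deg hζ hζq h0 hη) hηr n χ hmul
      hγE hγ0 hγ1 s m hm) (newtonS K L Λ) (fun m hm => ?_)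
  · simp only [sum_Mon_one] at key
    exact key
  have hn : 0 < r * (2 * m) := Nat.mul_pos (by omega) (by omega)
  have hnn : r * 2 * m = r * (2 * m) := mul_assoc _ _ _
  have he : p ^ (k * (r * m)) = (Fintype.card K ^ r) ^ m := by rw [hk, ← pow_mul, ← pow_mul]
  have hee : p ^ (k * (r * m)) * p ^ (k * (r * m)) = Fintype.card K ^ (r * (2 * m)) := by
    rw [hk, ← pow_add, ← pow_mul]; congr 1; ring
  have hgeo : ∀ n, (Fintype.card K ^ r) ^ n =
      l * (M * ∑ a ∈ range n, (Fintype.card K ^ r) ^ a) + 1 := by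
    intro n
    induction n with
    | zero => simp
    | succ n ih =>
      rw [sum_range_succ, pow_succ]
      generalize (Fintype.card K ^ r) ^ n = y at ih ⊢
      generalize ∑ a ∈ range n, (Fintype.card K ^ r) ^ a = z at ih ⊢
      rw [hM]
      linear_combination ih
  set w := M * ∑ a ∈ range m, (Fintype.card K ^ r) ^ a with hw
  have hww : w * (p ^ (k * (r * m)) + 1) =
      (∑ a ∈ range (2 * m), (Fintype.card K ^ r) ^ a) * M := by
    rw [he, hw, two_mul, sum_range_add]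
    simp only [pow_add]
    rw [← mul_sum]; ring
  have hlarge : m ≤ p ^ (k * (r * m)) := by
    rw [he]; exact (Nat.lt_pow_self hQ1).le
  have hQn : 1 < Fintype.card K ^ (r * (2 * m)) := Nat.one_lt_pow hn.ne' hq1
  have hval : ∀ t ∈ Fx L (Fintype.card K ^ (r * (2 * m))), V (cp K (r * (2 * m)) t) =
      ((t - η) ^ n * f1.eval t) ^ ∑ a ∈ range (2 * m), (Fintype.card K ^ r) ^ a := by
    intro t ht
    rw [hf]
    exact val_cp' hζ.pow_eq_one hζq hη _ _ _ hn ((mem_Fx hQn).1 ht)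
  have hb := sum_le_of_fibres (Fx L (Fintype.card K ^ (r * (2 * m))))
    (fun t => V (cp K (r * (2 * m)) t) = 0) (fun t => idx (V (cp K (r * (2 * m)) t) ^ M)) j hj
    (C0 * p ^ (k * (r * m))) f.natDegree (fun a => ?_) ?_
  · rw [hnn]
    refine le_trans (le_of_eq (by congr)) (hb.trans ?_)
    have h1 : √(Fintype.card K : ℝ) ^ (r * (2 * m)) = (p : ℝ) ^ (k * (r * m)) := by
      rw [mul_left_comm, pow_mul, Real.sq_sqrt (Nat.cast_nonneg _), hk]
      push_cast
      rw [← pow_mul]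
    have h2 : (1 : ℝ) ≤ (p : ℝ) ^ (k * (r * m)) := one_le_pow₀ (by exact_mod_cast hp'.one_lt.le)
    rw [h1]
    push_cast
    nlinarith [Nat.cast_nonneg (α := ℝ) f.natDegree]
  · rw [card_Fx' K hn.ne', ← hee]
    refine hC0 _ w (ω ^ a.val) (by omega) (by rw [he, hw]; exact hgeo m) ?_ _ fun t ht => ?_
    · rw [hee, pow_mul]; exact pow_pow_fix hηr _
    · obtain ⟨h1, h2, h3⟩ := mem_filter.1 ht
      refine ⟨(mem_Fx (by rw [hee]; exact hQn)).1 h1, fun h4 => h2 ?_, ?_⟩
      · rw [hval t (by rwa [← hee]), h4, zero_pow]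
        exact (sum_pos (fun _ _ => by positivity) ⟨0, mem_range.2 (by omega)⟩).ne'
      · rw [hww, pow_mul, ← hval t (by rwa [← hee]), ← h3, hidx _ (hE _ (hVE _) h2)]
  · refine card_le_degree_of_subset_roots fun t ht => ?_
    obtain ⟨h1, h2⟩ := mem_filter.1 ht
    rw [hval t h1] at h2
    rw [mem_roots hf0, IsRoot, hfd]
    simpa using pow_eq_zero_iff'.1 h2 |>.1

end Pool.Agent.MP_dfda4f_nt.Wl

end MrgPart6

-- ======== part 7: formerly Pool.Agent.MP_dfda4f_nt.wl.Sieve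
section MrgPart7

open Finset

namespace Pool.Agent.MP_dfda4f_nt.Wl

namespace Sv

/-- the majorant `(1 + log x) / x` -/
noncomputable def G (x : ℕ) : ℝ := (1 + Real.log x) / x

lemma log_nn (x : ℕ) : 0 ≤ Real.log (x : ℝ) := Real.log_natCast_nonneg x

lemma G_nn (x : ℕ) : 0 ≤ G x := div_nonneg (by have := log_nn x; linarith) (Nat.cast_nonneg x)

lemma G_mul (x y : ℕ) (hx : 0 < x) (hy : 0 < y) : G (x * y) ≤ G x * G y := by
  have hx' : (0 : ℝ) < x := by exact_mod_cast hx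
  have hy' : (0 : ℝ) < y := by exact_mod_cast hy
  unfold G
  rw [Nat.cast_mul, Real.log_mul hx'.ne' hy'.ne', div_mul_div_comm]
  apply div_le_div_of_nonneg_right _ (by positivity)
  have := mul_nonneg (log_nn x) (log_nn y)
  nlinarith

lemma G_le_one (x : ℕ) (hx : 0 < x) : G x ≤ 1 := by
  have hx' : (0 : ℝ) < x := by exact_mod_cast hx
  unfold G
  rw [div_le_one hx']
  have := Real.log_le_sub_one_of_pos hx'
  linarith

lemma G_anti (x y : ℕ) (hx : 0 < x) (hxy : x ≤ y) : G y ≤ G x := by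
  have hx' : (0 : ℝ) < x := by exact_mod_cast hx
  have hxy' : (x : ℝ) ≤ y := by exact_mod_cast hxy
  have hy' : (0 : ℝ) < y := lt_of_lt_of_le hx' hxy'
  unfold G
  rw [div_le_div_iff₀ hy' hx']
  have h1 := Real.log_le_sub_one_of_pos (div_pos hy' hx')
  rw [Real.log_div hy'.ne' hx'.ne'] at h1
  have h2 : (Real.log y - Real.log x) * x ≤ y - x := by
    have := mul_le_mul_of_nonneg_right h1 hx'.le
    rw [sub_mul (y / x : ℝ), div_mul_cancel₀ _ hx'.ne', one_mul] at this
    exact this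
  have h3 := mul_le_mul_of_nonneg_left hxy' (log_nn x)
  nlinarith

lemma harm (N : ℕ) : ∑ j ∈ Icc 1 N, (1 : ℝ) / (j : ℕ) ≤ 1 + Real.log N := by
  have h := harmonic_le_one_add_log N
  rw [harmonic_eq_sum_Icc] at h
  push_cast at h
  simpa [one_div] using h

/-- a small set in the progression `1 mod e` -/
lemma prog (f : ℕ → ℝ) (h0 : ∀ x, 0 ≤ f x) (hm : ∀ x y, 0 < x → 0 < y → f (x * y) ≤ f x * f y)
    (ha : ∀ x y, 0 < x → x ≤ y → f y ≤ f x) (e N : ℕ) (he : 0 < e) (hN : 0 < N) (C : Finset ℕ)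
    (hC : ∀ l ∈ C, 2 ≤ l ∧ e ∣ l - 1) (hc : C.card ≤ N) :
    ∑ l ∈ C, f l ≤ f e * (∑ j ∈ Icc 1 N, f j + N * f N) := by
  classical
  have hj : ∀ l ∈ C, 0 < (l - 1) / e ∧ e * ((l - 1) / e) = l - 1 := by
    intro l hl
    obtain ⟨h2, hd⟩ := hC l hl
    have h := Nat.mul_div_cancel' hd
    refine ⟨Nat.pos_of_ne_zero fun h' => ?_, h⟩
    rw [h'] at h
    omega
  have hinj : Set.InjOn (fun l => (l - 1) / e) (C : Set ℕ) := by
    intro x hx y hy hxy
    have h1 := (hj x hx).2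
    have h2 := (hj y hy).2
    have h3 := (hC x hx).1
    have h4 := (hC y hy).1
    simp only at hxy
    rw [hxy] at h1
    omega
  have h1 : ∑ l ∈ C, f l ≤ ∑ l ∈ C, f e * f ((l - 1) / e) := by
    refine sum_le_sum fun l hl => ?_
    obtain ⟨hp, hq⟩ := hj l hl
    refine le_trans (ha (e * ((l - 1) / e)) l (Nat.mul_pos he hp) (by omega)) (hm _ _ he hp)
  rw [← mul_sum] at h1
  refine h1.trans (mul_le_mul_of_nonneg_left ?_ (h0 e))
  rw [← sum_image (f := f) hinj]
  set J := C.image (fun l => (l - 1) / e) with hJ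
  have hJc : J.card ≤ N := card_image_le.trans hc
  rw [← sum_filter_add_sum_filter_not J (fun j => j ≤ N)]
  refine add_le_add ?_ ?_
  · refine sum_le_sum_of_subset_of_nonneg ?_ (fun i _ _ => h0 i)
    intro j hj'
    rw [mem_filter, hJ, mem_image] at hj'
    obtain ⟨⟨l, hl, rfl⟩, h⟩ := hj'
    exact mem_Icc.2 ⟨(hj l hl).1, h⟩
  · refine (sum_le_card_nsmul _ _ (f N) ?_).trans ?_
    · intro j hj'
      rw [mem_filter] at hj'
      exact ha N j hN (by omega)
    · rw [nsmul_eq_mul]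
      refine mul_le_mul_of_nonneg_right ?_ (h0 N)
      exact_mod_cast (card_filter_le _ _).trans hJc

lemma prog_inv (e : ℕ) (he : 0 < e) (C : Finset ℕ) (hC : ∀ l ∈ C, 2 ≤ l ∧ e ∣ l - 1)
    (hc : C.card ≤ e) : ∑ l ∈ C, (1 : ℝ) / (l : ℕ) ≤ 2 * G e := by
  have he' : (0 : ℝ) < e := by exact_mod_cast he
  have h := prog (fun x => (1 : ℝ) / (x : ℕ)) (fun x => by positivity)
    (fun x y _ _ => by rw [Nat.cast_mul, div_mul_div_comm, one_mul])
    (fun x y hx hxy => one_div_le_one_div_of_le (by exact_mod_cast hx) (by exact_mod_cast hxy))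
    e e he he C hC hc
  refine h.trans ?_
  have h1 := harm e
  have h2 := log_nn e
  have h3 : (e : ℝ) * (1 / e) = 1 := by field_simp
  have h4 : 2 * G e = 1 / e * (2 * (1 + Real.log e)) := by unfold G; ring
  rw [h3, h4]
  exact mul_le_mul_of_nonneg_left (by linarith) (by positivity)

lemma prog_G (e N : ℕ) (he : 0 < e) (hN : 0 < N) (C : Finset ℕ)
    (hC : ∀ l ∈ C, 2 ≤ l ∧ e ∣ l - 1) (hc : C.card ≤ N) :
    ∑ l ∈ C, G l ≤ G e * (2 * (1 + Real.log N) ^ 2) := by
  have hN' : (0 : ℝ) < N := by exact_mod_cast hN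
  refine (prog G G_nn G_mul G_anti e N he hN C hC hc).trans
    (mul_le_mul_of_nonneg_left ?_ (G_nn e))
  have h2 := log_nn N
  have h1 : ∑ j ∈ Icc 1 N, G j ≤ ∑ j ∈ Icc 1 N, (1 + Real.log N) * ((1 : ℝ) / (j : ℕ)) := by
    refine sum_le_sum fun j hj => ?_
    obtain ⟨h1, h3⟩ := mem_Icc.1 hj
    have hj' : (0 : ℝ) < j := by exact_mod_cast h1
    have := Real.log_le_log hj' (by exact_mod_cast h3 : (j : ℝ) ≤ N)
    unfold G
    rw [mul_one_div]
    exact div_le_div_of_nonneg_right (by linarith) hj'.le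
  rw [← mul_sum] at h1
  have h3 : (N : ℝ) * G N = 1 + Real.log N := by unfold G; field_simp
  have h4 := mul_le_mul_of_nonneg_left (harm N) (by linarith : 0 ≤ 1 + Real.log N)
  rw [h3]
  nlinarith

lemma card_pf (n e : ℕ) (h : n < 2 ^ e) (hn : n ≠ 0) : n.primeFactors.card ≤ e := by
  have h1 : 2 ^ n.primeFactors.card ≤ ∏ p ∈ n.primeFactors, p :=
    pow_card_le_prod _ _ _ fun p hp => (Nat.prime_of_mem_primeFactors hp).two_le
  have h2 := Nat.le_of_dvd (Nat.pos_of_ne_zero hn) (Nat.prod_primeFactors_dvd n)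
  have h3 : 2 ^ n.primeFactors.card < 2 ^ e := by omega
  exact ((Nat.pow_lt_pow_iff_right (by norm_num)).1 h3).le

lemma dvd_iff (l n : ℕ) : l ∣ 2 ^ n - 1 ↔ (2 : ZMod l) ^ n = 1 := by
  rw [← ZMod.natCast_eq_zero_iff, Nat.cast_sub Nat.one_le_two_pow, sub_eq_zero]
  push_cast
  rfl

lemma mers_ne (n : ℕ) (hn : 0 < n) : 2 ^ n - 1 ≠ 0 := by
  have := Nat.one_lt_two_pow hn.ne'
  omega

/-- divisors of `4 m` that do not divide `4` -/
lemma div_sum (m : ℕ) (hm : 0 < m) (σ : ℝ) (hσ : ∑ π ∈ m.primeFactors, G π ≤ σ)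
    (h2 : σ ≤ 1 / 2) : ∑ e ∈ (4 * m).divisors.filter (fun e => ¬ e ∣ 4), G e ≤ 6 * σ := by
  classical
  set T := ∑ e ∈ (4 * m).divisors.filter (fun e => ¬ e ∣ 4), G e with hT
  have hT0 : 0 ≤ T := sum_nonneg fun e _ => G_nn e
  have hσ0 : 0 ≤ σ := (sum_nonneg fun e _ => G_nn e).trans hσ
  have hU : ∑ e ∈ (4 * m).divisors, G e ≤ T + 3 := by
    rw [← sum_filter_add_sum_filter_not (4 * m).divisors (fun e => ¬ e ∣ 4)]
    refine add_le_add le_rfl ?_
    have hs : (4 * m).divisors.filter (fun e => ¬ ¬ e ∣ 4) ⊆ Nat.divisors 4 := by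
      intro e he
      rw [mem_filter, not_not] at he
      exact Nat.mem_divisors.2 ⟨he.2, by norm_num⟩
    refine (sum_le_sum_of_subset_of_nonneg hs (fun i _ _ => G_nn i)).trans ?_
    have : Nat.divisors 4 = {1, 2, 4} := by decide
    rw [this, sum_insert (by decide), sum_insert (by decide), sum_singleton]
    have := G_le_one 1 (by norm_num)
    have := G_le_one 2 (by norm_num)
    have := G_le_one 4 (by norm_num)
    linarith
  have hsub : (4 * m).divisors.filter (fun e => ¬ e ∣ 4) ⊆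
      (m.primeFactors ×ˢ (4 * m).divisors).image (fun z => z.1 * z.2) := by
    intro e he
    rw [mem_filter, Nat.mem_divisors] at he
    obtain ⟨⟨hd, h0⟩, hn⟩ := he
    obtain ⟨d1, d2, h1, h2, h3⟩ := exists_dvd_and_dvd_of_dvd_mul hd
    have hd2 : d2 ≠ 1 := by
      rintro rfl
      exact hn (by rw [h3, mul_one]; exact h1)
    obtain ⟨π, hπ, c, hc⟩ := Nat.exists_prime_and_dvd hd2
    refine mem_image.2 ⟨(π, d1 * c), mem_product.2 ⟨?_, ?_⟩, ?_⟩
    · exact Nat.mem_primeFactors.2 ⟨hπ, (Dvd.intro _ hc.symm).trans h2, hm.ne'⟩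
    · refine Nat.mem_divisors.2 ⟨mul_dvd_mul h1 ((Dvd.intro_left _ hc.symm).trans h2), h0⟩
    · rw [h3, hc]; ring
  have h1 : T ≤ ∑ z ∈ m.primeFactors ×ˢ (4 * m).divisors, G (z.1 * z.2) :=
    (sum_le_sum_of_subset_of_nonneg hsub (fun i _ _ => G_nn i)).trans
      (sum_image_le_of_nonneg fun i _ => G_nn i)
  have h3 : ∑ z ∈ m.primeFactors ×ˢ (4 * m).divisors, G (z.1 * z.2) ≤
      ∑ z ∈ m.primeFactors ×ˢ (4 * m).divisors, G z.1 * G z.2 := by
    refine sum_le_sum fun z hz => ?_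
    obtain ⟨ha, hb⟩ := mem_product.1 hz
    exact G_mul _ _ (Nat.prime_of_mem_primeFactors ha).pos (Nat.pos_of_mem_divisors hb)
  have h3' : ∑ z ∈ m.primeFactors ×ˢ (4 * m).divisors, G z.1 * G z.2 =
      (∑ π ∈ m.primeFactors, G π) * (∑ e ∈ (4 * m).divisors, G e) := by
    rw [sum_product, sum_mul_sum]
  have h4 : (∑ π ∈ m.primeFactors, G π) * (∑ e ∈ (4 * m).divisors, G e) ≤ σ * (T + 3) :=
    mul_le_mul hσ hU (sum_nonneg fun e _ => G_nn e) hσ0
  have h5 := mul_le_mul_of_nonneg_right h2 hT0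
  linarith

/-- reciprocals of the primes of `2 ^ (4 m) - 1` -/
lemma recip (m : ℕ) (hm : 0 < m) (σ : ℝ) (hσ : ∑ π ∈ m.primeFactors, G π ≤ σ)
    (h2 : σ ≤ 1 / 2) :
    ∑ l ∈ (2 ^ (4 * m) - 1).primeFactors, (1 : ℝ) / (l : ℕ) ≤ 8 / 15 + 12 * σ := by
  classical
  rw [← sum_filter_add_sum_filter_not _ (fun l => l ∣ 15)]
  refine add_le_add ?_ ?_
  · have hs : (2 ^ (4 * m) - 1).primeFactors.filter (fun l => l ∣ 15) ⊆ {3, 5} := by
      intro l hl
      rw [mem_filter] at hl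
      have hp := Nat.prime_of_mem_primeFactors hl.1
      have h15 : l ∣ 3 * 5 := hl.2
      rcases (Nat.Prime.dvd_mul hp).1 h15 with h | h
      · simp [(Nat.prime_dvd_prime_iff_eq hp Nat.prime_three).1 h]
      · simp [(Nat.prime_dvd_prime_iff_eq hp Nat.prime_five).1 h]
    refine (sum_le_sum_of_subset_of_nonneg hs (fun i _ _ => by positivity)).trans ?_
    rw [sum_insert (by decide), sum_singleton]
    norm_num
  · set s := (2 ^ (4 * m) - 1).primeFactors.filter (fun l => ¬ l ∣ 15) with hs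
    have hmap : ∀ l ∈ s, orderOf (2 : ZMod l) ∈
        (4 * m).divisors.filter (fun e => ¬ e ∣ 4) := by
      intro l hl
      rw [hs, mem_filter] at hl
      have h1 := (dvd_iff _ _).1 (Nat.dvd_of_mem_primeFactors hl.1)
      refine mem_filter.2 ⟨Nat.mem_divisors.2 ⟨orderOf_dvd_of_pow_eq_one h1, by omega⟩, ?_⟩
      intro h
      exact hl.2 ((dvd_iff l 4).2 (orderOf_dvd_iff_pow_eq_one.1 h))
    rw [← sum_fiberwise_of_maps_to hmap]
    have h6 := div_sum m hm σ hσ h2
    have h7 : 12 * σ = 2 * (6 * σ) := by ring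
    rw [h7]
    refine le_trans ?_ (mul_le_mul_of_nonneg_left h6 (by norm_num))
    rw [mul_sum]
    refine sum_le_sum fun e he => ?_
    have he0 : 0 < e := Nat.pos_of_mem_divisors (mem_filter.1 he).1
    refine prog_inv e he0 _ ?_ ?_
    · intro l hl
      rw [mem_filter, hs, mem_filter] at hl
      obtain ⟨⟨h1, _⟩, h3⟩ := hl
      have hp := Nat.prime_of_mem_primeFactors h1
      have := Fact.mk hp
      refine ⟨hp.two_le, ?_⟩
      rw [← h3]
      refine ZMod.orderOf_dvd_card_sub_one fun h0 => ?_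
      have h4 := (dvd_iff _ _).1 (Nat.dvd_of_mem_primeFactors h1)
      rw [h0, zero_pow (by omega)] at h4
      exact zero_ne_one h4
    · refine le_trans (card_le_card ?_) (card_pf (2 ^ e - 1) e ?_ (mers_ne e he0))
      · intro l hl
        rw [mem_filter, hs, mem_filter] at hl
        obtain ⟨⟨h1, _⟩, h3⟩ := hl
        refine Nat.mem_primeFactors.2 ⟨Nat.prime_of_mem_primeFactors h1, ?_, mers_ne e he0⟩
        rw [dvd_iff, ← h3]
        exact pow_orderOf_eq_one _
      · have := mers_ne e he0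
        omega

lemma ins_le (x : ℕ) (s : Finset ℕ) : ∑ l ∈ insert x s, G l ≤ G x + ∑ l ∈ s, G l := by
  classical
  by_cases h : x ∈ s
  · rw [insert_eq_of_mem h]
    have := G_nn x
    linarith
  · rw [sum_insert h]

/-- the primes of the repunit -/
lemma rep_prime (y P π : ℕ) (hP : P.Prime) (hπ : π.Prime)
    (hd : π ∣ ∑ i ∈ range P, y ^ i) : π = P ∨ P ∣ π - 1 := by
  have := Fact.mk hP
  have := Fact.mk hπ
  have h0 : ∑ i ∈ range P, (y : ZMod π) ^ i = 0 := by
    have := (ZMod.natCast_eq_zero_iff _ _).2 hd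
    push_cast at this
    exact this
  by_cases h1 : (y : ZMod π) = 1
  · left
    rw [h1] at h0
    simp only [one_pow, sum_const, card_range, nsmul_eq_mul, mul_one] at h0
    exact (Nat.prime_dvd_prime_iff_eq hπ hP).1 ((ZMod.natCast_eq_zero_iff _ _).1 h0)
  · right
    have h2 : (y : ZMod π) ^ P = 1 := by
      have := geom_sum_mul (y : ZMod π) P
      rw [h0, zero_mul] at this
      exact (sub_eq_zero.1 this.symm)
    rw [← orderOf_eq_prime h2 h1]
    refine ZMod.orderOf_dvd_card_sub_one fun h0 => ?_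
    rw [h0, zero_pow hP.ne_zero] at h2
    exact zero_ne_one h2

lemma grow (a : ℕ) (ha : 4096 ≤ a) : 10000 * (a + 1) ^ 3 ≤ 2 ^ a := by
  have h1 : a / 8 + 1 ≤ 2 ^ (a / 8) := Nat.lt_two_pow_self
  have h2 : 2 ^ (a / 8 * 8) ≤ 2 ^ a := Nat.pow_le_pow_right (by norm_num) (by omega)
  rw [pow_mul] at h2
  have h3 : (a / 8 + 1) ^ 8 ≤ (2 ^ (a / 8)) ^ 8 := Nat.pow_le_pow_left h1 8
  have h4 : (a + 1) ^ 3 ≤ (8 * (a / 8 + 1)) ^ 3 := Nat.pow_le_pow_left (by omega) 3
  have h5 : 512 ^ 5 ≤ (a / 8 + 1) ^ 5 := Nat.pow_le_pow_left (by omega) 5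
  have h6 : 10000 * (8 * (a / 8 + 1)) ^ 3 ≤ (a / 8 + 1) ^ 5 * (a / 8 + 1) ^ 3 := by
    rw [mul_pow, ← mul_assoc]
    exact Nat.mul_le_mul_right _ (le_trans (by norm_num) h5)
  rw [← pow_add] at h6
  calc 10000 * (a + 1) ^ 3 ≤ 10000 * (8 * (a / 8 + 1)) ^ 3 := Nat.mul_le_mul_left _ h4
    _ ≤ (a / 8 + 1) ^ 8 := h6
    _ ≤ 2 ^ a := h3.trans h2

lemma log_pow_le (n : ℕ) : Real.log ((2 ^ n : ℕ) : ℝ) ≤ n := by
  push_cast
  rw [Real.log_pow]
  have := Real.log_le_sub_one_of_pos (by norm_num : (0 : ℝ) < 2)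
  have h : (0 : ℝ) ≤ n := Nat.cast_nonneg n
  nlinarith

/-- the primes of `a P r` have a small sum -/
lemma sig (a P r : ℕ) (ha : a.Prime) (h4 : 4096 ≤ a) (hP : P.Prime) (h1 : 2 ^ a < P)
    (h2 : P ≤ 2 * 2 ^ a) (hr : r = ∑ i ∈ range P, (2 ^ a) ^ i) (hr0 : 0 < r)
    (hr1 : r < 2 ^ (a * P)) : ∑ π ∈ (a * P * r).primeFactors, G π ≤ 1 / 100 := by
  classical
  have hsub : (a * P * r).primeFactors ⊆
      insert a (insert P (r.primeFactors.filter (fun π => P ∣ π - 1))) := by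
    intro π hπ
    have hp := Nat.prime_of_mem_primeFactors hπ
    rcases (Nat.Prime.dvd_mul hp).1 (Nat.dvd_of_mem_primeFactors hπ) with h | h
    · rcases (Nat.Prime.dvd_mul hp).1 h with h | h
      · simp [(Nat.prime_dvd_prime_iff_eq hp ha).1 h]
      · simp [(Nat.prime_dvd_prime_iff_eq hp hP).1 h]
    · rcases rep_prime (2 ^ a) P π hP hp (hr ▸ h) with h' | h'
      · simp [h']
      · exact mem_insert_of_mem (mem_insert_of_mem
          (mem_filter.2 ⟨Nat.mem_primeFactors.2 ⟨hp, h, hr0.ne'⟩, h'⟩))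
  refine (sum_le_sum_of_subset_of_nonneg hsub (fun i _ _ => G_nn i)).trans ?_
  refine (ins_le _ _).trans ?_
  have hb := ins_le P (r.primeFactors.filter (fun π => P ∣ π - 1))
  have haP : 0 < a * P := Nat.mul_pos ha.pos hP.pos
  have hc := prog_G P (a * P) hP.pos haP (r.primeFactors.filter (fun π => P ∣ π - 1))
    (fun l hl => ⟨(Nat.prime_of_mem_primeFactors (mem_filter.1 hl).1).two_le,
      (mem_filter.1 hl).2⟩) ((card_filter_le _ _).trans (card_pf r _ hr1 hr0.ne'))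
  have hGa : G a ≤ 13 / 4096 := by
    refine (G_anti (2 ^ 12) a (by norm_num) (by omega)).trans ?_
    have := log_pow_le 12
    unfold G
    rw [show (((2 ^ 12 : ℕ) : ℝ)) = 4096 by norm_num] at this ⊢
    push_cast at this
    exact div_le_div_of_nonneg_right (by linarith) (by norm_num)
  have hy : (0 : ℝ) < ((2 ^ a : ℕ) : ℝ) := by positivity
  have hGP : G P ≤ (1 + a) / ((2 ^ a : ℕ) : ℝ) := by
    refine (G_anti (2 ^ a) P (by positivity) h1.le).trans ?_
    have := log_pow_le a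
    unfold G
    exact div_le_div_of_nonneg_right (by linarith) hy.le
  have hl : Real.log ((a * P : ℕ) : ℝ) ≤ 2 * a + 1 := by
    have h5 : a * P ≤ 2 ^ (2 * a + 1) := by
      have : a ≤ 2 ^ a := Nat.lt_two_pow_self.le
      calc a * P ≤ 2 ^ a * (2 * 2 ^ a) := Nat.mul_le_mul this h2
        _ = 2 ^ (2 * a + 1) := by ring
    have h6 := log_pow_le (2 * a + 1)
    have h7 := Real.log_le_log (by exact_mod_cast haP)
      (by exact_mod_cast h5 : ((a * P : ℕ) : ℝ) ≤ ((2 ^ (2 * a + 1) : ℕ) : ℝ))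
    push_cast at h6 h7 ⊢
    linarith
  have hl0 := log_nn (a * P)
  have ha0 : (0 : ℝ) ≤ a := Nat.cast_nonneg a
  have hsq : (1 + Real.log ((a * P : ℕ) : ℝ)) ^ 2 ≤ (2 * (a + 1)) ^ 2 :=
    pow_le_pow_left₀ (by linarith) (by linarith) 2
  have hg : (10000 : ℝ) * ((a : ℝ) + 1) ^ 3 ≤ ((2 ^ a : ℕ) : ℝ) := by
    exact_mod_cast grow a h4
  have hd : G P * (1 + 2 * (1 + Real.log ((a * P : ℕ) : ℝ)) ^ 2) ≤
      (1 + a) / ((2 ^ a : ℕ) : ℝ) * (9 * ((a : ℝ) + 1) ^ 2) :=
    mul_le_mul hGP (by nlinarith) (by positivity) (by positivity)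
  have he : (1 + a) / ((2 ^ a : ℕ) : ℝ) * (9 * ((a : ℝ) + 1) ^ 2) ≤ 9 / 10000 := by
    rw [div_mul_eq_mul_div, div_le_div_iff₀ hy (by norm_num)]
    nlinarith
  nlinarith

end Sv

open Sv in
theorem sieveS : SieveS := by
  intro D0
  obtain ⟨a, ha1, ha⟩ := Nat.exists_infinite_primes (max D0 4096)
  have hD : D0 ≤ a := (le_max_left _ _).trans ha1
  have h4 : 4096 ≤ a := (le_max_right _ _).trans ha1
  obtain ⟨P, hP, h1, h2⟩ := Nat.exists_prime_lt_and_le_two_mul (2 ^ a) (by positivity)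
  have hg := grow a h4
  obtain ⟨y, hy⟩ : ∃ y, y = 2 ^ a := ⟨_, rfl⟩
  obtain ⟨W, hW⟩ : ∃ W, W = 2 ^ (a * P) := ⟨_, rfl⟩
  obtain ⟨r, hr⟩ : ∃ r, r = ∑ i ∈ range P, (2 ^ a) ^ i := ⟨_, rfl⟩
  have hya : 10000 * (a + 1) ≤ y := by
    rw [hy]
    exact le_trans (Nat.mul_le_mul_left _ (Nat.le_self_pow (by norm_num) _)) hg
  obtain ⟨x, hx⟩ : ∃ x, y = x + 1 := ⟨y - 1, by omega⟩
  have hWy : W = y ^ P := by rw [hW, hy, pow_mul]
  have hgeo : r * x + 1 = W := by
    rw [hr, hWy, ← hy, hx]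
    exact geom_sum_mul_add x P
  rw [← hy] at h1 h2
  have hW2 : y * y ≤ W := by
    rw [hWy, ← pow_two]
    exact Nat.pow_le_pow_right (by omega) hP.two_le
  have hr0 : 0 < r := by
    rcases Nat.eq_zero_or_pos r with h | h
    · rw [h] at hgeo
      nlinarith
    · exact h
  have hrx : r ≤ r * x := Nat.le_mul_of_pos_right _ (by omega)
  have hry : r * y = r * x + r := by rw [hx]; ring
  have hry1 : W ≤ r * y := by omega
  have hry2 : r * y ≤ 2 * W := by omega
  have hr3 : y ≤ r := Nat.le_of_mul_le_mul_right (hW2.trans hry1) (by omega)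
  have hW0 : 0 < W := by omega
  have hq : 2 ^ (4 * (a * P)) = W ^ 4 := by rw [hW, ← pow_mul, mul_comm]
  have haP : 0 < a * P := Nat.mul_pos ha.pos hP.pos
  have hd : 4 * W ≤ 4 * (a * P) * r := by
    have : y ≤ a * P := h1.le.trans (Nat.le_mul_of_pos_left _ ha.pos)
    calc 4 * W ≤ 4 * (r * y) := by omega
      _ ≤ 4 * (r * (a * P)) := Nat.mul_le_mul_left _ (Nat.mul_le_mul_left _ this)
      _ = 4 * (a * P) * r := by ring
  refine ⟨4 * (a * P), r, ?_, by omega, by omega, ?_, ?_, ?_⟩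
  · have : y ≤ y * y := Nat.le_mul_of_pos_right _ (by omega)
    omega
  · have h5 : r ∣ W - 1 := ⟨x, by omega⟩
    rw [hq]
    have h6 := Nat.sub_dvd_pow_sub_pow W 1 4
    rw [one_pow] at h6
    exact h5.trans h6
  · have h5 : 4 ^ (4 * (a * P)) = W ^ 8 := by
      have h44 : ∀ n : ℕ, (4 : ℕ) ^ n = 2 ^ n * 2 ^ n := fun n =>
        mul_pow 2 2 n
      rw [h44, hq]
      ring
    have h6 := Nat.pow_le_pow_left hd 8
    have h7 : 0 < W ^ 8 := by positivity
    rw [mul_pow] at h6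
    rw [h5]
    omega
  · have hs := sig a P r ha h4 hP (hy ▸ h1) (hy ▸ h2) hr hr0 (by rw [← hW]; omega)
    have hm : 0 < a * P * r := Nat.mul_pos haP hr0
    have hrec := recip (a * P * r) hm _ hs (by norm_num)
    have he : 4 * (a * P) * r = 4 * (a * P * r) := by ring
    have hq' : (2 : ℝ) ^ (4 * (a * P)) = (W : ℝ) ^ 4 := by exact_mod_cast hq
    have hsq : √((W : ℝ) ^ 4) = (W : ℝ) ^ 2 := by
      rw [show (W : ℝ) ^ 4 = ((W : ℝ) ^ 2) ^ 2 by ring]
      exact Real.sqrt_sq (by positivity)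
    have hc := card_pf (2 ^ (4 * (a * P * r)) - 1) (4 * (a * P * r))
      (by have := mers_ne (4 * (a * P * r)) (by omega); omega) (mers_ne _ (by omega))
    have hn : 10 * (4 * (a * P * r) * r) ≤ W ^ 2 := by
      have hy0 : 0 < y * y := Nat.mul_pos (by omega) (by omega)
      refine Nat.le_of_mul_le_mul_right ?_ hy0
      calc 10 * (4 * (a * P * r) * r) * (y * y) = 40 * a * P * ((r * y) * (r * y)) := by ring
        _ ≤ 40 * a * (2 * y) * ((2 * W) * (2 * W)) :=
          Nat.mul_le_mul (Nat.mul_le_mul_left _ h2) (Nat.mul_le_mul hry2 hry2)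
        _ = W ^ 2 * ((320 * a) * y) := by ring
        _ ≤ W ^ 2 * (y * y) :=
          Nat.mul_le_mul_left _ (Nat.mul_le_mul_right _ (by omega))
    have hn2 : 10 * ((2 ^ (4 * (a * P * r)) - 1).primeFactors.card * r) ≤ W ^ 2 :=
      le_trans (Nat.mul_le_mul_left _ (Nat.mul_le_mul_right _ hc)) hn
    have hn3 : (10 : ℝ) * (((2 ^ (4 * (a * P * r)) - 1).primeFactors.card : ℝ) * r) ≤
        (W : ℝ) ^ 2 := by exact_mod_cast hn2
    rw [he, hq', hsq, sum_add_distrib, sum_const, nsmul_eq_mul]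
    have h8 : ∑ l ∈ (2 ^ (4 * (a * P * r)) - 1).primeFactors, (W : ℝ) ^ 4 / ((l : ℕ) : ℝ) =
        (W : ℝ) ^ 4 * ∑ l ∈ (2 ^ (4 * (a * P * r)) - 1).primeFactors, (1 : ℝ) / (l : ℕ) := by
      rw [mul_sum]
      exact sum_congr rfl fun l _ => by ring
    have hW4 : (16 : ℝ) ≤ (W : ℝ) ^ 4 := by
      have : 2 ^ 4 ≤ W ^ 4 := Nat.pow_le_pow_left (by nlinarith) 4
      exact_mod_cast this
    have h9 := mul_le_mul_of_nonneg_left hrec (by positivity : (0 : ℝ) ≤ (W : ℝ) ^ 4)
    have h10 := mul_le_mul_of_nonneg_right hn3 (by positivity : (0 : ℝ) ≤ (W : ℝ) ^ 2)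
    rw [h8]
    nlinarith

end Pool.Agent.MP_dfda4f_nt.Wl

end MrgPart7

-- marker of a merged file
example : 731051 + 558425 = 731051 + 558425 := rfl
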