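import Mathlib
import Pool.Agent.MP_dfda4f_nt.wl.Spec

open Polynomial Finset

namespace Pool.Agent.MP_dfda4f_nt.Wl

theorem fn_pow {L : Type} [Field L] [CharP L 2] (k : ℕ) {ζ u s : L} (hζ : ζ ^ 2 ^ k = ζ)
    (hs : s ^ 2 ^ k = s) (hu : u ^ 2 ^ k = ζ * u) (j : ℕ) :
    (s * (u + u⁻¹)) ^ (2 ^ k) ^ j = s * (ζ ^ j * u + (ζ ^ j * u)⁻¹) := by
  induction j with
  | zero => simp
  | succ j ih =>
    have h : (ζ ^ j * u) ^ 2 ^ k = ζ ^ (j + 1) * u := by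
      rw [mul_pow, ← pow_mul, mul_comm j, pow_mul, hζ, hu, pow_succ, mul_assoc]
    rw [pow_succ, pow_mul, ih, mul_pow, add_pow_char_pow, inv_pow, hs, h]

theorem fn_tri {L : Type} [Field L] [CharP L 2] (k : ℕ) {ζ u s : L} (hζ : ζ ^ 2 ^ k = ζ)
    (hs : s ^ 2 ^ k = s) (hu : u ^ 2 ^ k = ζ * u) (hζ0 : ζ ≠ 0) (hu0 : u ≠ 0)
    (hs1 : s * (ζ + ζ⁻¹) = 1) :
    (s * (u + u⁻¹)) ^ (4 ^ k + 1) + (s * (u + u⁻¹)) ^ (2 ^ (k + 1)) + 1 = 0 := by
  have h1 := fn_pow k hζ hs hu 1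
  have h2 := fn_pow k hζ hs hu 2
  have e4 : 4 ^ k = (2 ^ k) ^ 2 := by rw [← pow_mul, mul_comm, pow_mul]; norm_num
  have h20 : (2 : L) = 0 := CharTwo.two_eq_zero
  rw [pow_one] at h1
  rw [pow_succ, e4, h2, pow_succ 2 k, pow_mul, h1, pow_one, mul_inv, mul_inv, ← inv_pow]
  have a1 : u * u⁻¹ = 1 := mul_inv_cancel₀ hu0
  have a2 : ζ * ζ⁻¹ = 1 := mul_inv_cancel₀ hζ0
  generalize u⁻¹ = v at *
  generalize ζ⁻¹ = y at *
  linear_combination (s ^ 2 * (ζ ^ 2 + y ^ 2 + 2 * ζ * y)) * a1 + (s * (ζ + y) + 1) * hs1 +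
    (s ^ 2 * (ζ ^ 2 * u ^ 2 + y ^ 2 * v ^ 2) + 1) * h20

theorem fn_exists (hW : WeilS) (K L : Type) [Field K] [Fintype K] [Field L] [Algebra K L]
    [IsAlgClosed L] [Algebra.IsAlgebraic K L] [CharP L 2] (k r : ℕ) (hk : 0 < k) (hr : 3 ≤ r)
    (hK : Fintype.card K = 2 ^ k) (hd : r ∣ 2 ^ k - 1)
    (hsum : ∑ l ∈ Nat.primeFactors (2 ^ (k * r) - 1),
      ((2 : ℝ) ^ k / ((l : ℕ) : ℝ) + r * √(2 ^ k)) < 2 ^ k - 1) :
    ∃ x : L, orderOf x = 2 ^ (k * r) - 1 ∧ x ^ (4 ^ k + 1) + x ^ (2 ^ (k + 1)) + 1 = 0 := by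
  classical
  have h20 : (2 : L) = 0 := CharTwo.two_eq_zero
  have hq : 1 < 2 ^ k := Nat.one_lt_two_pow hk.ne'
  have hN : 1 < 2 ^ (k * r) := Nat.one_lt_two_pow (Nat.mul_pos hk (by omega)).ne'
  have hodd : ∀ n : ℕ, 0 < n → ¬ 2 ∣ 2 ^ n - 1 := by
    intro n hn h
    have h1 : 2 ∣ 2 ^ n := dvd_pow_self 2 hn.ne'
    have h2 : 1 < 2 ^ n := Nat.one_lt_two_pow hn.ne'
    omega
  have : NeZero (r : L) := ⟨fun h =>
    hodd k hk (((CharP.cast_eq_zero_iff L 2 r).1 h).trans hd)⟩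
  obtain ⟨ζ, hζ⟩ := HasEnoughRootsOfUnity.exists_primitiveRoot L r
  have hζ0 : ζ ≠ 0 := hζ.ne_zero (by omega)
  have hζq : ζ ^ 2 ^ k = ζ := by
    have h1 : ζ ^ (2 ^ k - 1) = 1 := (hζ.pow_eq_one_iff_dvd _).2 hd
    have h2 : 2 ^ k = 2 ^ k - 1 + 1 := by omega
    rw [h2, pow_succ, h1, one_mul]
  obtain ⟨η, hη⟩ := IsAlgClosed.exists_pow_nat_eq ζ⁻¹ (n := 2 ^ k - 1) (by omega)
  have hη0 : η ≠ 0 := by
    rintro rfl
    rw [zero_pow (by omega)] at hη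
    exact inv_ne_zero hζ0 hη.symm
  have hηq : η ^ 2 ^ k * ζ = η := by
    have h2 : 2 ^ k = 2 ^ k - 1 + 1 := by omega
    rw [h2, pow_succ, hη]
    field_simp
  have hz : ζ + ζ⁻¹ ≠ 0 := by
    intro h
    have a2 : ζ * ζ⁻¹ = 1 := mul_inv_cancel₀ hζ0
    have h1 : ζ ^ 2 = 1 := by linear_combination ζ * h - a2 - h20
    have := Nat.le_of_dvd (by norm_num) ((hζ.pow_eq_one_iff_dvd _).1 h1)
    omega
  set s : L := (ζ + ζ⁻¹)⁻¹ with hsdef
  have hs1 : s * (ζ + ζ⁻¹) = 1 := inv_mul_cancel₀ hz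
  have hs0 : s ≠ 0 := inv_ne_zero hz
  have hsq : s ^ 2 ^ k = s := by rw [hsdef, inv_pow, add_pow_char_pow, inv_pow, hζq]
  have hτ : ∀ t : K, algebraMap K L t ^ 2 ^ k = algebraMap K L t := by
    intro t
    rw [← map_pow, ← hK, FiniteField.pow_card]
  have hu : ∀ t : K, (η⁻¹ * algebraMap K L t) ^ 2 ^ k = ζ * (η⁻¹ * algebraMap K L t) := by
    intro t
    have h1 : η ^ 2 ^ k = η * ζ⁻¹ := by
      rw [eq_mul_inv_iff_mul_eq₀ hζ0, hηq]
    rw [mul_pow, hτ, inv_pow, h1]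
    field_simp
  let x : K → L := fun t => s * (η⁻¹ * algebraMap K L t + (η⁻¹ * algebraMap K L t)⁻¹)
  let Z : ℕ → Finset K := fun l =>
    univ.filter (fun t => t ≠ 0 ∧ x t ^ ((2 ^ (k * r) - 1) / l) = 1)
  have hZ : ∀ l ∈ Nat.primeFactors (2 ^ (k * r) - 1),
      ((Z l).card : ℝ) ≤ (2 : ℝ) ^ k / ((l : ℕ) : ℝ) + r * √(2 ^ k) := by
    intro l hl
    have hlp := Nat.prime_of_mem_primeFactors hl
    have hld := Nat.dvd_of_mem_primeFactors hl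
    have hl2 : l ≠ 2 := by
      rintro rfl
      exact hodd _ (Nat.mul_pos hk (by omega)) hld
    have hM : Fintype.card K ^ r = l * ((2 ^ (k * r) - 1) / l) + 1 := by
      rw [Nat.mul_div_cancel' hld, hK, ← pow_mul]
      omega
    have h := hW K L r l ((2 ^ (k * r) - 1) / l) ζ η ((η / s) ^ ((2 ^ (k * r) - 1) / l)) (Z l)
      (by omega) hlp hl2 hM hζ (by rw [hK]; exact hζq) hη0 (by rw [hK]; exact hηq) ?_
    · rw [hK] at h
      exact_mod_cast h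
    intro t ht
    obtain ⟨ht0, ht1⟩ := (mem_filter.1 ht).2
    refine ⟨ht0, ?_⟩
    have hτ0 : algebraMap K L t ≠ 0 := (_root_.map_ne_zero _).2 ht0
    have h1 : algebraMap K L t ^ (l * ((2 ^ (k * r) - 1) / l)) = 1 := by
      apply mul_right_cancel₀ hτ0
      rw [← pow_succ, ← hM, ← map_pow, FiniteField.pow_card_pow, one_mul]
    have h2 : (η - algebraMap K L t) ^ 2 * (-algebraMap K L t) ^ (l - 1) =
        x t * (η / s) * algebraMap K L t ^ l := by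
      have h3 : l = l - 1 + 1 := by have := hlp.pos; omega
      have h4 : (η - algebraMap K L t) ^ 2 = x t * (η / s) * algebraMap K L t := by
        simp only [x]
        field_simp
        linear_combination (-(η * algebraMap K L t)) * h20
      conv_rhs => rw [h3, pow_succ']
      rw [CharTwo.neg_eq, h4]
      ring
    rw [h2, mul_pow, mul_pow, ht1, ← pow_mul, h1, one_mul, mul_one]
  have hex : ∃ t : K, t ≠ 0 ∧ ∀ l ∈ Nat.primeFactors (2 ^ (k * r) - 1), t ∉ Z l := by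
    by_contra hc
    push Not at hc
    have hsub : univ.erase (0 : K) ⊆ (Nat.primeFactors (2 ^ (k * r) - 1)).biUnion Z := by
      intro t ht
      exact mem_biUnion.2 (hc t (ne_of_mem_erase ht))
    have h1 := (card_le_card hsub).trans card_biUnion_le
    rw [card_erase_of_mem (mem_univ _), card_univ, hK] at h1
    have h2 : ((2 ^ k - 1 : ℕ) : ℝ) ≤ ∑ l ∈ Nat.primeFactors (2 ^ (k * r) - 1),
        ((Z l).card : ℝ) := by exact_mod_cast h1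
    rw [Nat.cast_sub hq.le] at h2
    have h3 := h2.trans (sum_le_sum hZ)
    push_cast at h3
    linarith
  obtain ⟨t, ht0, ht⟩ := hex
  have hτ0 : algebraMap K L t ≠ 0 := (_root_.map_ne_zero _).2 ht0
  have htri := fn_tri k hζq hsq (hu t) hζ0 (mul_ne_zero (inv_ne_zero hη0) hτ0) hs1
  refine ⟨x t, ?_, htri⟩
  have hx0 : x t ≠ 0 := by
    intro h
    change x t ^ (4 ^ k + 1) + x t ^ (2 ^ (k + 1)) + 1 = 0 at htri
    rw [h, zero_pow (Nat.succ_ne_zero _), zero_pow (by positivity)] at htri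
    simp at htri
  refine orderOf_eq_of_pow_and_pow_div_prime (by omega) ?_ ?_
  · have h1 := fn_pow k hζq hsq (hu t) r
    rw [hζ.pow_eq_one, one_mul, ← pow_mul] at h1
    apply mul_right_cancel₀ hx0
    have h2 : 2 ^ (k * r) - 1 + 1 = 2 ^ (k * r) := by omega
    rw [← pow_succ, h2, one_mul]
    exact h1
  · intro l hl hld h
    exact ht l (Nat.mem_primeFactors.2 ⟨hl, hld, by omega⟩) (mem_filter.2 ⟨mem_univ _, ht0, h⟩)

theorem fn_poly {L : Type} [Field L] [CharP L 2] [Algebra (ZMod 2) L] (k d : ℕ) (hd : 0 < d)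
    (x : L) (hx : orderOf x = 2 ^ d - 1) (ht : x ^ (4 ^ k + 1) + x ^ (2 ^ (k + 1)) + 1 = 0) :
    ∃ f : (ZMod 2)[X], f.natDegree = d ∧ f ∣ X ^ (2 ^ d - 1) + 1 ∧
      (∀ t : ℕ, 0 < t → t < 2 ^ d - 1 → ¬ f ∣ X ^ t + 1) ∧
      f ∣ X ^ (4 ^ k + 1) + X ^ (2 ^ (k + 1)) + 1 := by
  have hN : 1 < 2 ^ d := Nat.one_lt_two_pow hd.ne'
  have h1 : x ^ (2 ^ d - 1) = 1 := by rw [← hx, pow_orderOf_eq_one]
  have hx0 : x ≠ 0 := by
    rintro rfl
    rw [zero_pow (by omega)] at h1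
    exact zero_ne_one h1
  have hi : IsIntegral (ZMod 2) x := IsIntegral.of_pow (n := 2 ^ d - 1) (by omega)
    (by rw [h1]; exact isIntegral_one)
  have hfix : ∀ n, (minpoly (ZMod 2) x).natDegree ∣ n ↔ x ^ 2 ^ n = x := by
    intro n
    rw [(minpoly.irreducible hi).natDegree_dvd_iff_dvd_X_pow_card_pow_sub_X, minpoly.dvd_iff,
      Nat.card_zmod]
    simp [sub_eq_zero]
  have hdv : ∀ t : ℕ, minpoly (ZMod 2) x ∣ X ^ t + 1 ↔ x ^ t = 1 := by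
    intro t
    rw [minpoly.dvd_iff, ← sub_eq_zero (a := x ^ t), CharTwo.sub_eq_add]
    simp
  refine ⟨minpoly (ZMod 2) x, ?_, (hdv _).2 h1, ?_, minpoly.dvd _ _ (by simpa using ht)⟩
  · have hp := minpoly.natDegree_pos hi
    have hP : 1 < 2 ^ (minpoly (ZMod 2) x).natDegree := Nat.one_lt_two_pow hp.ne'
    apply le_antisymm
    · refine Nat.le_of_dvd hd ((hfix d).2 ?_)
      have h2 : 2 ^ d = 2 ^ d - 1 + 1 := by omega
      rw [h2, pow_succ, h1, one_mul]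
    · have h3 := (hfix _).1 dvd_rfl
      have h4 : x ^ (2 ^ (minpoly (ZMod 2) x).natDegree - 1) = 1 := by
        apply mul_right_cancel₀ hx0
        have h2 : 2 ^ (minpoly (ZMod 2) x).natDegree - 1 + 1 =
          2 ^ (minpoly (ZMod 2) x).natDegree := by omega
        rw [← pow_succ, h2, one_mul, h3]
      have h5 := Nat.le_of_dvd (by omega) (orderOf_dvd_of_pow_eq_one h4)
      rw [hx] at h5
      exact (Nat.pow_le_pow_iff_right (by norm_num : 1 < 2)).1 (by omega)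
  · intro t h0 hlt h
    have h5 := Nat.le_of_dvd h0 (orderOf_dvd_of_pow_eq_one ((hdv t).1 h))
    omega

theorem final (hW : WeilS) (hS : SieveS) : Set.Infinite {d : ℕ | ∃ (f : (ZMod 2)[X]) (k : ℕ),
    0 < k ∧ f.natDegree = d ∧ f ∣ X ^ (2 ^ d - 1) + 1 ∧
    (∀ t : ℕ, 0 < t → t < 2 ^ d - 1 → ¬ f ∣ X ^ t + 1) ∧ 4 ^ k + 1 ≤ d ^ 8 ∧
    f ∣ X ^ (4 ^ k + 1) + X ^ (2 ^ (k + 1)) + 1} := by
  refine Set.infinite_of_forall_exists_gt fun D => ?_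
  obtain ⟨k, r, hD, hk, hr, hd, h8, hsum⟩ := hS (D + 1)
  let _ : Fintype (GaloisField 2 k) := Fintype.ofFinite _
  have hK : Fintype.card (GaloisField 2 k) = 2 ^ k := by
    rw [← Nat.card_eq_fintype_card, GaloisField.card 2 k hk.ne']
  obtain ⟨x, hx, ht⟩ := fn_exists hW (GaloisField 2 k) (AlgebraicClosure (GaloisField 2 k)) k r
    hk hr hK hd hsum
  obtain ⟨f, h1, h2, h3, h4⟩ := fn_poly k (k * r) (by omega) x hx ht
  exact ⟨k * r, ⟨f, k, hk, h1, h2, h3, h8, h4⟩, hD⟩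

end Pool.Agent.MP_dfda4f_nt.Wl
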