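import Mathlib.FieldTheory.KummerExtension
import Pool.Agent.MP_dfda4f_nt.wl.Sieve

open Polynomial Finset

namespace Pool.Agent.MP_dfda4f_nt.Wl

theorem exists_B {L : Type} [Field L] [IsAlgClosed L] [CharP L 2] (j : ℕ) (hj : 0 < j) {ζ u : L}
    (hζ : ζ ^ 2 ^ j = ζ) (hζ0 : ζ ≠ 0) (hz : ζ + ζ⁻¹ ≠ 0) (hu0 : u ^ 2 ^ j + u ≠ 0)
    (hu : u ^ 2 ^ (5 * j) = ζ ^ 2 * u) :
    ∃ B : L, B ^ (2 ^ j + 1) * ((u ^ 2 ^ j + u) * (ζ + ζ⁻¹)) = 1 ∧ B ^ 2 ^ (5 * j) * ζ = B := by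
  have hQ : 2 ^ (5 * j) = (2 ^ j) ^ 5 := by rw [← pow_mul, mul_comm]
  have hζQ : ζ ^ 2 ^ (5 * j) = ζ := by rw [hQ]; exact pow_pow_fix hζ 5
  set w := (u ^ 2 ^ j + u) * (ζ + ζ⁻¹) with hw
  have hw0 : w ≠ 0 := mul_ne_zero hu0 hz
  have hwQ : w ^ 2 ^ (5 * j) = ζ ^ 2 * w := by
    rw [hw, mul_pow, add_pow_char_pow, add_pow_char_pow, inv_pow, hζQ, ← pow_mul, mul_comm (2 ^ j),
      pow_mul, hu, mul_pow, ← pow_mul ζ, mul_comm 2, pow_mul ζ, hζ]
    ring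
  obtain ⟨B0, hB0⟩ := IsAlgClosed.exists_pow_nat_eq w⁻¹ (n := 2 ^ j + 1) (Nat.succ_pos _)
  have hB00 : B0 ≠ 0 := by
    rintro rfl
    rw [zero_pow (Nat.succ_ne_zero _)] at hB0
    exact inv_ne_zero hw0 hB0.symm
  set ν := B0 ^ 2 ^ (5 * j) * ζ / B0 with hν
  have hν1 : ν ^ (2 ^ j + 1) = 1 := by
    rw [hν, div_pow, mul_pow, ← pow_mul, mul_comm (2 ^ (5 * j)), pow_mul, hB0, inv_pow, hwQ,
      pow_succ ζ (2 ^ j), hζ]
    field_simp
  obtain ⟨i, rfl⟩ : ∃ i, j = i + 1 := ⟨j - 1, by omega⟩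
  set ρ := ν ^ (2 ^ i + 1) with hρ
  have hρ1 : ρ ^ (2 ^ (i + 1) + 1) = 1 := by rw [hρ, ← pow_mul, mul_comm, pow_mul, hν1, one_pow]
  have hρ2 : ρ ^ 2 = ν := by
    have : (2 ^ i + 1) * 2 = (2 ^ (i + 1) + 1) + 1 := by ring
    rw [hρ, ← pow_mul, this, pow_succ, hν1, one_mul]
  have hρ0 : ρ ≠ 0 := by
    intro h
    rw [h, zero_pow (Nat.succ_ne_zero _)] at hρ1
    exact zero_ne_one hρ1
  have hρs : ρ ^ 2 ^ (i + 1) = ρ⁻¹ := eq_inv_of_mul_eq_one_left (by rw [← pow_succ, hρ1])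
  have hρQ : ρ ^ 2 ^ (5 * (i + 1)) = ρ⁻¹ := by
    rw [hQ, show ∀ s : ℕ, s ^ 5 = s * s * s * s * s from fun s => by ring]
    simp only [pow_mul, inv_pow, hρs, inv_inv]
  refine ⟨ρ * B0, ?_, ?_⟩
  · rw [mul_pow, hρ1, hB0, one_mul, inv_mul_cancel₀ hw0]
  · have h1 : B0 ^ 2 ^ (5 * (i + 1)) * ζ = ρ ^ 2 * B0 := by rw [hρ2, hν]; field_simp
    rw [mul_pow, hρQ, mul_assoc, h1]
    field_simp

theorem root_pow {L : Type} [Field L] [CharP L 2] (k : ℕ) {ζ u B : L} (hζ : ζ ^ 2 ^ k = ζ)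
    (hζ0 : ζ ≠ 0) (hu : u ^ 2 ^ k = ζ ^ 2 * u) (hB : B ^ 2 ^ k * ζ = B) (i : ℕ) :
    (B * (u + 1)) ^ (2 ^ k) ^ i = B * (ζ ^ i * u + ζ⁻¹ ^ i) := by
  have hB' : B ^ 2 ^ k = B * ζ⁻¹ := by rw [eq_mul_inv_iff_mul_eq₀ hζ0, hB]
  induction i with
  | zero => simp
  | succ i ih =>
    have h : (ζ ^ i) ^ 2 ^ k = ζ ^ i := by rw [← pow_mul, mul_comm, pow_mul, hζ]
    rw [pow_succ, pow_mul, ih, mul_pow, add_pow_char_pow, mul_pow, inv_pow, inv_pow, h, hB', hu,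
      inv_pow]
    field_simp
    ring

theorem root_tri {L : Type} [Field L] [CharP L 2] (j k : ℕ) {ζ u B : L} (hζ : ζ ^ 2 ^ k = ζ)
    (hζj : ζ ^ 2 ^ j = ζ) (hζ0 : ζ ≠ 0) (hu : u ^ 2 ^ k = ζ ^ 2 * u) (hB : B ^ 2 ^ k * ζ = B)
    (hB1 : B ^ (2 ^ j + 1) * ((u ^ 2 ^ j + u) * (ζ + ζ⁻¹)) = 1) :
    (B * (u + 1)) ^ (2 ^ (k + j) + 1) + (B * (u + 1)) ^ (2 ^ k + 2 ^ j) + 1 = 0 := by
  have h1 := root_pow k hζ hζ0 hu hB 1
  have h20 : (2 : L) = 0 := CharTwo.two_eq_zero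
  simp only [pow_one] at h1
  rw [pow_succ, pow_add 2, pow_mul, pow_add, h1, mul_pow, mul_pow, add_pow_char_pow,
    add_pow_char_pow, mul_pow, inv_pow, hζj, one_pow]
  rw [pow_succ] at hB1
  generalize B ^ 2 ^ j = b at *
  generalize u ^ 2 ^ j = v at *
  generalize ζ⁻¹ = y at *
  linear_combination hB1 + (b * B * (ζ * v * u + y) + 1) * h20

theorem not_dvd6 {l j : ℕ} (hl : l.Prime) (hj : 0 < j)
    (hd : l ∣ 2 ^ (5 * j * (2 ^ j - 1)) - 1) :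
    ¬ l ∣ 2 ^ j + 1 + (l - 1) * ∑ i ∈ range (2 ^ j - 1), (2 ^ (5 * j)) ^ i := by
  have := Fact.mk hl
  intro h
  have h1 : (1 : ℕ) ≤ 2 ^ j := Nat.one_le_two_pow
  have hodd : Odd (2 ^ j - 1) := Nat.Even.sub_odd h1 ((Nat.even_pow' hj.ne').2 even_two) odd_one
  have h2 : ((2 : ZMod l) ^ (5 * j)) ^ (2 ^ j - 1) = 1 := by
    have := (ZMod.natCast_eq_zero_iff _ _).2 hd
    rw [Nat.cast_sub Nat.one_le_two_pow, sub_eq_zero] at this
    rw [← pow_mul]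
    exact_mod_cast this
  have h20 : (2 : ZMod l) ≠ 0 := by
    intro h0
    rw [h0, zero_pow (by omega), zero_pow hodd.pos.ne'] at h2
    exact zero_ne_one h2
  have h3 := (ZMod.natCast_eq_zero_iff _ _).2 h
  push_cast [Nat.cast_sub hl.one_lt.le] at h3
  rw [ZMod.natCast_self] at h3
  have h4 := mul_geom_sum ((2 : ZMod l) ^ (5 * j)) (2 ^ j - 1)
  rw [h2, sub_self] at h4
  rcases mul_eq_zero.1 h4 with h5 | h5
  · rw [sub_eq_zero] at h5
    simp only [h5, one_pow, sum_const, card_range, nsmul_eq_mul, mul_one, Nat.cast_sub h1] at h3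
    push_cast at h3
    exact h20 (by linear_combination h3)
  · rw [h5] at h3
    have h6 : (2 : ZMod l) ^ j = -1 := by linear_combination h3
    rw [mul_comm 5, pow_mul, h6, (by decide : Odd 5).neg_one_pow, hodd.neg_one_pow] at h2
    exact h20 (by linear_combination -h2)

theorem exists6 (K L : Type) [Field K] [Fintype K] [Field L] [Algebra K L]
    [IsAlgClosed L] [Algebra.IsAlgebraic K L] [CharP L 2] (j : ℕ) (hj : 2 ≤ j)
    (hK : Fintype.card K = 2 ^ (5 * j))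
    (hsum : ∑ l ∈ Nat.primeFactors (2 ^ (5 * j * (2 ^ j - 1)) - 1),
      ((2 : ℝ) ^ (5 * j) / ((l : ℕ) : ℝ) + ((2 ^ j - 1 : ℕ) : ℝ) * √(2 ^ (5 * j))) <
        2 ^ (5 * j) - 1) :
    ∃ x : L, orderOf x = 2 ^ (5 * j * (2 ^ j - 1)) - 1 ∧
      x ^ (2 ^ (6 * j) + 1) + x ^ (2 ^ (5 * j) + 2 ^ j) + 1 = 0 := by
  classical
  have h20 : (2 : L) = 0 := CharTwo.two_eq_zero
  have h4 : 2 ^ 2 ≤ 2 ^ j := Nat.pow_le_pow_right (by norm_num) hj
  obtain ⟨r, hr⟩ : ∃ r, r = 2 ^ j - 1 := ⟨_, rfl⟩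
  have hrs : 2 ^ j = r + 1 := by omega
  have hodd : Odd r := hr ▸ Nat.Even.sub_odd (by omega)
    ((Nat.even_pow' (by omega)).2 even_two) odd_one
  rw [← hr] at hsum ⊢
  have hq : 1 < 2 ^ (5 * j) := Nat.one_lt_two_pow (by omega)
  have hN : 1 < 2 ^ (5 * j * r) := Nat.one_lt_two_pow (Nat.mul_pos (by omega) (by omega)).ne'
  have : NeZero (r : L) := ⟨fun h =>
    (Nat.not_even_iff_odd.2 hodd) (even_iff_two_dvd.2 ((CharP.cast_eq_zero_iff L 2 r).1 h))⟩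
  obtain ⟨ζ, hζ⟩ := HasEnoughRootsOfUnity.exists_primitiveRoot L r
  have hζ0 : ζ ≠ 0 := hζ.ne_zero (by omega)
  have hζj : ζ ^ 2 ^ j = ζ := by rw [hrs, pow_succ, hζ.pow_eq_one, one_mul]
  have hQ : 2 ^ (5 * j) = (2 ^ j) ^ 5 := by rw [← pow_mul, mul_comm]
  have hζq : ζ ^ 2 ^ (5 * j) = ζ := by rw [hQ]; exact pow_pow_fix hζj 5
  have hζ2 : IsPrimitiveRoot (ζ ^ 2) r := hζ.pow_of_coprime 2 (Nat.coprime_two_left.2 hodd)
  have hζ2q : (ζ ^ 2) ^ 2 ^ (5 * j) = ζ ^ 2 := by rw [← pow_mul, mul_comm, pow_mul, hζq]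
  obtain ⟨η, hη⟩ := IsAlgClosed.exists_pow_nat_eq (ζ ^ 2)⁻¹ (n := 2 ^ (5 * j) - 1) (by omega)
  have hη0 : η ≠ 0 := by
    rintro rfl
    rw [zero_pow (by omega)] at hη
    exact inv_ne_zero (pow_ne_zero 2 hζ0) hη.symm
  have hηq : η ^ 2 ^ (5 * j) * ζ ^ 2 = η := by
    have h2 : 2 ^ (5 * j) = 2 ^ (5 * j) - 1 + 1 := by omega
    rw [h2, pow_succ, hη]
    field_simp
  have hz : ζ + ζ⁻¹ ≠ 0 := by
    intro h
    have a2 : ζ * ζ⁻¹ = 1 := mul_inv_cancel₀ hζ0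
    exact hζ2.ne_one (by omega) (by linear_combination ζ * h - a2 - h20)
  have hτ : ∀ t : K, algebraMap K L t ^ 2 ^ (5 * j) = algebraMap K L t := by
    intro t
    rw [← map_pow, ← hK, FiniteField.pow_card]
  have hu : ∀ t : K, (algebraMap K L t / η) ^ 2 ^ (5 * j) = ζ ^ 2 * (algebraMap K L t / η) := by
    intro t
    have h1 : η ^ 2 ^ (5 * j) = η * (ζ ^ 2)⁻¹ := by
      rw [eq_mul_inv_iff_mul_eq₀ (pow_ne_zero 2 hζ0), hηq]
    rw [div_pow, hτ, h1]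
    field_simp
  have hex : ∀ t : K, ∃ B : L, t ≠ 0 → B ^ (2 ^ j + 1) * (((algebraMap K L t / η) ^ 2 ^ j +
      algebraMap K L t / η) * (ζ + ζ⁻¹)) = 1 ∧ B ^ 2 ^ (5 * j) * ζ = B := by
    intro t
    by_cases ht : t = 0
    · exact ⟨0, fun h => absurd ht h⟩
    obtain ⟨B, hB⟩ := exists_B j (by omega) hζj hζ0 hz (fun h => by
      have h1 : (algebraMap K L t / η) ^ 2 ^ j = algebraMap K L t / η := by
        linear_combination h - (algebraMap K L t / η) * h20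
      have h2 := pow_pow_fix h1 5
      rw [← hQ, hu] at h2
      exact hζ2.ne_one (by omega) (mul_right_cancel₀
        (div_ne_zero ((_root_.map_ne_zero _).2 ht) hη0) (by rw [h2, one_mul]))) (hu t)
    exact ⟨B, fun _ => hB⟩
  choose B hB using hex
  let x : K → L := fun t => B t * (algebraMap K L t / η + 1)
  let Z : ℕ → Finset K := fun l =>
    univ.filter (fun t => t ≠ 0 ∧ x t ^ ((2 ^ (5 * j * r) - 1) / l) = 1)
  have hpow : ∀ (t : K) (i : ℕ), (η - algebraMap K L t) ^ (2 ^ (5 * j)) ^ i =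
      (ζ ^ 2)⁻¹ ^ i * η - algebraMap K L t := by
    intro t i
    have h1 := eta_pow hζ2q hηq i
    rw [← hK, frob_sub K, hK, pow_pow_fix (hτ t)]
    congr 1
    rw [inv_pow, eq_inv_mul_iff_mul_eq₀ (pow_ne_zero _ (pow_ne_zero 2 hζ0)), mul_comm, h1]
  have hnorm : ∀ t : K, (η - algebraMap K L t) ^ (∑ i ∈ range r, (2 ^ (5 * j)) ^ i) =
      algebraMap K L t ^ r + η ^ r := by
    intro t
    have h1 := congrArg (eval (algebraMap K L t))
      (X_pow_sub_C_eq_prod hζ2.inv (α := η) (by omega) rfl)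
    simp only [eval_sub, eval_pow, eval_X, eval_C, eval_prod] at h1
    rw [← prod_pow_eq_pow_sum, ← CharTwo.sub_eq_add (algebraMap K L t ^ r), h1]
    refine prod_congr rfl fun i _ => ?_
    rw [hpow, CharTwo.sub_eq_add, CharTwo.sub_eq_add, add_comm]
  have hZ : ∀ l ∈ Nat.primeFactors (2 ^ (5 * j * r) - 1),
      ((Z l).card : ℝ) ≤ (2 : ℝ) ^ (5 * j) / ((l : ℕ) : ℝ) + r * √(2 ^ (5 * j)) := by
    intro l hl
    have hlp := Nat.prime_of_mem_primeFactors hl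
    have hld := Nat.dvd_of_mem_primeFactors hl
    set M := (2 ^ (5 * j * r) - 1) / l with hMd
    have hM : Fintype.card K ^ r = l * M + 1 := by
      rw [hMd, Nat.mul_div_cancel' hld, hK, ← pow_mul]
      omega
    have h := weil' K L r l M _ (l - 1) (ζ ^ 2) η (((ζ + ζ⁻¹) * η) ^ M) (Z l)
      (by omega) hlp (not_dvd6 hlp (by omega) (hr ▸ hld)) hM hζ2 (by rw [hK]; exact hζ2q) hη0
      (by rw [hK]; exact hηq) ?_
    · rw [hK] at h
      exact_mod_cast h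
    intro t ht
    obtain ⟨ht0, ht1⟩ := (mem_filter.1 ht).2
    refine ⟨ht0, ?_⟩
    have hτ0 : algebraMap K L t ≠ 0 := (_root_.map_ne_zero _).2 ht0
    have h1 : algebraMap K L t ^ (l * M) = 1 := by
      apply mul_right_cancel₀ hτ0
      rw [← pow_succ, ← hM, ← map_pow, FiniteField.pow_card_pow, one_mul]
    have hy0 : η - algebraMap K L t ≠ 0 := by
      intro h
      have h2 := hpow t 1
      rw [h, zero_pow (by positivity), pow_one, ← sub_eq_zero.1 h] at h2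
      exact hζ2.inv.ne_one (by omega) (mul_right_cancel₀ hη0 (by linear_combination -h2))
    have h2 : (η - algebraMap K L t) ^ (l * M) = 1 := by
      apply mul_right_cancel₀ hy0
      rw [← pow_succ, ← hM, hK, hpow, hζ2.inv.pow_eq_one, one_mul, one_mul]
    have h3 : (η - algebraMap K L t) ^ (2 ^ j + 1) = x t ^ (2 ^ j + 1) * (algebraMap K L t *
        (η - algebraMap K L t) ^ (∑ i ∈ range r, (2 ^ (5 * j)) ^ i) * ((ζ + ζ⁻¹) * η)) := by
      have h5 := (hB t ht0).1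
      have h6 : η - algebraMap K L t = η * (algebraMap K L t / η + 1) := by
        field_simp
        linear_combination (-algebraMap K L t) * h20
      have h7 : (algebraMap K L t / η) ^ 2 ^ j + algebraMap K L t / η =
          algebraMap K L t * (algebraMap K L t ^ r + η ^ r) * η / η ^ (2 ^ j + 1) := by
        rw [div_pow, hrs]
        field_simp
        ring
      rw [h7] at h5
      rw [hnorm, h6, mul_pow]
      simp only [x, mul_pow]
      have h8 : η ^ (2 ^ j + 1) ≠ 0 := pow_ne_zero _ hη0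
      generalize η ^ (2 ^ j + 1) = e at *
      generalize B t ^ (2 ^ j + 1) = b at *
      generalize ζ + ζ⁻¹ = z at *
      field_simp at h5
      linear_combination (-(algebraMap K L t / η + 1) ^ (2 ^ j + 1)) * h5
    obtain ⟨l', rfl⟩ : ∃ l', l = l' + 1 := ⟨l - 1, by have := hlp.pos; omega⟩
    rw [← hr, Nat.add_sub_cancel, pow_add, h3, CharTwo.neg_eq]
    generalize ∑ i ∈ range r, (2 ^ (5 * j)) ^ i = S
    generalize (ζ + ζ⁻¹) * η = κ
    calc _ = (x t ^ M) ^ (2 ^ j + 1) * algebraMap K L t ^ ((l' + 1) * M) *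
          ((η - algebraMap K L t) ^ ((l' + 1) * M)) ^ S * κ ^ M := by ring
      _ = _ := by rw [ht1, h1, h2]; simp
  have hex : ∃ t : K, t ≠ 0 ∧ ∀ l ∈ Nat.primeFactors (2 ^ (5 * j * r) - 1), t ∉ Z l := by
    by_contra hc
    push Not at hc
    have hsub : univ.erase (0 : K) ⊆ (Nat.primeFactors (2 ^ (5 * j * r) - 1)).biUnion Z := by
      intro t ht
      exact mem_biUnion.2 (hc t (ne_of_mem_erase ht))
    have h1 := (card_le_card hsub).trans card_biUnion_le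
    rw [card_erase_of_mem (mem_univ _), card_univ, hK] at h1
    have h2 : ((2 ^ (5 * j) - 1 : ℕ) : ℝ) ≤ ∑ l ∈ Nat.primeFactors (2 ^ (5 * j * r) - 1),
        ((Z l).card : ℝ) := by exact_mod_cast h1
    rw [Nat.cast_sub hq.le] at h2
    have h3 := h2.trans (sum_le_sum hZ)
    push_cast at h3
    linarith
  obtain ⟨t, ht0, ht⟩ := hex
  have htri := root_tri j (5 * j) hζq hζj hζ0 (hu t) (hB t ht0).2 (hB t ht0).1
  rw [show 5 * j + j = 6 * j by ring] at htri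
  refine ⟨x t, ?_, htri⟩
  have hx0 : x t ≠ 0 := by
    intro h
    change x t ^ (2 ^ (6 * j) + 1) + x t ^ (2 ^ (5 * j) + 2 ^ j) + 1 = 0 at htri
    rw [h, zero_pow (Nat.succ_ne_zero _), zero_pow (by positivity)] at htri
    simp at htri
  refine orderOf_eq_of_pow_and_pow_div_prime (by omega) ?_ ?_
  · have h1 := root_pow (5 * j) hζq hζ0 (hu t) (hB t ht0).2 r
    rw [hζ.pow_eq_one, hζ.inv.pow_eq_one, one_mul, ← pow_mul] at h1
    apply mul_right_cancel₀ hx0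
    have h2 : 2 ^ (5 * j * r) - 1 + 1 = 2 ^ (5 * j * r) := by omega
    rw [← pow_succ, h2, one_mul]
    exact h1
  · intro l hl hld h
    exact ht l (Nat.mem_primeFactors.2 ⟨hl, hld, by omega⟩) (mem_filter.2 ⟨mem_univ _, ht0, h⟩)

theorem poly6 {L : Type} [Field L] [CharP L 2] [Algebra (ZMod 2) L] (n a d : ℕ) (hd : 0 < d)
    (x : L) (hx : orderOf x = 2 ^ d - 1) (ht : x ^ n + x ^ a + 1 = 0) :
    ∃ f : (ZMod 2)[X], f.natDegree = d ∧ f ∣ X ^ (2 ^ d - 1) + 1 ∧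
      (∀ t : ℕ, 0 < t → t < 2 ^ d - 1 → ¬ f ∣ X ^ t + 1) ∧
      f ∣ X ^ n + X ^ a + 1 := by
  have hN : 1 < 2 ^ d := Nat.one_lt_two_pow hd.ne'
  have h1 : x ^ (2 ^ d - 1) = 1 := by rw [← hx, pow_orderOf_eq_one]
  have hx0 : x ≠ 0 := by
    rintro rfl
    rw [zero_pow (by omega)] at h1
    exact zero_ne_one h1
  have hi : IsIntegral (ZMod 2) x := IsIntegral.of_pow (n := 2 ^ d - 1) (by omega)
    (by rw [h1]; exact isIntegral_one)
  have hfix : ∀ n, (minpoly (ZMod 2) x).natDegree ∣ n ↔ x ^ 2 ^ n = x := by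
    intro n
    rw [(minpoly.irreducible hi).natDegree_dvd_iff_dvd_X_pow_card_pow_sub_X, minpoly.dvd_iff,
      Nat.card_zmod]
    simp [sub_eq_zero]
  have hdv : ∀ t : ℕ, minpoly (ZMod 2) x ∣ X ^ t + 1 ↔ x ^ t = 1 := by
    intro t
    rw [minpoly.dvd_iff, ← sub_eq_zero (a := x ^ t), CharTwo.sub_eq_add]
    simp
  refine ⟨minpoly (ZMod 2) x, ?_, (hdv _).2 h1, ?_, minpoly.dvd _ _ (by simpa using ht)⟩
  · have hp := minpoly.natDegree_pos hi
    have hP : 1 < 2 ^ (minpoly (ZMod 2) x).natDegree := Nat.one_lt_two_pow hp.ne'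
    apply le_antisymm
    · refine Nat.le_of_dvd hd ((hfix d).2 ?_)
      have h2 : 2 ^ d = 2 ^ d - 1 + 1 := by omega
      rw [h2, pow_succ, h1, one_mul]
    · have h3 := (hfix _).1 dvd_rfl
      have h4 : x ^ (2 ^ (minpoly (ZMod 2) x).natDegree - 1) = 1 := by
        apply mul_right_cancel₀ hx0
        have h2 : 2 ^ (minpoly (ZMod 2) x).natDegree - 1 + 1 =
          2 ^ (minpoly (ZMod 2) x).natDegree := by omega
        rw [← pow_succ, h2, one_mul, h3]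
      have h5 := Nat.le_of_dvd (by omega) (orderOf_dvd_of_pow_eq_one h4)
      rw [hx] at h5
      exact (Nat.pow_le_pow_iff_right (by norm_num : 1 < 2)).1 (by omega)
  · intro t h0 hlt h
    have h5 := Nat.le_of_dvd h0 (orderOf_dvd_of_pow_eq_one ((hdv t).1 h))
    omega

end Pool.Agent.MP_dfda4f_nt.Wl
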