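import Mathlib.Analysis.Complex.ExponentialBounds
import Pool.Agent.MP_dfda4f_nt.wl.Sieve

open Finset

namespace Pool.Agent.MP_dfda4f_nt.Wl

namespace Sv6

open Sv

/-- divisors of `5 m` that do not divide `5` -/
lemma div_sum (m : ℕ) (hm : 0 < m) (σ : ℝ) (hσ : ∑ π ∈ m.primeFactors, G π ≤ σ)
    (h2 : σ ≤ 1 / 2) : ∑ e ∈ (5 * m).divisors.filter (fun e => ¬ e ∣ 5), G e ≤ 4 * σ := by
  classical
  set T := ∑ e ∈ (5 * m).divisors.filter (fun e => ¬ e ∣ 5), G e with hT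
  have hT0 : 0 ≤ T := sum_nonneg fun e _ => G_nn e
  have hσ0 : 0 ≤ σ := (sum_nonneg fun e _ => G_nn e).trans hσ
  have hU : ∑ e ∈ (5 * m).divisors, G e ≤ T + 2 := by
    rw [← sum_filter_add_sum_filter_not (5 * m).divisors (fun e => ¬ e ∣ 5)]
    refine add_le_add le_rfl ?_
    have hs : (5 * m).divisors.filter (fun e => ¬ ¬ e ∣ 5) ⊆ Nat.divisors 5 := by
      intro e he
      rw [mem_filter, not_not] at he
      exact Nat.mem_divisors.2 ⟨he.2, by norm_num⟩
    refine (sum_le_sum_of_subset_of_nonneg hs (fun i _ _ => G_nn i)).trans ?_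
    have : Nat.divisors 5 = {1, 5} := by decide
    rw [this, sum_insert (by decide), sum_singleton]
    have := G_le_one 1 (by norm_num)
    have := G_le_one 5 (by norm_num)
    linarith
  have hsub : (5 * m).divisors.filter (fun e => ¬ e ∣ 5) ⊆
      (m.primeFactors ×ˢ (5 * m).divisors).image (fun z => z.1 * z.2) := by
    intro e he
    rw [mem_filter, Nat.mem_divisors] at he
    obtain ⟨⟨hd, h0⟩, hn⟩ := he
    obtain ⟨d1, d2, h1, h2, h3⟩ := exists_dvd_and_dvd_of_dvd_mul hd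
    have hd2 : d2 ≠ 1 := by
      rintro rfl
      exact hn (by rw [h3, mul_one]; exact h1)
    obtain ⟨π, hπ, c, hc⟩ := Nat.exists_prime_and_dvd hd2
    refine mem_image.2 ⟨(π, d1 * c), mem_product.2 ⟨?_, ?_⟩, ?_⟩
    · exact Nat.mem_primeFactors.2 ⟨hπ, (Dvd.intro _ hc.symm).trans h2, hm.ne'⟩
    · refine Nat.mem_divisors.2 ⟨mul_dvd_mul h1 ((Dvd.intro_left _ hc.symm).trans h2), h0⟩
    · rw [h3, hc]; ring
  have h1 : T ≤ ∑ z ∈ m.primeFactors ×ˢ (5 * m).divisors, G (z.1 * z.2) :=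
    (sum_le_sum_of_subset_of_nonneg hsub (fun i _ _ => G_nn i)).trans
      (sum_image_le_of_nonneg fun i _ => G_nn i)
  have h3 : ∑ z ∈ m.primeFactors ×ˢ (5 * m).divisors, G (z.1 * z.2) ≤
      ∑ z ∈ m.primeFactors ×ˢ (5 * m).divisors, G z.1 * G z.2 := by
    refine sum_le_sum fun z hz => ?_
    obtain ⟨ha, hb⟩ := mem_product.1 hz
    exact G_mul _ _ (Nat.prime_of_mem_primeFactors ha).pos (Nat.pos_of_mem_divisors hb)
  have h3' : ∑ z ∈ m.primeFactors ×ˢ (5 * m).divisors, G z.1 * G z.2 =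
      (∑ π ∈ m.primeFactors, G π) * (∑ e ∈ (5 * m).divisors, G e) := by
    rw [sum_product, sum_mul_sum]
  have h4 : (∑ π ∈ m.primeFactors, G π) * (∑ e ∈ (5 * m).divisors, G e) ≤ σ * (T + 2) :=
    mul_le_mul hσ hU (sum_nonneg fun e _ => G_nn e) hσ0
  have h5 := mul_le_mul_of_nonneg_right h2 hT0
  linarith

/-- reciprocals of the primes of `2 ^ (5 m) - 1` -/
lemma recip (m : ℕ) (hm : 0 < m) (σ : ℝ) (hσ : ∑ π ∈ m.primeFactors, G π ≤ σ)
    (h2 : σ ≤ 1 / 2) :
    ∑ l ∈ (2 ^ (5 * m) - 1).primeFactors, (1 : ℝ) / (l : ℕ) ≤ 1 / 31 + 8 * σ := by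
  classical
  rw [← sum_filter_add_sum_filter_not _ (fun l => l ∣ 31)]
  refine add_le_add ?_ ?_
  · have hs : (2 ^ (5 * m) - 1).primeFactors.filter (fun l => l ∣ 31) ⊆ {31} := by
      intro l hl
      rw [mem_filter] at hl
      have hp := Nat.prime_of_mem_primeFactors hl.1
      simp [(Nat.prime_dvd_prime_iff_eq hp (by norm_num : Nat.Prime 31)).1 hl.2]
    refine (sum_le_sum_of_subset_of_nonneg hs (fun i _ _ => by positivity)).trans ?_
    rw [sum_singleton]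
    norm_num
  · set s := (2 ^ (5 * m) - 1).primeFactors.filter (fun l => ¬ l ∣ 31) with hs
    have hmap : ∀ l ∈ s, orderOf (2 : ZMod l) ∈
        (5 * m).divisors.filter (fun e => ¬ e ∣ 5) := by
      intro l hl
      rw [hs, mem_filter] at hl
      have h1 := (dvd_iff _ _).1 (Nat.dvd_of_mem_primeFactors hl.1)
      refine mem_filter.2 ⟨Nat.mem_divisors.2 ⟨orderOf_dvd_of_pow_eq_one h1, by omega⟩, ?_⟩
      intro h
      exact hl.2 ((dvd_iff l 5).2 (orderOf_dvd_iff_pow_eq_one.1 h))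
    rw [← sum_fiberwise_of_maps_to hmap]
    have h6 := div_sum m hm σ hσ h2
    have h7 : 8 * σ = 2 * (4 * σ) := by ring
    rw [h7]
    refine le_trans ?_ (mul_le_mul_of_nonneg_left h6 (by norm_num))
    rw [mul_sum]
    refine sum_le_sum fun e he => ?_
    have he0 : 0 < e := Nat.pos_of_mem_divisors (mem_filter.1 he).1
    refine prog_inv e he0 _ ?_ ?_
    · intro l hl
      rw [mem_filter, hs, mem_filter] at hl
      obtain ⟨⟨h1, _⟩, h3⟩ := hl
      have hp := Nat.prime_of_mem_primeFactors h1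
      have := Fact.mk hp
      refine ⟨hp.two_le, ?_⟩
      rw [← h3]
      refine ZMod.orderOf_dvd_card_sub_one fun h0 => ?_
      have h4 := (dvd_iff _ _).1 (Nat.dvd_of_mem_primeFactors h1)
      rw [h0, zero_pow (by omega)] at h4
      exact zero_ne_one h4
    · refine le_trans (card_le_card ?_) (card_pf (2 ^ e - 1) e ?_ (mers_ne e he0))
      · intro l hl
        rw [mem_filter, hs, mem_filter] at hl
        obtain ⟨⟨h1, _⟩, h3⟩ := hl
        refine Nat.mem_primeFactors.2 ⟨Nat.prime_of_mem_primeFactors h1, ?_, mers_ne e he0⟩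
        rw [dvd_iff, ← h3]
        exact pow_orderOf_eq_one _
      · have := mers_ne e he0
        omega

lemma G_split (p l : ℕ) (hp : 0 < p) (hl : 0 < l) :
    G l ≤ (1 + 2 * Real.log p) * (1 / (l : ℝ) + 1 / ((p : ℝ) * p)) := by
  have hp' : (0 : ℝ) < p := by exact_mod_cast hp
  have hl' : (0 : ℝ) < l := by exact_mod_cast hl
  have h0 := log_nn p
  have hpp : Real.log ((p * p : ℕ) : ℝ) = 2 * Real.log p := by
    rw [Nat.cast_mul, Real.log_mul hp'.ne' hp'.ne']; ring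
  have ha : 0 ≤ (1 + 2 * Real.log p) * (1 / (l : ℝ)) := by positivity
  have hb : 0 ≤ (1 + 2 * Real.log p) * (1 / ((p : ℝ) * p)) := by positivity
  rw [mul_add]
  rcases le_total l (p * p) with h | h
  · have h1 := Real.log_le_log hl' (by exact_mod_cast h : (l : ℝ) ≤ ((p * p : ℕ) : ℝ))
    have h2 : G l ≤ (1 + 2 * Real.log p) * (1 / (l : ℝ)) := by
      unfold G
      rw [mul_one_div]
      exact div_le_div_of_nonneg_right (by linarith) hl'.le
    linarith
  · have h1 := G_anti (p * p) l (Nat.mul_pos hp hp) h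
    have h2 : G (p * p) = (1 + 2 * Real.log p) * (1 / ((p : ℝ) * p)) := by
      unfold G
      rw [hpp, mul_one_div, Nat.cast_mul]
    linarith

lemma log_sq (p : ℕ) (h : 4096 ≤ p) : (2 + Real.log p) ^ 2 ≤ 261 / 10000 * p := by
  have hp : (4096 : ℝ) ≤ p := by exact_mod_cast h
  have hp0 : (0 : ℝ) ≤ p := by linarith
  have ht : 64 ≤ √(p : ℝ) := Real.le_sqrt_of_sq_le (by linarith)
  have h1 : Real.log √(p : ℝ) = Real.log p / 2 := Real.log_sqrt hp0
  have h2 := Real.log_le_sub_one_of_pos (by positivity : 0 < √(p : ℝ) / 64)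
  rw [Real.log_div (by positivity) (by norm_num), h1,
    show (64 : ℝ) = 2 ^ 6 by norm_num, Real.log_pow] at h2
  have h3 := Real.log_two_lt_d9
  have h4 : 2 + Real.log p ≤ 1613 / 10000 * √(p : ℝ) := by
    push_cast at h2
    linarith
  have h5 := pow_le_pow_left₀ (by have := log_nn p; linarith) h4 2
  rw [mul_pow, Real.sq_sqrt hp0] at h5
  linarith

/-- the primes of `p (2 ^ p - 1)` have a small sum -/
lemma sig (p : ℕ) (hp : p.Prime) (h : 4096 ≤ p) :
    ∑ π ∈ (p * (2 ^ p - 1)).primeFactors, G π ≤ 11 / 100 := by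
  classical
  have hr0 := mers_ne p hp.pos
  have hp' : (4096 : ℝ) ≤ p := by exact_mod_cast h
  have hp0 : (0 : ℝ) < p := by linarith
  have hr : 2 ^ p - 1 = ∑ i ∈ range p, 2 ^ i := by
    have := geom_sum_mul_add 1 p
    norm_num at this
    omega
  set C := (2 ^ p - 1).primeFactors.filter (fun π => p ∣ π - 1) with hC
  have hsub : (p * (2 ^ p - 1)).primeFactors ⊆ insert p C := by
    intro π hπ
    have hq := Nat.prime_of_mem_primeFactors hπ
    rcases (Nat.Prime.dvd_mul hq).1 (Nat.dvd_of_mem_primeFactors hπ) with h1 | h1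
    · simp [(Nat.prime_dvd_prime_iff_eq hq hp).1 h1]
    · rcases rep_prime 2 p π hp hq (hr ▸ h1) with h' | h'
      · simp [h']
      · exact mem_insert_of_mem (mem_filter.2 ⟨Nat.mem_primeFactors.2 ⟨hq, h1, hr0⟩, h'⟩)
  refine (sum_le_sum_of_subset_of_nonneg hsub (fun i _ _ => G_nn i)).trans ?_
  refine (ins_le _ _).trans ?_
  have hc : C.card ≤ p := (card_filter_le _ _).trans (card_pf _ p (by omega) hr0)
  have hC2 : ∀ l ∈ C, 2 ≤ l ∧ p ∣ l - 1 := fun l hl =>
    ⟨(Nat.prime_of_mem_primeFactors (mem_filter.1 hl).1).two_le, (mem_filter.1 hl).2⟩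
  have h1 := prog_inv p hp.pos C hC2 hc
  have h0 := log_nn p
  have h2 : ∑ l ∈ C, G l ≤
      ∑ l ∈ C, (1 + 2 * Real.log p) * (1 / (l : ℝ) + 1 / ((p : ℝ) * p)) :=
    sum_le_sum fun l hl => G_split p l hp.pos (by have := (hC2 l hl).1; omega)
  rw [← mul_sum, sum_add_distrib, sum_const, nsmul_eq_mul] at h2
  have h3 : (C.card : ℝ) * (1 / ((p : ℝ) * p)) ≤ 1 / p := by
    have hc' : (C.card : ℝ) ≤ p := by exact_mod_cast hc
    refine (mul_le_mul_of_nonneg_right hc' (by positivity)).trans (le_of_eq ?_)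
    field_simp
  have h4 := mul_le_mul_of_nonneg_left (add_le_add h1 h3)
    (by linarith : 0 ≤ 1 + 2 * Real.log p)
  have h5 : G p + (1 + 2 * Real.log p) * (2 * G p + 1 / p) =
      (1 + Real.log p + (1 + 2 * Real.log p) * (3 + 2 * Real.log p)) / p := by
    unfold G
    field_simp
    ring
  have h6 : (1 + Real.log p + (1 + 2 * Real.log p) * (3 + 2 * Real.log p)) / p ≤ 11 / 100 := by
    rw [div_le_iff₀ hp0]
    have := log_sq p h
    nlinarith
  linarith

end Sv6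

open Sv in
theorem sieve6 (p : ℕ) (hp : p.Prime) (h : 4096 ≤ p) :
    ∑ l ∈ Nat.primeFactors (2 ^ (5 * p * (2 ^ p - 1)) - 1),
      ((2 : ℝ) ^ (5 * p) / ((l : ℕ) : ℝ) + ((2 ^ p - 1 : ℕ) : ℝ) * √(2 ^ (5 * p)))
      < 2 ^ (5 * p) - 1 := by
  have hg := grow p h
  have hs := Sv6.sig p hp h
  have hr0 := mers_ne p hp.pos
  obtain ⟨r, hr⟩ : ∃ r, r = 2 ^ p - 1 := ⟨_, rfl⟩
  obtain ⟨W, hW⟩ : ∃ W, W = 2 ^ p := ⟨_, rfl⟩
  have hq : (2 : ℝ) ^ (5 * p) = (W : ℝ) ^ 5 := by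
    rw [hW, mul_comm, pow_mul]; push_cast; rfl
  rw [← hr] at hs hr0 ⊢
  rw [← hW] at hg hr
  have hm : 0 < p * r := Nat.mul_pos hp.pos (by omega)
  have hrec := Sv6.recip (p * r) hm _ hs (by norm_num)
  have he : 5 * p * r = 5 * (p * r) := by ring
  have hc := card_pf (2 ^ (5 * (p * r)) - 1) (5 * (p * r))
    (by have := mers_ne (5 * (p * r)) (by omega); omega) (mers_ne _ (by omega))
  have hrW : r ≤ W := by omega
  have hn : (2 ^ (5 * (p * r)) - 1).primeFactors.card * r ≤ 5 * p * W ^ 2 := by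
    calc _ ≤ 5 * (p * r) * r := Nat.mul_le_mul_right _ hc
      _ = 5 * p * (r * r) := by ring
      _ ≤ 5 * p * (W * W) := Nat.mul_le_mul_left _ (Nat.mul_le_mul hrW hrW)
      _ = 5 * p * W ^ 2 := by ring
  have hn' : ((2 ^ (5 * (p * r)) - 1).primeFactors.card : ℝ) * r ≤ 5 * p * (W : ℝ) ^ 2 := by
    exact_mod_cast hn
  have hpW : 10000 * p ^ 2 ≤ W := by
    refine le_trans (Nat.mul_le_mul_left _ ?_) hg
    exact (Nat.pow_le_pow_left (by omega) 2).trans (Nat.pow_le_pow_right (by omega) (by omega))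
  have hpW' : (10000 : ℝ) * (p : ℝ) ^ 2 ≤ W := by exact_mod_cast hpW
  have hp' : (4096 : ℝ) ≤ p := by exact_mod_cast h
  have hW1 : (100 : ℝ) ≤ W := by nlinarith
  have hsq : 100 * p * √((W : ℝ) ^ 5) ≤ (W : ℝ) ^ 3 := by
    refine le_of_sq_le_sq ?_ (by positivity)
    rw [mul_pow, Real.sq_sqrt (by positivity)]
    have := mul_le_mul_of_nonneg_right hpW' (by positivity : (0 : ℝ) ≤ (W : ℝ) ^ 5)
    nlinarith
  rw [he, hq, sum_add_distrib, sum_const, nsmul_eq_mul]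
  have h8 : ∑ l ∈ (2 ^ (5 * (p * r)) - 1).primeFactors, (W : ℝ) ^ 5 / ((l : ℕ) : ℝ) =
      (W : ℝ) ^ 5 * ∑ l ∈ (2 ^ (5 * (p * r)) - 1).primeFactors, (1 : ℝ) / (l : ℕ) := by
    rw [mul_sum]
    exact sum_congr rfl fun l _ => by ring
  have hW5 : (100 : ℝ) ≤ (W : ℝ) ^ 5 :=
    hW1.trans (le_self_pow₀ (by linarith) (by norm_num))
  have h9 := mul_le_mul_of_nonneg_left hrec (by positivity : (0 : ℝ) ≤ (W : ℝ) ^ 5)
  have h10 := mul_le_mul_of_nonneg_right hn' (Real.sqrt_nonneg ((W : ℝ) ^ 5))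
  have h11 := mul_le_mul_of_nonneg_right hsq (by positivity : (0 : ℝ) ≤ (W : ℝ) ^ 2)
  rw [h8]
  nlinarith

end Pool.Agent.MP_dfda4f_nt.Wl
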