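import Pool.Agent.MP_dfda4f_nt.wl.Sieve6

open Finset

namespace Pool.Agent.MP_dfda4f_nt.Wl

namespace Sv8

open Sv

/-- divisors of `24 m` that do not divide `24` -/
lemma div_sum (m : ℕ) (hm : 0 < m) (σ : ℝ) (hσ : ∑ π ∈ m.primeFactors, G π ≤ σ)
    (h2 : σ ≤ 1 / 2) : ∑ e ∈ (24 * m).divisors.filter (fun e => ¬ e ∣ 24), G e ≤ 16 * σ := by
  classical
  set T := ∑ e ∈ (24 * m).divisors.filter (fun e => ¬ e ∣ 24), G e with hT
  have hT0 : 0 ≤ T := sum_nonneg fun e _ => G_nn e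
  have hσ0 : 0 ≤ σ := (sum_nonneg fun e _ => G_nn e).trans hσ
  have hU : ∑ e ∈ (24 * m).divisors, G e ≤ T + 8 := by
    rw [← sum_filter_add_sum_filter_not (24 * m).divisors (fun e => ¬ e ∣ 24)]
    refine add_le_add le_rfl ?_
    have hs : (24 * m).divisors.filter (fun e => ¬ ¬ e ∣ 24) ⊆ Nat.divisors 24 := by
      intro e he
      rw [mem_filter, not_not] at he
      exact Nat.mem_divisors.2 ⟨he.2, by norm_num⟩
    refine (sum_le_sum_of_subset_of_nonneg hs (fun i _ _ => G_nn i)).trans ?_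
    refine (sum_le_card_nsmul _ _ (1 : ℝ) fun x hx =>
      G_le_one x (Nat.pos_of_mem_divisors hx)).trans ?_
    have : (Nat.divisors 24).card = 8 := by decide
    rw [this]
    norm_num
  have hsub : (24 * m).divisors.filter (fun e => ¬ e ∣ 24) ⊆
      (m.primeFactors ×ˢ (24 * m).divisors).image (fun z => z.1 * z.2) := by
    intro e he
    rw [mem_filter, Nat.mem_divisors] at he
    obtain ⟨⟨hd, h0⟩, hn⟩ := he
    obtain ⟨d1, d2, h1, h2, h3⟩ := exists_dvd_and_dvd_of_dvd_mul hd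
    have hd2 : d2 ≠ 1 := by
      rintro rfl
      exact hn (by rw [h3, mul_one]; exact h1)
    obtain ⟨π, hπ, c, hc⟩ := Nat.exists_prime_and_dvd hd2
    refine mem_image.2 ⟨(π, d1 * c), mem_product.2 ⟨?_, ?_⟩, ?_⟩
    · exact Nat.mem_primeFactors.2 ⟨hπ, (Dvd.intro _ hc.symm).trans h2, hm.ne'⟩
    · refine Nat.mem_divisors.2 ⟨mul_dvd_mul h1 ((Dvd.intro_left _ hc.symm).trans h2), h0⟩
    · rw [h3, hc]; ring
  have h1 : T ≤ ∑ z ∈ m.primeFactors ×ˢ (24 * m).divisors, G (z.1 * z.2) :=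
    (sum_le_sum_of_subset_of_nonneg hsub (fun i _ _ => G_nn i)).trans
      (sum_image_le_of_nonneg fun i _ => G_nn i)
  have h3 : ∑ z ∈ m.primeFactors ×ˢ (24 * m).divisors, G (z.1 * z.2) ≤
      ∑ z ∈ m.primeFactors ×ˢ (24 * m).divisors, G z.1 * G z.2 := by
    refine sum_le_sum fun z hz => ?_
    obtain ⟨ha, hb⟩ := mem_product.1 hz
    exact G_mul _ _ (Nat.prime_of_mem_primeFactors ha).pos (Nat.pos_of_mem_divisors hb)
  have h3' : ∑ z ∈ m.primeFactors ×ˢ (24 * m).divisors, G z.1 * G z.2 =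
      (∑ π ∈ m.primeFactors, G π) * (∑ e ∈ (24 * m).divisors, G e) := by
    rw [sum_product, sum_mul_sum]
  have h4 : (∑ π ∈ m.primeFactors, G π) * (∑ e ∈ (24 * m).divisors, G e) ≤ σ * (T + 8) :=
    mul_le_mul hσ hU (sum_nonneg fun e _ => G_nn e) hσ0
  have h5 := mul_le_mul_of_nonneg_right h2 hT0
  linarith

/-- reciprocals of the primes of `2 ^ (24 m) - 1` -/
lemma recip (m : ℕ) (hm : 0 < m) (σ : ℝ) (hσ : ∑ π ∈ m.primeFactors, G π ≤ σ)
    (h2 : σ ≤ 1 / 2) :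
    ∑ l ∈ (2 ^ (24 * m) - 1).primeFactors, (1 : ℝ) / (l : ℕ) ≤ 8161 / 10000 + 32 * σ := by
  classical
  rw [← sum_filter_add_sum_filter_not _ (fun l => l ∣ 2 ^ 24 - 1)]
  refine add_le_add ?_ ?_
  · have hs : (2 ^ (24 * m) - 1).primeFactors.filter (fun l => l ∣ 2 ^ 24 - 1) ⊆
        {3, 5, 7, 13, 17, 241} := by
      intro l hl
      rw [mem_filter] at hl
      have hp := Nat.prime_of_mem_primeFactors hl.1
      have h := hl.2
      rw [show 2 ^ 24 - 1 = 3 * (3 * (5 * (7 * (13 * (17 * 241))))) by norm_num] at h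
      simp only [hp.dvd_mul, Nat.prime_dvd_prime_iff_eq hp (by norm_num : Nat.Prime 3),
        Nat.prime_dvd_prime_iff_eq hp (by norm_num : Nat.Prime 5),
        Nat.prime_dvd_prime_iff_eq hp (by norm_num : Nat.Prime 7),
        Nat.prime_dvd_prime_iff_eq hp (by norm_num : Nat.Prime 13),
        Nat.prime_dvd_prime_iff_eq hp (by norm_num : Nat.Prime 17),
        Nat.prime_dvd_prime_iff_eq hp (by norm_num : Nat.Prime 241)] at h
      simp only [mem_insert, mem_singleton]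
      tauto
    refine (sum_le_sum_of_subset_of_nonneg hs (fun i _ _ => by positivity)).trans ?_
    rw [sum_insert (by decide), sum_insert (by decide), sum_insert (by decide),
      sum_insert (by decide), sum_insert (by decide), sum_singleton]
    norm_num
  · set s := (2 ^ (24 * m) - 1).primeFactors.filter (fun l => ¬ l ∣ 2 ^ 24 - 1) with hs
    have hmap : ∀ l ∈ s, orderOf (2 : ZMod l) ∈
        (24 * m).divisors.filter (fun e => ¬ e ∣ 24) := by
      intro l hl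
      rw [hs, mem_filter] at hl
      have h1 := (dvd_iff _ _).1 (Nat.dvd_of_mem_primeFactors hl.1)
      refine mem_filter.2 ⟨Nat.mem_divisors.2 ⟨orderOf_dvd_of_pow_eq_one h1, by omega⟩, ?_⟩
      intro h
      exact hl.2 ((dvd_iff l 24).2 (orderOf_dvd_iff_pow_eq_one.1 h))
    rw [← sum_fiberwise_of_maps_to hmap]
    have h6 := div_sum m hm σ hσ h2
    have h7 : 32 * σ = 2 * (16 * σ) := by ring
    rw [h7]
    refine le_trans ?_ (mul_le_mul_of_nonneg_left h6 (by norm_num))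
    rw [mul_sum]
    refine sum_le_sum fun e he => ?_
    have he0 : 0 < e := Nat.pos_of_mem_divisors (mem_filter.1 he).1
    refine prog_inv e he0 _ ?_ ?_
    · intro l hl
      rw [mem_filter, hs, mem_filter] at hl
      obtain ⟨⟨h1, _⟩, h3⟩ := hl
      have hp := Nat.prime_of_mem_primeFactors h1
      have := Fact.mk hp
      refine ⟨hp.two_le, ?_⟩
      rw [← h3]
      refine ZMod.orderOf_dvd_card_sub_one fun h0 => ?_
      have h4 := (dvd_iff _ _).1 (Nat.dvd_of_mem_primeFactors h1)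
      rw [h0, zero_pow (by omega)] at h4
      exact zero_ne_one h4
    · refine le_trans (card_le_card ?_) (card_pf (2 ^ e - 1) e ?_ (mers_ne e he0))
      · intro l hl
        rw [mem_filter, hs, mem_filter] at hl
        obtain ⟨⟨h1, _⟩, h3⟩ := hl
        refine Nat.mem_primeFactors.2 ⟨Nat.prime_of_mem_primeFactors h1, ?_, mers_ne e he0⟩
        rw [dvd_iff, ← h3]
        exact pow_orderOf_eq_one _
      · have := mers_ne e he0
        omega

lemma log_sq (p : ℕ) (h : 2 ^ 20 ≤ p) : (2 + Real.log p) ^ 2 ≤ 1 / 4000 * p := by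
  have hp : (1048576 : ℝ) ≤ p := by exact_mod_cast h
  have hp0 : (0 : ℝ) ≤ p := by linarith
  have ht : 1024 ≤ √(p : ℝ) := Real.le_sqrt_of_sq_le (by linarith)
  have h1 : Real.log √(p : ℝ) = Real.log p / 2 := Real.log_sqrt hp0
  have h2 := Real.log_le_sub_one_of_pos (by positivity : 0 < √(p : ℝ) / 1024)
  rw [Real.log_div (by positivity) (by norm_num), h1,
    show (1024 : ℝ) = 2 ^ 10 by norm_num, Real.log_pow] at h2
  have h3 := Real.log_two_lt_d9
  have h4 : 2 + Real.log p ≤ 155 / 10000 * √(p : ℝ) := by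
    push_cast at h2
    linarith
  have h5 := pow_le_pow_left₀ (by have := log_nn p; linarith) h4 2
  rw [mul_pow, Real.sq_sqrt hp0] at h5
  linarith

/-- a prime factor of `(2 ^ p + 1) / 3` is `1 mod p` -/
lemma prime_r (p r π : ℕ) (hp : p.Prime) (h5 : 5 ≤ p) (hr : 2 ^ p + 1 = 3 * r) (hπ : π.Prime)
    (hd : π ∣ r) : p ∣ π - 1 := by
  have := Fact.mk hπ
  have h1 : ∀ l : ℕ, l ∣ 2 ^ p + 1 → l ∣ 2 ^ (2 * p) - 1 := by
    intro l hl
    have : 2 ^ (2 * p) - 1 = (2 ^ p + 1) * (2 ^ p - 1) := by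
      rw [mul_comm 2 p, pow_mul, ← Nat.sq_sub_sq]
    rw [this]
    exact hl.mul_right _
  have h2 : orderOf (2 : ZMod π) ∣ 2 * p :=
    orderOf_dvd_of_pow_eq_one ((dvd_iff _ _).1 (h1 π (hr ▸ hd.mul_left 3)))
  have h3 : orderOf (2 : ZMod π) ∣ π - 1 := by
    refine ZMod.orderOf_dvd_card_sub_one fun h0 => ?_
    have h4 := (dvd_iff _ _).1 (h1 π (hr ▸ hd.mul_left 3))
    rw [h0, zero_pow (by omega)] at h4
    exact zero_ne_one h4
  by_cases h4 : p ∣ orderOf (2 : ZMod π)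
  · exact h4.trans h3
  · exfalso
    have h6 : orderOf (2 : ZMod π) ∣ 2 :=
      ((hp.coprime_iff_not_dvd.2 h4).symm).dvd_of_dvd_mul_right h2
    have h7 : π ∣ 2 ^ 2 - 1 := (dvd_iff π 2).2 (orderOf_dvd_iff_pow_eq_one.1 h6)
    have h8 : π = 3 := (Nat.prime_dvd_prime_iff_eq hπ (by norm_num : Nat.Prime 3)).1 h7
    have h9 : 9 ∣ 2 ^ p + 1 := by
      rw [hr, show 9 = 3 * 3 by norm_num]
      exact Nat.mul_dvd_mul_left 3 (h8 ▸ hd)
    have h10 : 2 ^ (p % 6) % 9 = 2 ^ p % 9 := by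
      conv_rhs => rw [← Nat.div_add_mod p 6, pow_add, pow_mul, Nat.mul_mod, Nat.pow_mod]
      norm_num
    have h11 : ¬ 3 ∣ p := fun h => by
      have := (Nat.prime_dvd_prime_iff_eq (by norm_num : Nat.Prime 3) hp).1 h
      omega
    have h12 : p % 6 < 6 := Nat.mod_lt _ (by norm_num)
    generalize 2 ^ p = W at h9 h10
    have h13 : p % 6 = 0 ∨ p % 6 = 1 ∨ p % 6 = 2 ∨ p % 6 = 4 ∨ p % 6 = 5 := by omega
    rcases h13 with h | h | h | h | h <;> rw [h] at h10 <;> norm_num at h10 <;> omega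

/-- the primes of `p (2 ^ p + 1) / 3` have a small sum -/
lemma sig (p r : ℕ) (hp : p.Prime) (h : 2 ^ 20 ≤ p) (hr : 2 ^ p + 1 = 3 * r) :
    ∑ π ∈ (p * r).primeFactors, G π ≤ 1 / 500 := by
  classical
  have hW : 1 < 2 ^ p := Nat.one_lt_two_pow hp.ne_zero
  have hr0 : r ≠ 0 := by omega
  have hp' : (1048576 : ℝ) ≤ p := by exact_mod_cast h
  have hp0 : (0 : ℝ) < p := by linarith
  set C := r.primeFactors with hC
  have hsub : (p * r).primeFactors ⊆ insert p C := by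
    intro π hπ
    have hq := Nat.prime_of_mem_primeFactors hπ
    rcases (Nat.Prime.dvd_mul hq).1 (Nat.dvd_of_mem_primeFactors hπ) with h1 | h1
    · simp [(Nat.prime_dvd_prime_iff_eq hq hp).1 h1]
    · exact mem_insert_of_mem (Nat.mem_primeFactors.2 ⟨hq, h1, hr0⟩)
  refine (sum_le_sum_of_subset_of_nonneg hsub (fun i _ _ => G_nn i)).trans ?_
  refine (ins_le _ _).trans ?_
  have hc : C.card ≤ p := card_pf _ p (by omega) hr0
  have hC2 : ∀ l ∈ C, 2 ≤ l ∧ p ∣ l - 1 := fun l hl =>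
    ⟨(Nat.prime_of_mem_primeFactors hl).two_le,
      prime_r p r l hp (by omega) hr (Nat.prime_of_mem_primeFactors hl)
        (Nat.dvd_of_mem_primeFactors hl)⟩
  have h1 := prog_inv p hp.pos C hC2 hc
  have h0 := log_nn p
  have h2 : ∑ l ∈ C, G l ≤
      ∑ l ∈ C, (1 + 2 * Real.log p) * (1 / (l : ℝ) + 1 / ((p : ℝ) * p)) :=
    sum_le_sum fun l hl => Sv6.G_split p l hp.pos (by have := (hC2 l hl).1; omega)
  rw [← mul_sum, sum_add_distrib, sum_const, nsmul_eq_mul] at h2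
  have h3 : (C.card : ℝ) * (1 / ((p : ℝ) * p)) ≤ 1 / p := by
    have hc' : (C.card : ℝ) ≤ p := by exact_mod_cast hc
    refine (mul_le_mul_of_nonneg_right hc' (by positivity)).trans (le_of_eq ?_)
    field_simp
  have h4 := mul_le_mul_of_nonneg_left (add_le_add h1 h3)
    (by linarith : 0 ≤ 1 + 2 * Real.log p)
  have h5 : G p + (1 + 2 * Real.log p) * (2 * G p + 1 / p) =
      (1 + Real.log p + (1 + 2 * Real.log p) * (3 + 2 * Real.log p)) / p := by
    unfold G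
    field_simp
    ring
  have h6 : (1 + Real.log p + (1 + 2 * Real.log p) * (3 + 2 * Real.log p)) / p ≤ 1 / 500 := by
    rw [div_le_iff₀ hp0]
    have := log_sq p h
    nlinarith
  linarith

end Sv8

open Sv in
theorem sieve8 (p : ℕ) (hp : p.Prime) (h : 2 ^ 20 ≤ p) :
    ∑ l ∈ Nat.primeFactors (2 ^ (8 * p * (2 ^ p + 1)) - 1),
      ((2 : ℝ) ^ (8 * p) / ((l : ℕ) : ℝ) + (2 : ℝ) ^ (2 * p) * √(2 ^ (8 * p)))
      < 2 ^ (8 * p) - 1 := by
  have hg := grow p (by omega)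
  have hodd : Odd p := hp.odd_of_ne_two (by omega)
  obtain ⟨r, hr⟩ : 3 ∣ 2 ^ p + 1 := by
    simpa using hodd.nat_add_dvd_pow_add_pow 2 1
  have hs := Sv8.sig p r hp h hr
  obtain ⟨W, hW⟩ : ∃ W, W = 2 ^ p := ⟨_, rfl⟩
  have hq : ∀ k : ℕ, (2 : ℝ) ^ (k * p) = (W : ℝ) ^ k := fun k => by
    rw [hW, mul_comm, pow_mul]; push_cast; rfl
  have he : 8 * p * (2 ^ p + 1) = 24 * (p * r) := by rw [hr]; ring
  rw [← hW] at hg hr
  have hm : 0 < p * r := Nat.mul_pos hp.pos (by omega)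
  have hrec := Sv8.recip (p * r) hm _ hs (by norm_num)
  have hc := card_pf (2 ^ (24 * (p * r)) - 1) (24 * (p * r))
    (by have := mers_ne (24 * (p * r)) (by omega); omega) (mers_ne _ (by omega))
  have hpW : 10000 * p ≤ W := by
    refine le_trans (Nat.mul_le_mul_left _ ?_) hg
    exact le_trans (by omega) (Nat.le_self_pow (by norm_num) (p + 1))
  have hrW : r ≤ W := by omega
  have hn : 400 * (2 ^ (24 * (p * r)) - 1).primeFactors.card ≤ W ^ 2 := by
    calc _ ≤ 400 * (24 * (p * r)) := Nat.mul_le_mul_left _ hc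
      _ = 9600 * p * r := by ring
      _ ≤ W * W := Nat.mul_le_mul (by omega) hrW
      _ = W ^ 2 := by ring
  have hn' : 400 * ((2 ^ (24 * (p * r)) - 1).primeFactors.card : ℝ) ≤ (W : ℝ) ^ 2 := by
    exact_mod_cast hn
  have hW1 : (100 : ℝ) ≤ W := by exact_mod_cast (by omega : 100 ≤ W)
  have hsq : √((W : ℝ) ^ 8) = (W : ℝ) ^ 4 := by
    rw [show (W : ℝ) ^ 8 = ((W : ℝ) ^ 4) ^ 2 by ring, Real.sqrt_sq (by positivity)]
  rw [he, hq 8, hq 2, hsq, sum_add_distrib, sum_const, nsmul_eq_mul]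
  have h8 : ∑ l ∈ (2 ^ (24 * (p * r)) - 1).primeFactors, (W : ℝ) ^ 8 / ((l : ℕ) : ℝ) =
      (W : ℝ) ^ 8 * ∑ l ∈ (2 ^ (24 * (p * r)) - 1).primeFactors, (1 : ℝ) / (l : ℕ) := by
    rw [mul_sum]
    exact sum_congr rfl fun l _ => by ring
  have hW5 : (100 : ℝ) ≤ (W : ℝ) ^ 8 :=
    hW1.trans (le_self_pow₀ (by linarith) (by norm_num))
  have h9 := mul_le_mul_of_nonneg_left hrec (by positivity : (0 : ℝ) ≤ (W : ℝ) ^ 8)
  have h10 := mul_le_mul_of_nonneg_right hn' (by positivity : (0 : ℝ) ≤ (W : ℝ) ^ 6)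
  have h11 : (W : ℝ) ^ 2 * (W : ℝ) ^ 6 = (W : ℝ) ^ 8 := by ring
  have h12 : (W : ℝ) ^ 2 * (W : ℝ) ^ 4 = (W : ℝ) ^ 6 := by ring
  rw [h8, h12]
  rw [h11] at h10
  linarith

end Pool.Agent.MP_dfda4f_nt.Wl
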