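import Mathlib
import Pool.Agent.MP_dfda4f_nt.wl.Vanish
import Pool.Agent.MP_dfda4f_nt.wl.Step
import Pool.Agent.MP_dfda4f_nt.wl.Pow

open Polynomial Finset

namespace Pool.Agent.MP_dfda4f_nt.Wl

variable {K L : Type} [Field K] [Fintype K] [Field L] [Algebra K L]

theorem val_cp [Algebra.IsAlgebraic K L] {ζ η : L} {r : ℕ} (hζ : ζ ^ r = 1)
    (h : ζ ^ Fintype.card K = ζ) (hη : η ^ Fintype.card K * ζ = η) (s m : ℕ) (hn : 0 < r * m)
    {t : L} (ht : t ^ (Fintype.card K ^ (r * m)) = t) :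
    aeval η (cp K (r * m) t) ^ 2 * aeval (0 : L) (cp K (r * m) t) ^ s =
      (∏ i ∈ range r, ((η * ζ ^ i - t) ^ 2 * (-t) ^ s) ^ Fintype.card K ^ i) ^
        ∑ a ∈ range m, (Fintype.card K ^ r) ^ a := by
  rw [← prod_periodic (fun i => (η * ζ ^ i - t) ^ 2 * (-t) ^ s) _ r
    (fun j => by rw [pow_add, hζ, mul_one]) m]
  rw [← eval_map_algebraMap, ← eval_map_algebraMap, conjS K L _ t hn ht, eval_prod, eval_prod,
    ← prod_pow, ← prod_pow, ← prod_mul_distrib]
  refine prod_congr rfl fun j _ => ?_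
  have h1 : (η * ζ ^ j) ^ Fintype.card K ^ j = η := by
    rw [mul_pow, ← pow_mul ζ, mul_comm j, pow_mul ζ, pow_pow_fix h, eta_pow h hη]
  rw [mul_pow, ← pow_mul, mul_comm 2, pow_mul, frob_sub K, h1, ← pow_mul (-t), mul_comm s,
    pow_mul (-t), frob_neg K]
  simp

theorem exists_f1 {ζ η : L} {r : ℕ} (hr : 0 < r) (hζ : IsPrimitiveRoot ζ r) (h0 : η ≠ 0)
    (q s : ℕ) : ∃ f1 : L[X], f1.eval η ≠ 0 ∧ ∀ t : L, (t - η) ^ 2 * f1.eval t =
      ∏ i ∈ range r, ((η * ζ ^ i - t) ^ 2 * (-t) ^ s) ^ q ^ i := by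
  obtain ⟨r, rfl⟩ : ∃ r', r = r' + 1 := ⟨r - 1, by omega⟩
  refine ⟨(-X) ^ s * ∏ i ∈ range r, ((C (η * ζ ^ (i + 1)) - X) ^ 2 * (-X) ^ s) ^ q ^ (i + 1),
    ?_, fun t => ?_⟩
  · simp only [eval_mul, eval_pow, eval_neg, eval_X, eval_prod, eval_sub, eval_C]
    refine mul_ne_zero (pow_ne_zero _ (neg_ne_zero.2 h0)) (prod_ne_zero_iff.2 fun i hi => ?_)
    refine pow_ne_zero _ (mul_ne_zero (pow_ne_zero _ (sub_ne_zero.2 fun h => ?_))
      (pow_ne_zero _ (neg_ne_zero.2 h0)))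
    exact hζ.pow_ne_one_of_pos_of_lt (Nat.succ_ne_zero i) (by have := mem_range.1 hi; omega)
      (mul_left_cancel₀ h0 (by rw [h, mul_one]))
  · simp only [eval_mul, eval_pow, eval_neg, eval_X, eval_prod, eval_sub, eval_C]
    rw [prod_range_succ']
    simp only [pow_zero, mul_one, pow_one]
    ring

theorem weilS : WeilS := by
  classical
  intro K L _ _ _ _ _ _ r l M ζ η c Z hr hl hl2 hM hζ hζq h0 hη hZ
  obtain ⟨p, hp, k, hp', hk⟩ := FiniteField.card' K
  have := Fact.mk hp'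
  have : CharP L p := charP_of_injective_algebraMap (algebraMap K L).injective p
  have : NeZero l := ⟨hl.ne_zero⟩
  have := Fact.mk hl
  have hq1 : 1 < Fintype.card K := Fintype.one_lt_card
  have hr0 : r ≠ 0 := by omega
  have hQ1 : 1 < Fintype.card K ^ r := Nat.one_lt_pow hr0 hq1
  have hM0 : 0 < M := Nat.pos_of_ne_zero (by rintro rfl; omega)
  have : NeZero (l : L) := ⟨fun hz => by
    have h1 : ((Fintype.card K ^ r : ℕ) : L) = 0 := by
      rw [hk, ← pow_mul, Nat.cast_pow, CharP.cast_eq_zero L p,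
        zero_pow (Nat.mul_ne_zero k.ne_zero hr0)]
    rw [hM, Nat.cast_add, Nat.cast_mul, hz] at h1
    simp at h1⟩
  obtain ⟨ω, hω⟩ := HasEnoughRootsOfUnity.exists_primitiveRoot L l
  obtain ⟨idx, hidx, hidxm, hidx1⟩ := exists_idx hω
  have hηr : η ^ (Fintype.card K ^ r) = η := by
    have := eta_pow hζq hη r
    rwa [hζ.pow_eq_one, mul_one] at this
  have hE : ∀ z : L, z ^ (Fintype.card K ^ r) = z → z ≠ 0 → (z ^ M) ^ l = 1 := by
    intro z hz hz0
    rw [hM, pow_succ] at hz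
    rw [← pow_mul, mul_comm]
    exact mul_right_cancel₀ hz0 (by rw [hz, one_mul])
  set V : K[X] → L := fun g => aeval η g ^ 2 * aeval (0 : L) g ^ (l - 1) with hV
  have hVE : ∀ g, V g ^ (Fintype.card K ^ r) = V g := by
    intro g
    simp only [hV]
    rw [mul_pow, ← pow_mul, mul_comm 2, pow_mul, frob_aeval, hηr, ← pow_mul, mul_comm (l - 1),
      pow_mul, frob_aeval, zero_pow (by omega)]
  have hVt : ∀ t : K, V (X - C t) =
      (η - algebraMap K L t) ^ 2 * (-algebraMap K L t) ^ (l - 1) := by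
    intro t; simp [hV]
  refine card_le_of_sums (fun t : K => V (X - C t) = 0) (fun t => idx (V (X - C t) ^ M)) (idx c) Z
    (fun t ht => ?_) _ (by positivity) fun j hj => ?_
  · obtain ⟨h1, h2⟩ := hZ t ht
    rw [hVt, h2]
    refine ⟨mul_ne_zero (pow_ne_zero _ (sub_ne_zero.2 fun h3 => ?_))
      (pow_ne_zero _ (neg_ne_zero.2 ((_root_.map_ne_zero _).2 h1))), rfl⟩
    have h4 : η ^ Fintype.card K = η := by rw [h3, ← map_pow, FiniteField.pow_card]
    rw [h4] at hη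
    exact hζ.ne_one (by omega) (mul_left_cancel₀ h0 (by rw [hη, mul_one]))
  set χ : L → ℂ := fun z => if z = 0 then 0 else ZMod.stdAddChar (j * idx (z ^ M)) with hχ
  have hmul : ∀ z z' : L, z ^ (Fintype.card K ^ r) = z → z' ^ (Fintype.card K ^ r) = z' →
      χ (z * z') = χ z * χ z' := by
    intro z z' hz hz'
    by_cases h1 : z = 0
    · simp [hχ, h1]
    by_cases h2 : z' = 0
    · simp [hχ, h2]
    simp only [hχ, if_neg h1, if_neg h2, if_neg (mul_ne_zero h1 h2)]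
    rw [mul_pow, hidxm _ _ (hE z hz h1) (hE z' hz' h2), mul_add, AddChar.map_add_eq_mul]
  let Λ : K[X] →* ℂ :=
    { toFun := fun g => χ (V g)
      map_one' := by simp [hχ, hV, hidx1]
      map_mul' := fun g g' => by
        rw [← hmul _ _ (hVE g) (hVE g')]
        congr 1
        simp only [hV, map_mul]; ring }
  have hΛ : ∀ g, Λ g = χ (V g) := fun _ => rfl
  obtain ⟨γ, hγ⟩ := IsAlgClosed.exists_pow_nat_eq ω hM0
  have hω0 : ω ≠ 0 := hω.ne_zero hl.ne_zero
  have hγ0 : γ ≠ 0 := by rintro rfl; rw [zero_pow hM0.ne'] at hγ; exact hω0 hγ.symm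
  have hγE : γ ^ (Fintype.card K ^ r) = γ := by
    rw [hM, pow_succ, mul_comm l, pow_mul, hγ, hω.pow_eq_one, one_mul]
  have hγ1 : χ (γ ^ 2) ≠ 1 := by
    simp only [hχ, if_neg (pow_ne_zero 2 hγ0)]
    rw [← pow_mul, mul_comm 2, pow_mul, hγ, Ne,
      (ZMod.isPrimitive_stdAddChar l).zmod_char_eq_one_iff l]
    refine mul_ne_zero hj fun h1 => ?_
    have h2 := hidx (ω ^ 2) (by rw [← pow_mul, mul_comm, pow_mul, hω.pow_eq_one, one_pow])
    rw [h1, ZMod.val_zero, pow_zero] at h2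
    exact hl2 ((Nat.prime_dvd_prime_iff_eq hl Nat.prime_two).1
      ((hω.pow_eq_one_iff_dvd 2).1 h2.symm))
  obtain ⟨f1, hf1, hf⟩ := exists_f1 (by omega) hζ h0 (Fintype.card K) (l - 1)
  obtain ⟨C0, hC0⟩ := stepS L p l 2 η f1 hl.pos
    ((Nat.coprime_primes Nat.prime_two hl).2 hl2.symm) hf1
  set f : L[X] := (X - C η) ^ 2 * f1 with hfd
  have hf0 : f ≠ 0 := mul_ne_zero (pow_ne_zero _ (X_sub_C_ne_zero η))
    (by rintro rfl; simp at hf1)
  have key := powS (fun m => ∑ g ∈ Mon K m, Λ g)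
    (fun n => ∑ t ∈ Fx L (Fintype.card K ^ n), Λ (cp K n t)) r (r * 2) (C0 + 1)
    (√(Fintype.card K)) (C0 + f.natDegree) (by omega) (Real.sqrt_nonneg _)
    (by simp [Mon_zero]) (fun m hm => sum_Mon_vanish hr0 h0 (eta_deg hζ hζq h0 hη) hηr χ hmul
      hγE hγ0 hγ1 (l - 1) m hm) (newtonS K L Λ) (fun m hm => ?_)
  · simp only [sum_Mon_one] at key
    exact key
  have hn : 0 < r * (2 * m) := Nat.mul_pos (by omega) (by omega)
  have hnn : r * 2 * m = r * (2 * m) := mul_assoc _ _ _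
  have he : p ^ (k * (r * m)) = (Fintype.card K ^ r) ^ m := by rw [hk, ← pow_mul, ← pow_mul]
  have hee : p ^ (k * (r * m)) * p ^ (k * (r * m)) = Fintype.card K ^ (r * (2 * m)) := by
    rw [hk, ← pow_add, ← pow_mul]; congr 1; ring
  have hgeo : ∀ n, (Fintype.card K ^ r) ^ n =
      l * (M * ∑ a ∈ range n, (Fintype.card K ^ r) ^ a) + 1 := by
    intro n
    induction n with
    | zero => simp
    | succ n ih =>
      rw [sum_range_succ, pow_succ]
      generalize (Fintype.card K ^ r) ^ n = y at ih ⊢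
      generalize ∑ a ∈ range n, (Fintype.card K ^ r) ^ a = z at ih ⊢
      rw [hM]
      linear_combination ih
  set w := M * ∑ a ∈ range m, (Fintype.card K ^ r) ^ a with hw
  have hww : w * (p ^ (k * (r * m)) + 1) =
      (∑ a ∈ range (2 * m), (Fintype.card K ^ r) ^ a) * M := by
    rw [he, hw, two_mul, sum_range_add]
    simp only [pow_add]
    rw [← mul_sum]; ring
  have hlarge : m ≤ p ^ (k * (r * m)) := by
    rw [he]; exact (Nat.lt_pow_self hQ1).le
  have hQn : 1 < Fintype.card K ^ (r * (2 * m)) := Nat.one_lt_pow hn.ne' hq1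
  have hval : ∀ t ∈ Fx L (Fintype.card K ^ (r * (2 * m))), V (cp K (r * (2 * m)) t) =
      ((t - η) ^ 2 * f1.eval t) ^ ∑ a ∈ range (2 * m), (Fintype.card K ^ r) ^ a := by
    intro t ht
    rw [hf]
    exact val_cp hζ.pow_eq_one hζq hη _ _ hn ((mem_Fx hQn).1 ht)
  have hb := sum_le_of_fibres (Fx L (Fintype.card K ^ (r * (2 * m))))
    (fun t => V (cp K (r * (2 * m)) t) = 0) (fun t => idx (V (cp K (r * (2 * m)) t) ^ M)) j hj
    (C0 * p ^ (k * (r * m))) f.natDegree (fun a => ?_) ?_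
  · rw [hnn]
    refine le_trans (le_of_eq (by congr)) (hb.trans ?_)
    have h1 : √(Fintype.card K : ℝ) ^ (r * (2 * m)) = (p : ℝ) ^ (k * (r * m)) := by
      rw [mul_left_comm, pow_mul, Real.sq_sqrt (Nat.cast_nonneg _), hk]
      push_cast
      rw [← pow_mul]
    have h2 : (1 : ℝ) ≤ (p : ℝ) ^ (k * (r * m)) := one_le_pow₀ (by exact_mod_cast hp'.one_lt.le)
    rw [h1]
    push_cast
    nlinarith [Nat.cast_nonneg (α := ℝ) f.natDegree]
  · rw [card_Fx' K hn.ne', ← hee]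
    refine hC0 _ w (ω ^ a.val) (by omega) (by rw [he, hw]; exact hgeo m) ?_ _ fun t ht => ?_
    · rw [hee, pow_mul]; exact pow_pow_fix hηr _
    · obtain ⟨h1, h2, h3⟩ := mem_filter.1 ht
      refine ⟨(mem_Fx (by rw [hee]; exact hQn)).1 h1, fun h4 => h2 ?_, ?_⟩
      · rw [hval t (by rwa [← hee]), h4, zero_pow]
        exact (sum_pos (fun _ _ => by positivity) ⟨0, mem_range.2 (by omega)⟩).ne'
      · rw [hww, pow_mul, ← hval t (by rwa [← hee]), ← h3, hidx _ (hE _ (hVE _) h2)]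
  · refine card_le_degree_of_subset_roots fun t ht => ?_
    obtain ⟨h1, h2⟩ := mem_filter.1 ht
    rw [hval t h1] at h2
    rw [mem_roots hf0, IsRoot, hfd]
    simpa using pow_eq_zero_iff'.1 h2 |>.1

end Pool.Agent.MP_dfda4f_nt.Wl
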