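import Pool.Agent.MP_dfda4f_nt.wl.Sieve

open Polynomial Finset

namespace Pool.Agent.MP_dfda4f_nt.Wl

variable {K L : Type} [Field K] [Fintype K] [Field L] [Algebra K L]

theorem exists_res [IsAlgClosed L] (h : K[X]) (hm : h.Monic) : ∃ R : K[X] →* L,
    (∀ g, R g ^ Fintype.card K = R g) ∧ (∀ g ρ, R (g + h * ρ) = R g) ∧
    ∀ (g : K[X]) (n : ℕ) (x : ℕ → L), g.map (algebraMap K L) = ∏ j ∈ range n, (X - C (x j)) →
      R g = ∏ j ∈ range n, ((-1) ^ h.natDegree * aeval (x j) h) := by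
  set s := (h.map (algebraMap K L)).roots with hs
  have hsp : (h.map (algebraMap K L)).Splits := IsAlgClosed.splits _
  have hm' := hm.map (algebraMap K L)
  refine ⟨{ toFun := fun g => (s.map fun ρ => aeval ρ g).prod
            map_one' := by simp
            map_mul' := fun g g' => by simp [Multiset.prod_map_mul] }, fun g => ?_, fun g ρ => ?_,
    fun g n x hg => ?_⟩
  · have h1 := hsp.roots_map (FiniteField.frobeniusAlgHom K L).toRingHom
    rw [Polynomial.map_map, show (FiniteField.frobeniusAlgHom K L).toRingHom.comp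
      (algebraMap K L) = algebraMap K L from (FiniteField.frobeniusAlgHom K L).comp_algebraMap,
      ← hs] at h1
    simp only [MonoidHom.coe_mk, OneHom.coe_mk]
    conv_rhs => rw [h1]
    rw [← Multiset.prod_map_pow, Multiset.map_map]
    congr 1
    refine Multiset.map_congr rfl fun ρ _ => ?_
    have := frob_aeval 1 ρ g
    simpa using this
  · simp only [MonoidHom.coe_mk, OneHom.coe_mk]
    congr 1
    refine Multiset.map_congr rfl fun a ha => ?_
    have h1 := (mem_roots hm'.ne_zero).1 ha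
    rw [IsRoot, eval_map_algebraMap] at h1
    simp [h1]
  · simp only [MonoidHom.coe_mk, OneHom.coe_mk]
    have h1 : ∀ a : L, aeval a g = ∏ j ∈ range n, (a - x j) := fun a => by
      rw [← eval_map_algebraMap, hg, eval_prod]; simp
    simp only [h1]
    rw [Multiset.prod_map_prod]
    refine prod_congr rfl fun j _ => ?_
    rw [← eval_map_algebraMap, hsp.eval_eq_prod_roots_of_monic hm', ← hs,
      ← natDegree_map (algebraMap K L), hsp.natDegree_eq_card_roots, ← hs]
    have h2 : (s.map fun a => a - x j) = s.map fun a => (-1) * (x j - a) :=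
      Multiset.map_congr rfl fun a _ => by ring
    rw [h2, Multiset.prod_map_mul]
    simp

theorem sum_paramG [IsAlgClosed L] {η : L} {r : ℕ} (hr : r ≠ 0) (h : K[X]) (h0 : aeval η h ≠ 0)
    (hd : (minpoly K η).natDegree = r) (hη : η ^ (Fintype.card K ^ r) = η) (F : L → ℂ) :
    ∑ c : Fin r → K, F (aeval η (h * ∑ i : Fin r, C (c i) * X ^ (i : ℕ) : K[X])) =
      ∑ z ∈ Fx L (Fintype.card K ^ r), F z := by
  classical
  have hQ : 1 < Fintype.card K ^ r := Nat.one_lt_pow hr Fintype.one_lt_card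
  set φ : (Fin r → K) → L := fun c => aeval η (h * ∑ i : Fin r, C (c i) * X ^ (i : ℕ) : K[X])
    with hφ
  have hinj : Function.Injective φ := by
    intro c c' h
    subst hd
    have h1 := Fintype.linearIndependent_iff.1 (linearIndependent_pow (K := K) η) (c - c') (by
      simp only [hφ, map_mul, aeval_X, map_sum, aeval_C, map_pow] at h
      have h2 := mul_left_cancel₀ h0 h
      simp only [Pi.sub_apply, Algebra.smul_def, map_sub, sub_mul, sum_sub_distrib, h2, sub_self])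
    funext i
    exact sub_eq_zero.1 (h1 i)
  have himg : univ.image φ = Fx L (Fintype.card K ^ r) := by
    refine eq_of_subset_of_card_le (fun z hz => ?_) ?_
    · obtain ⟨c, _, rfl⟩ := mem_image.1 hz
      rw [mem_Fx hQ, hφ]
      simp only
      rw [frob_aeval, hη]
    · rw [card_image_of_injective _ hinj, card_Fx' K hr]
      simp
  rw [← himg, sum_image (fun a _ b _ h => hinj h)]

theorem sum_Mon_vanishG [IsAlgClosed L] {η : L} {r : ℕ} (hr : r ≠ 0) (h : K[X])
    (h0 : aeval η h ≠ 0) (hd : (minpoly K η).natDegree = r)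
    (hη : η ^ (Fintype.card K ^ r) = η) (n : ℕ) (χ : L → ℂ)
    (hmul : ∀ z z' : L, z ^ (Fintype.card K ^ r) = z → z' ^ (Fintype.card K ^ r) = z' →
      χ (z * z') = χ z * χ z')
    {γ : L} (hγ : γ ^ (Fintype.card K ^ r) = γ) (hγ0 : γ ≠ 0) (hγ1 : χ (γ ^ n) ≠ 1)
    (R : K[X] → L) (hR1 : ∀ g, R g ^ (Fintype.card K ^ r) = R g)
    (hR2 : ∀ g ρ, R (g + h * ρ) = R g) (m : ℕ) (hm : r + h.natDegree < m) :
    ∑ g ∈ Mon K m, χ (aeval η g ^ n * R g) = 0 := by
  have h1 : ∀ c : Fin r → K, ∑ g ∈ Mon K m, χ (aeval η g ^ n * R g) =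
      ∑ g ∈ Mon K m, χ ((aeval η g +
        aeval η (h * ∑ i : Fin r, C (c i) * X ^ (i : ℕ) : K[X])) ^ n * R g) := by
    intro c
    have h2 : (h * ∑ i : Fin r, C (c i) * X ^ (i : ℕ) : K[X]).natDegree < m := by
      refine lt_of_le_of_lt natDegree_mul_le ?_
      have h3 : (∑ i : Fin r, C (c i) * X ^ (i : ℕ) : K[X]).natDegree ≤ r :=
        natDegree_sum_le_of_forall_le _ _ fun i _ =>
          (natDegree_C_mul_X_pow_le _ _).trans i.2.le
      omega
    rw [← sum_Mon_shift (fun g => χ (aeval η g ^ n * R g)) h2]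
    refine sum_congr rfl fun g _ => ?_
    rw [hR2, map_add]
  have h4 := sum_congr rfl fun c (_ : c ∈ (univ : Finset (Fin r → K))) => h1 c
  rw [sum_const, sum_comm (s := univ)] at h4
  rw [sum_eq_zero (s := Mon K m) (f := fun g => ∑ c : Fin r → K, χ ((aeval η g +
        aeval η (h * ∑ i : Fin r, C (c i) * X ^ (i : ℕ) : K[X])) ^ n * R g))] at h4
  · rw [nsmul_eq_mul] at h4
    exact (mul_eq_zero.1 h4).resolve_left (Nat.cast_ne_zero.2 (card_pos.2 univ_nonempty).ne')
  · intro g _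
    rw [sum_paramG hr h h0 hd hη (fun z => χ ((aeval η g + z) ^ n * R g))]
    exact sum_pow_zero K hr n χ hmul hγ hγ0 hγ1 (by rw [frob_aeval, hη]) (hR1 g)

theorem val_cpG [Algebra.IsAlgebraic K L] {η : L} {r : ℕ}
    (hη : η ^ (Fintype.card K ^ (r + 1)) = η) (h : K[X]) (R : K[X] → L)
    (hR : ∀ (g : K[X]) (n : ℕ) (x : ℕ → L),
      g.map (algebraMap K L) = ∏ j ∈ range n, (X - C (x j)) →
      R g = ∏ j ∈ range n, ((-1) ^ h.natDegree * aeval (x j) h))
    (n s m : ℕ) (hn : 0 < (r + 1) * m) {t : L} (ht : t ^ (Fintype.card K ^ ((r + 1) * m)) = t) :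
    aeval η (cp K ((r + 1) * m) t) ^ n * R (cp K ((r + 1) * m) t) ^ s =
      (∏ i ∈ range (r + 1), ((η ^ Fintype.card K ^ (r * i) - t) ^ n *
        ((-1) ^ h.natDegree * aeval t h) ^ s) ^ Fintype.card K ^ i) ^
        ∑ a ∈ range m, (Fintype.card K ^ (r + 1)) ^ a := by
  rw [← prod_periodic (fun i => (η ^ Fintype.card K ^ (r * i) - t) ^ n *
        ((-1) ^ h.natDegree * aeval t h) ^ s) _ (r + 1)
    (fun j => by
      rw [mul_add, add_comm (r * j), pow_add, pow_mul η, mul_comm r (r + 1), pow_mul _ (r + 1),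
        pow_pow_fix hη]) m]
  rw [hR _ _ _ (conjS K L _ t hn ht), ← eval_map_algebraMap, conjS K L _ t hn ht, eval_prod,
    ← prod_pow, ← prod_pow, ← prod_mul_distrib]
  refine prod_congr rfl fun j _ => ?_
  have h1 : (η ^ Fintype.card K ^ (r * j)) ^ Fintype.card K ^ j = η := by
    rw [← pow_mul, ← pow_add, ← add_one_mul, pow_mul, pow_pow_fix hη]
  have h2 : ((-1 : L) ^ h.natDegree) ^ Fintype.card K ^ j = (-1) ^ h.natDegree := by
    rw [← pow_mul, mul_comm, pow_mul, frob_neg K, one_pow]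
  rw [mul_pow _ _ (Fintype.card K ^ j), ← pow_mul, mul_comm n, pow_mul, frob_sub K, h1,
    ← pow_mul _ s, mul_comm s, pow_mul _ _ s, mul_pow _ _ (Fintype.card K ^ j), h2, frob_aeval]
  simp

theorem exists_f1G [Algebra.IsAlgebraic K L] {η : L} {r : ℕ}
    (hd : (minpoly K η).natDegree = r + 1) (h : K[X]) (h0 : aeval η h ≠ 0) (n s : ℕ) :
    ∃ f1 : L[X], f1.eval η ≠ 0 ∧ ∀ t : L, (t - η) ^ n * f1.eval t =
      ∏ i ∈ range (r + 1), ((η ^ Fintype.card K ^ (r * i) - t) ^ n *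
        ((-1) ^ h.natDegree * aeval t h) ^ s) ^ Fintype.card K ^ i := by
  have h1 : ((-1 : L) ^ h.natDegree * aeval η h) ^ s ≠ 0 :=
    pow_ne_zero _ (mul_ne_zero (pow_ne_zero _ (neg_ne_zero.2 one_ne_zero)) h0)
  refine ⟨(-1) ^ n * ((-1) ^ h.natDegree * h.map (algebraMap K L)) ^ s *
    ∏ i ∈ range r, ((C (η ^ Fintype.card K ^ (r * (i + 1))) - X) ^ n *
      ((-1) ^ h.natDegree * h.map (algebraMap K L)) ^ s) ^ Fintype.card K ^ (i + 1),
    ?_, fun t => ?_⟩
  · simp only [eval_mul, eval_pow, eval_neg, eval_X, eval_prod, eval_sub, eval_C, eval_one,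
      eval_map_algebraMap]
    refine mul_ne_zero (mul_ne_zero (pow_ne_zero _ (neg_ne_zero.2 one_ne_zero)) h1)
      (prod_ne_zero_iff.2 fun i hi => ?_)
    refine pow_ne_zero _ (mul_ne_zero (pow_ne_zero _ (sub_ne_zero.2 fun h2 => ?_)) h1)
    rw [nw_fix_iff, hd] at h2
    have h3 := Nat.le_of_dvd (Nat.succ_pos i)
      ((by simp : Nat.Coprime (r + 1) r).dvd_of_dvd_mul_left h2)
    have := mem_range.1 hi
    omega
  · simp only [eval_mul, eval_pow, eval_neg, eval_X, eval_prod, eval_sub, eval_C, eval_one,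
      eval_map_algebraMap]
    rw [prod_range_succ']
    simp only [pow_zero, mul_zero, pow_one]
    rw [← neg_sub t η, neg_pow (t - η)]
    ring

theorem weilG (K L : Type) [Field K] [Fintype K] [Field L] [Algebra K L] [IsAlgClosed L]
    [Algebra.IsAlgebraic K L] (r l M n s : ℕ) (η c : L) (h : K[X]) (Z : Finset K)
    (hd : (minpoly K η).natDegree = r) (hl : l.Prime) (hl2 : ¬ l ∣ n)
    (hM : Fintype.card K ^ r = l * M + 1) (hmon : h.Monic) (h0 : aeval η h ≠ 0)
    (hZ : ∀ t ∈ Z, η ≠ algebraMap K L t ∧ aeval (algebraMap K L t) h ≠ 0 ∧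
      ((η - algebraMap K L t) ^ n * aeval (algebraMap K L t) h ^ s) ^ M = c) :
    (Z.card : ℝ) ≤ Fintype.card K / l + (r + h.natDegree : ℕ) * √(Fintype.card K) := by
  classical
  obtain ⟨p, hp, k, hp', hk⟩ := FiniteField.card' K
  have := Fact.mk hp'
  have : CharP L p := charP_of_injective_algebraMap (algebraMap K L).injective p
  have : NeZero l := ⟨hl.ne_zero⟩
  have := Fact.mk hl
  have hq1 : 1 < Fintype.card K := Fintype.one_lt_card
  have hr0 : r ≠ 0 := hd ▸ (minpoly.natDegree_pos (nw_int η)).ne'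
  obtain ⟨R, hR1, hR2, hR3⟩ := exists_res (L := L) h hmon
  have hQ1 : 1 < Fintype.card K ^ r := Nat.one_lt_pow hr0 hq1
  have hM0 : 0 < M := Nat.pos_of_ne_zero (by rintro rfl; omega)
  have : NeZero (l : L) := ⟨fun hz => by
    have h1 : ((Fintype.card K ^ r : ℕ) : L) = 0 := by
      rw [hk, ← pow_mul, Nat.cast_pow, CharP.cast_eq_zero L p,
        zero_pow (Nat.mul_ne_zero k.ne_zero hr0)]
    rw [hM, Nat.cast_add, Nat.cast_mul, hz] at h1
    simp at h1⟩
  obtain ⟨ω, hω⟩ := HasEnoughRootsOfUnity.exists_primitiveRoot L l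
  obtain ⟨idx, hidx, hidxm, hidx1⟩ := exists_idx hω
  have hηr : η ^ (Fintype.card K ^ r) = η := (nw_fix_iff η r).2 (hd ▸ dvd_rfl)
  have hRr : ∀ g, (R g ^ s) ^ (Fintype.card K ^ r) = R g ^ s := fun g => by
    rw [← pow_mul, mul_comm, pow_mul, pow_pow_fix (hR1 g)]
  have hE : ∀ z : L, z ^ (Fintype.card K ^ r) = z → z ≠ 0 → (z ^ M) ^ l = 1 := by
    intro z hz hz0
    rw [hM, pow_succ] at hz
    rw [← pow_mul, mul_comm]
    exact mul_right_cancel₀ hz0 (by rw [hz, one_mul])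
  set V : K[X] → L := fun g => aeval η g ^ n * R g ^ s with hV
  have hVE : ∀ g, V g ^ (Fintype.card K ^ r) = V g := by
    intro g
    simp only [hV]
    rw [mul_pow, ← pow_mul, mul_comm n, pow_mul, frob_aeval, hηr, hRr]
  have hVt : ∀ t : K, V (X - C t) =
      (η - algebraMap K L t) ^ n * ((-1) ^ h.natDegree * aeval (algebraMap K L t) h) ^ s := by
    intro t
    have := hR3 (X - C t) 1 (fun _ => algebraMap K L t) (by simp)
    simp only [hV, this]
    simp
  refine card_le_of_sums (fun t : K => V (X - C t) = 0) (fun t => idx (V (X - C t) ^ M))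
    (idx ((((-1) ^ h.natDegree) ^ s) ^ M * c)) Z (fun t ht => ?_) _ (by positivity) fun j hj => ?_
  · obtain ⟨h1, h2, h3⟩ := hZ t ht
    rw [hVt, ← h3]
    refine ⟨mul_ne_zero (pow_ne_zero _ (sub_ne_zero.2 h1)) (pow_ne_zero _
      (mul_ne_zero (pow_ne_zero _ (neg_ne_zero.2 one_ne_zero)) h2)), ?_⟩
    congr 1
    simp only [mul_pow]
    ring
  set χ : L → ℂ := fun z => if z = 0 then 0 else ZMod.stdAddChar (j * idx (z ^ M)) with hχ
  have hmul : ∀ z z' : L, z ^ (Fintype.card K ^ r) = z → z' ^ (Fintype.card K ^ r) = z' →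
      χ (z * z') = χ z * χ z' := by
    intro z z' hz hz'
    by_cases h1 : z = 0
    · simp [hχ, h1]
    by_cases h2 : z' = 0
    · simp [hχ, h2]
    simp only [hχ, if_neg h1, if_neg h2, if_neg (mul_ne_zero h1 h2)]
    rw [mul_pow, hidxm _ _ (hE z hz h1) (hE z' hz' h2), mul_add, AddChar.map_add_eq_mul]
  let Λ : K[X] →* ℂ :=
    { toFun := fun g => χ (V g)
      map_one' := by simp [hχ, hV, hidx1]
      map_mul' := fun g g' => by
        rw [← hmul _ _ (hVE g) (hVE g')]
        congr 1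
        simp only [hV, map_mul]; ring }
  have hΛ : ∀ g, Λ g = χ (V g) := fun _ => rfl
  obtain ⟨γ, hγ⟩ := IsAlgClosed.exists_pow_nat_eq ω hM0
  have hω0 : ω ≠ 0 := hω.ne_zero hl.ne_zero
  have hγ0 : γ ≠ 0 := by rintro rfl; rw [zero_pow hM0.ne'] at hγ; exact hω0 hγ.symm
  have hγE : γ ^ (Fintype.card K ^ r) = γ := by
    rw [hM, pow_succ, mul_comm l, pow_mul, hγ, hω.pow_eq_one, one_mul]
  have hγ1 : χ (γ ^ n) ≠ 1 := by
    simp only [hχ, if_neg (pow_ne_zero n hγ0)]
    rw [← pow_mul, mul_comm n, pow_mul, hγ, Ne,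
      (ZMod.isPrimitive_stdAddChar l).zmod_char_eq_one_iff l]
    refine mul_ne_zero hj fun h1 => ?_
    have h2 := hidx (ω ^ n) (by rw [← pow_mul, mul_comm, pow_mul, hω.pow_eq_one, one_pow])
    rw [h1, ZMod.val_zero, pow_zero] at h2
    exact hl2 ((hω.pow_eq_one_iff_dvd n).1 h2.symm)
  obtain ⟨r', hr'⟩ : ∃ r', r = r' + 1 := ⟨r - 1, by omega⟩
  obtain ⟨f1, hf1, hf⟩ := exists_f1G (hd.trans hr') h h0 n s
  obtain ⟨C0, hC0⟩ := stepS L p l n η f1 hl.pos
    ((Nat.Prime.coprime_iff_not_dvd hl).2 hl2).symm hf1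
  set f : L[X] := (X - C η) ^ n * f1 with hfd
  have hf0 : f ≠ 0 := mul_ne_zero (pow_ne_zero _ (X_sub_C_ne_zero η))
    (by rintro rfl; simp at hf1)
  have key := powS (fun m => ∑ g ∈ Mon K m, Λ g)
    (fun n => ∑ t ∈ Fx L (Fintype.card K ^ n), Λ (cp K n t)) (r + h.natDegree) (r * 2) (C0 + 1)
    (√(Fintype.card K)) (C0 + f.natDegree) (by omega) (Real.sqrt_nonneg _)
    (by simp [Mon_zero]) (fun m hm => sum_Mon_vanishG hr0 h h0 hd hηr n χ hmul
      hγE hγ0 hγ1 (fun g => R g ^ s) hRr (fun g ρ => by simp only [hR2]) m hm) (newtonS K L Λ) (fun m hm => ?_)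
  · simp only [sum_Mon_one] at key
    exact key
  have hn : 0 < r * (2 * m) := Nat.mul_pos (by omega) (by omega)
  have hnn : r * 2 * m = r * (2 * m) := mul_assoc _ _ _
  have he : p ^ (k * (r * m)) = (Fintype.card K ^ r) ^ m := by rw [hk, ← pow_mul, ← pow_mul]
  have hee : p ^ (k * (r * m)) * p ^ (k * (r * m)) = Fintype.card K ^ (r * (2 * m)) := by
    rw [hk, ← pow_add, ← pow_mul]; congr 1; ring
  have hgeo : ∀ n, (Fintype.card K ^ r) ^ n =
      l * (M * ∑ a ∈ range n, (Fintype.card K ^ r) ^ a) + 1 := by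
    intro n
    induction n with
    | zero => simp
    | succ n ih =>
      rw [sum_range_succ, pow_succ]
      generalize (Fintype.card K ^ r) ^ n = y at ih ⊢
      generalize ∑ a ∈ range n, (Fintype.card K ^ r) ^ a = z at ih ⊢
      rw [hM]
      linear_combination ih
  set w := M * ∑ a ∈ range m, (Fintype.card K ^ r) ^ a with hw
  have hww : w * (p ^ (k * (r * m)) + 1) =
      (∑ a ∈ range (2 * m), (Fintype.card K ^ r) ^ a) * M := by
    rw [he, hw, two_mul, sum_range_add]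
    simp only [pow_add]
    rw [← mul_sum]; ring
  have hlarge : m ≤ p ^ (k * (r * m)) := by
    rw [he]; exact (Nat.lt_pow_self hQ1).le
  have hQn : 1 < Fintype.card K ^ (r * (2 * m)) := Nat.one_lt_pow hn.ne' hq1
  have hval : ∀ t ∈ Fx L (Fintype.card K ^ (r * (2 * m))), V (cp K (r * (2 * m)) t) =
      ((t - η) ^ n * f1.eval t) ^ ∑ a ∈ range (2 * m), (Fintype.card K ^ r) ^ a := by
    intro t ht
    rw [hf]
    subst hr'
    exact val_cpG hηr h R hR3 _ _ _ hn ((mem_Fx hQn).1 ht)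
  have hb := sum_le_of_fibres (Fx L (Fintype.card K ^ (r * (2 * m))))
    (fun t => V (cp K (r * (2 * m)) t) = 0) (fun t => idx (V (cp K (r * (2 * m)) t) ^ M)) j hj
    (C0 * p ^ (k * (r * m))) f.natDegree (fun a => ?_) ?_
  · rw [hnn]
    refine le_trans (le_of_eq (by congr)) (hb.trans ?_)
    have h1 : √(Fintype.card K : ℝ) ^ (r * (2 * m)) = (p : ℝ) ^ (k * (r * m)) := by
      rw [mul_left_comm, pow_mul, Real.sq_sqrt (Nat.cast_nonneg _), hk]
      push_cast
      rw [← pow_mul]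
    have h2 : (1 : ℝ) ≤ (p : ℝ) ^ (k * (r * m)) := one_le_pow₀ (by exact_mod_cast hp'.one_lt.le)
    rw [h1]
    push_cast
    nlinarith [Nat.cast_nonneg (α := ℝ) f.natDegree]
  · rw [card_Fx' K hn.ne', ← hee]
    refine hC0 _ w (ω ^ a.val) (by omega) (by rw [he, hw]; exact hgeo m) ?_ _ fun t ht => ?_
    · rw [hee, pow_mul]; exact pow_pow_fix hηr _
    · obtain ⟨h1, h2, h3⟩ := mem_filter.1 ht
      refine ⟨(mem_Fx (by rw [hee]; exact hQn)).1 h1, fun h4 => h2 ?_, ?_⟩
      · rw [hval t (by rwa [← hee]), h4, zero_pow]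
        exact (sum_pos (fun _ _ => by positivity) ⟨0, mem_range.2 (by omega)⟩).ne'
      · rw [hww, pow_mul, ← hval t (by rwa [← hee]), ← h3, hidx _ (hE _ (hVE _) h2)]
  · refine card_le_degree_of_subset_roots fun t ht => ?_
    obtain ⟨h1, h2⟩ := mem_filter.1 ht
    rw [hval t h1] at h2
    rw [mem_roots hf0, IsRoot, hfd]
    simpa using pow_eq_zero_iff'.1 h2 |>.1

end Pool.Agent.MP_dfda4f_nt.Wl
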